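import Pool.Agent.Lib.MP_3145b1_co.F.Spec

/-!
# MP_3145b1_co, F: functions on a subcube (`S_Cos`)
-/

set_option autoImplicit false

namespace Pool.Agent.MP3145b1.F

open Finset

private theorem cos_split {n : ℕ} (U : Finset (Fin n)) (F : Finset (Fin n) → ℝ) :
    ∑ S : Finset (Fin n), F S = ∑ s ∈ U.powerset, ∑ R ∈ (Uᶜ).powerset, F (s ∪ R) := by
  rw [← Finset.sum_product']
  refine Finset.sum_nbij' (fun S => (S ∩ U, S ∩ Uᶜ)) (fun p => p.1 ∪ p.2) ?_ ?_ ?_ ?_ ?_
  · intro S _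
    rw [Finset.mem_product, Finset.mem_powerset, Finset.mem_powerset]
    exact ⟨Finset.inter_subset_right, Finset.inter_subset_right⟩
  · intro p _
    exact Finset.mem_univ _
  · intro S _
    show S ∩ U ∪ S ∩ Uᶜ = S
    rw [← Finset.inter_union_distrib_left, Finset.union_compl, Finset.inter_univ]
  · rintro ⟨s, R⟩ hp
    rw [Finset.mem_product, Finset.mem_powerset, Finset.mem_powerset] at hp
    obtain ⟨hs, hR⟩ := hp
    have h1 : ∀ x ∈ R, x ∉ U := fun x hx => Finset.mem_compl.mp (hR hx)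
    ext x
    · simp only [Finset.mem_inter, Finset.mem_union]
      constructor
      · rintro ⟨h2 | h2, h3⟩
        · exact h2
        · exact absurd h3 (h1 x h2)
      · intro h2
        exact ⟨Or.inl h2, hs h2⟩
    · simp only [Finset.mem_inter, Finset.mem_union, Finset.mem_compl]
      constructor
      · rintro ⟨h2 | h2, h3⟩
        · exact absurd (hs h2) h3
        · exact h2
      · intro h2
        exact ⟨Or.inr h2, h1 x h2⟩
  · intro S _
    show F S = F (S ∩ U ∪ S ∩ Uᶜ)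
    rw [← Finset.inter_union_distrib_left, Finset.union_compl, Finset.inter_univ]

private theorem cos_coef {n : ℕ} (U c : Finset (Fin n)) (β : Finset (Fin n) → ℝ)
    (hβ : ∀ A, β A ≠ 0 → A ∩ U = c) (s R : Finset (Fin n)) (hs : s ⊆ U) (hR : R ⊆ Uᶜ) :
    fc β (s ∪ R) = (-1 : ℝ) ^ (s ∩ c).card * fc β R := by
  unfold fc
  suffices h : ∑ A : Finset (Fin n), β A * (-1 : ℝ) ^ ((s ∪ R) ∩ A).card =
      (-1 : ℝ) ^ (s ∩ c).card * ∑ A : Finset (Fin n), β A * (-1 : ℝ) ^ (R ∩ A).card by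
    rw [h]
    ring
  rw [Finset.mul_sum]
  refine Finset.sum_congr rfl fun A _ => ?_
  by_cases hA : β A = 0
  · rw [hA]
    ring
  · have h1 := hβ A hA
    have h2 : (s ∪ R) ∩ A = (s ∩ c) ∪ (R ∩ A) := by
      rw [Finset.union_inter_distrib_right]
      congr 1
      rw [← h1]
      ext x
      simp only [Finset.mem_inter]
      exact ⟨fun h => ⟨h.1, h.2, hs h.1⟩, fun h => ⟨h.1, h.2.1⟩⟩
    have h3 : Disjoint (s ∩ c) (R ∩ A) := by
      rw [Finset.disjoint_left]
      intro x hx hx'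
      exact Finset.mem_compl.mp (hR (Finset.mem_inter.mp hx').1) (hs (Finset.mem_inter.mp hx).1)
    rw [h2, Finset.card_union_of_disjoint h3, pow_add]
    ring

theorem cos : S_Cos := by
  intro n U c g β hβ
  have h1 : ∀ s ∈ U.powerset, ∀ R ∈ (Uᶜ).powerset, fc β (s ∪ R) ^ 2 = fc β R ^ 2 := by
    intro s hs R hR
    rw [cos_coef U c β hβ s R (Finset.mem_powerset.mp hs) (Finset.mem_powerset.mp hR), mul_pow,
      ← pow_mul, mul_comm _ 2, pow_mul, neg_one_sq, one_pow, one_mul]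
  have h2 : ∑ R ∈ (Uᶜ).powerset, fc β R ^ 2 =
      (1 / 2 : ℝ) ^ U.card * mn (fun A => β A ^ 2) := by
    have h3 : ∑ S : Finset (Fin n), fc β S ^ 2 = 2 ^ U.card * ∑ R ∈ (Uᶜ).powerset, fc β R ^ 2 := by
      rw [cos_split U, Finset.sum_congr rfl fun s hs => Finset.sum_congr rfl (h1 s hs),
        Finset.sum_const, Finset.card_powerset, nsmul_eq_mul]
      push_cast
      rfl
    have h4 := par n β
    have h5 : mn (fun A => β A ^ 2) = ∑ S : Finset (Fin n), fc β S ^ 2 := h4.symm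
    rw [h5, h3, ← mul_assoc, ← mul_pow]
    norm_num
  rw [cos_split U]
  unfold LU
  rw [Finset.sum_mul]
  refine Finset.sum_le_sum fun s hs => ?_
  have h6 : ∀ R ∈ (Uᶜ).powerset, |fc g (s ∪ R) * fc β (s ∪ R)| =
      |fc g (s ∪ R)| * |fc β (s ∪ R)| := fun R _ => abs_mul _ _
  rw [Finset.sum_congr rfl h6]
  have h7 := Real.sum_mul_le_sqrt_mul_sqrt (Uᶜ).powerset (fun R => |fc g (s ∪ R)|)
    (fun R => |fc β (s ∪ R)|)
  simp only [sq_abs] at h7
  rw [Finset.sum_congr rfl (h1 s hs), h2] at h7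
  exact h7

end Pool.Agent.MP3145b1.F
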