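import Pool.Agent.Lib.MP_3145b1_co.F.Spec

/-!
# MP_3145b1_co: upper bound for the cost of a variable, XOR of terms (`S_CostA`)
-/

set_option autoImplicit false

namespace Pool.Agent.MP3145b1.F

open Finset

private theorem costA_one {n : ℕ} : mn (fun _ : Finset (Fin n) => (1 : ℝ)) = 1 := by
  unfold mn
  rw [Finset.sum_const, Finset.card_univ, Fintype.card_finset, Fintype.card_fin, nsmul_eq_mul,
    mul_one]
  push_cast
  rw [← mul_pow]
  norm_num

private theorem costA_mn {n : ℕ} {f g : Finset (Fin n) → ℝ} (h : ∀ A, f A ≤ g A) :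
    mn f ≤ mn g := by
  unfold mn
  exact mul_le_mul_of_nonneg_left (Finset.sum_le_sum fun A _ => h A) (by positivity)

private theorem costA_tm (h5 : S_Ind) {n : ℕ} (W c : Finset (Fin n)) :
    mn (fun A => tm W c A) ≤ (1 / 2 : ℝ) ^ W.card := by
  by_cases hc : c ⊆ W
  · have h := h5 n W c (fun _ => 1) (fun _ => rfl) hc
    rw [costA_one, mul_one] at h
    rw [← h]
    exact costA_mn fun A => by rw [mul_one]
  · have h : mn (fun A => tm W c A) ≤ mn (fun _ : Finset (Fin n) => (0 : ℝ)) := by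
      refine costA_mn fun A => ?_
      unfold tm
      rw [if_neg]
      intro h1
      exact hc (h1 ▸ Finset.inter_subset_right)
    refine h.trans ?_
    unfold mn
    rw [Finset.sum_const_zero, mul_zero]
    positivity

private theorem costA_fac {n : ℕ} (M a A : Finset (Fin n)) : |1 - 2 * tm M a A| = 1 := by
  unfold tm
  split_ifs
  · norm_num
  · norm_num

private theorem costA_sq {n : ℕ} (J : Finset ℕ) (M a : ℕ → Finset (Fin n)) (A : Finset (Fin n)) :
    |∏ j ∈ J, (1 - 2 * tm (M j) (a j) A)| = 1 := by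
  rw [Finset.abs_prod]
  exact Finset.prod_eq_one fun j _ => costA_fac _ _ _

private theorem costA_nonneg {n : ℕ} (U : Finset (Fin n)) (g : Finset (Fin n) → ℝ) :
    0 ≤ LU U g := Finset.sum_nonneg fun _ _ => Real.sqrt_nonneg _

/-- The norm of the product over a family. -/
private theorem costA_fam (h2 : S_Prod) (h3 : S_LSum) (h5 : S_Ind) {n k w : ℕ} {J : Finset ℕ}
    {M a : ℕ → Finset (Fin n)} {c : ℝ} (hw : 1 ≤ w) (hRd : Rd k J M)
    (ha : ∀ j ∈ J, a j ⊆ M j) (hM : ∀ j ∈ J, w ≤ (M j).card) (hc : |c| ≤ 1)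
    (U : Finset (Fin n)) (g : Finset (Fin n) → ℝ)
    (hg : ∀ A, g A = c * ∏ j ∈ J, (1 - 2 * tm (M j) (a j) A)) :
    LU U g ≤ Real.exp (10 * k ^ 2 * U.card / w) := by
  classical
  set u : Finset (Fin n) → ℝ :=
    fun A => ∏ j ∈ J.filter (fun j => Disjoint (M j) U), (1 - 2 * tm (M j) (a j) A) with hu
  have hu1 : ∀ A, u (A \ U) = u A := by
    intro A
    refine Finset.prod_congr rfl fun j hj => ?_
    have hd := (Finset.mem_filter.1 hj).2
    have h1 : (A \ U) ∩ M j = A ∩ M j := by
      ext i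
      simp only [mem_inter, mem_sdiff]
      constructor
      · rintro ⟨⟨h1, -⟩, h2⟩; exact ⟨h1, h2⟩
      · rintro ⟨h1, h2⟩
        exact ⟨⟨h1, fun h3 => (Finset.disjoint_left.1 hd) h2 h3⟩, h2⟩
    unfold tm
    rw [h1]
  have hu2 : ∀ A, u A ^ 2 = 1 := by
    intro A
    rw [← sq_abs, hu]
    simp only
    rw [costA_sq, one_pow]
  have key := h2 n k w (J.filter fun j => ¬ Disjoint (M j) U) M a U u 1 2 hw zero_le_one
    zero_le_two le_rfl
    (fun v => (Finset.card_le_card fun j hj => by
      rw [Finset.mem_filter, Finset.mem_filter] at hj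
      rw [Finset.mem_filter]
      exact ⟨hj.1.1, hj.2⟩).trans (hRd v))
    (fun j hj => hM j (Finset.mem_filter.1 hj).1) (fun j hj => ha j (Finset.mem_filter.1 hj).1)
    (fun j hj => (Finset.mem_filter.1 hj).2) hu1 ?_
  · rw [one_mul] at key
    have hg2 : g = fun A => ∑ _i ∈ ({()} : Finset Unit), c *
        ((∏ j ∈ J.filter (fun j => ¬ Disjoint (M j) U), (1 - 2 * tm (M j) (a j) A)) * u A) := by
      funext A
      rw [Finset.sum_singleton, hg A, hu]
      simp only
      rw [mul_comm (∏ j ∈ J.filter (fun j => ¬ Disjoint (M j) U), (1 - 2 * tm (M j) (a j) A)),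
        Finset.prod_filter_mul_prod_filter_not]
    rw [hg2]
    refine (h3 n Unit {()} U (fun _ => c) (fun _ A =>
      (∏ j ∈ J.filter (fun j => ¬ Disjoint (M j) U), (1 - 2 * tm (M j) (a j) A)) * u A)).trans ?_
    rw [Finset.sum_singleton]
    calc |c| * LU U (fun A =>
          (∏ j ∈ J.filter (fun j => ¬ Disjoint (M j) U), (1 - 2 * tm (M j) (a j) A)) * u A)
        ≤ 1 * LU U (fun A =>
          (∏ j ∈ J.filter (fun j => ¬ Disjoint (M j) U), (1 - 2 * tm (M j) (a j) A)) * u A) :=
          mul_le_mul_of_nonneg_right hc (costA_nonneg _ _)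
      _ ≤ _ := by rw [one_mul]; exact key
  · intro M' a'
    have e1 : (fun A => tm (M' \ U) (a' \ U) A * u A ^ 2) = fun A => tm (M' \ U) (a' \ U) A := by
      funext A
      rw [hu2, mul_one]
    rw [e1, one_pow, one_mul]
    refine (costA_tm h5 _ _).trans ?_
    rw [← Real.rpow_natCast]
    refine Real.rpow_le_rpow_of_exponent_ge (by norm_num) (by norm_num) ?_
    have : (0 : ℝ) ≤ ((M' \ U).card : ℝ) := Nat.cast_nonneg _
    linarith

private theorem costA_rd {n k : ℕ} {J : Finset ℕ} {M : ℕ → Finset (Fin n)} (h : Rd k J M)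
    (p : ℕ → Prop) [DecidablePred p] (v : Fin n) :
    Rd k (J.filter p) (fun j => (M j).erase v) := by
  intro u
  refine (Finset.card_le_card fun j hj => ?_).trans (h u)
  rw [Finset.mem_filter, Finset.mem_filter] at hj
  rw [Finset.mem_filter]
  exact ⟨hj.1.1, Finset.mem_of_mem_erase hj.2⟩

private theorem costA_num {K w u : ℕ} (hw : 15 * K ≤ w) (h0 : 1 ≤ w) (hu : w ≤ u) :
    Real.exp (10 * K * u / w) * (1 / 2 : ℝ) ^ u ≤ Real.exp (10 * K) * (1 / 2 : ℝ) ^ w := by
  obtain ⟨t, rfl⟩ := Nat.exists_eq_add_of_le hu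
  have hw0 : (0 : ℝ) < w := by exact_mod_cast h0
  have e1 : (10 * K * ((w + t : ℕ) : ℝ) / w : ℝ) = 10 * K + 10 * K * t / w := by
    push_cast
    field_simp
  rw [e1, Real.exp_add, pow_add]
  have h2 : Real.exp (10 * K * t / w) ≤ 2 ^ t := by
    have h3 : (10 * K * t / w : ℝ) ≤ t * Real.log 2 := by
      rw [div_le_iff₀ hw0]
      have h4 : (15 : ℝ) * K ≤ w := by exact_mod_cast hw
      have h5 : (2 / 3 : ℝ) ≤ Real.log 2 := by linarith [Real.log_two_gt_d9]
      have h6 : (0 : ℝ) ≤ t := Nat.cast_nonneg _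
      have h7 : (10 * K : ℝ) ≤ Real.log 2 * w := by nlinarith
      nlinarith
    calc Real.exp (10 * K * t / w) ≤ Real.exp (t * Real.log 2) := Real.exp_le_exp.2 h3
      _ = 2 ^ t := by rw [Real.exp_nat_mul, Real.exp_log (by norm_num)]
  have h3 : Real.exp (10 * K * t / w) * (1 / 2 : ℝ) ^ t ≤ 1 := by
    calc Real.exp (10 * K * t / w) * (1 / 2 : ℝ) ^ t ≤ 2 ^ t * (1 / 2 : ℝ) ^ t :=
          mul_le_mul_of_nonneg_right h2 (by positivity)
      _ = 1 := by rw [← mul_pow]; norm_num
  have h8 : 0 ≤ Real.exp (10 * K : ℝ) * (1 / 2 : ℝ) ^ w := by positivity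
  calc Real.exp (10 * K) * Real.exp (10 * K * t / w) * ((1 / 2 : ℝ) ^ w * (1 / 2 : ℝ) ^ t)
      = (Real.exp (10 * K) * (1 / 2 : ℝ) ^ w) * (Real.exp (10 * K * t / w) * (1 / 2 : ℝ) ^ t) := by
        ring
    _ ≤ (Real.exp (10 * K) * (1 / 2 : ℝ) ^ w) * 1 := mul_le_mul_of_nonneg_left h3 h8
    _ = _ := mul_one _

theorem costA (h1 : S_First) (h2 : S_Prod) (h3 : S_LSum) (h4 : S_Res) (h5 : S_Ind) :
    S_CostA := by
  classical
  intro n k w J M a v c hk hw hRd ha hM hc f hf
  have hw1 : 1 ≤ w - 1 := by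
    have : 1 ≤ k ^ 2 := Nat.one_le_pow _ _ hk
    omega
  -- the restrictions
  have hr0 : ∀ U, LU U (r0 v f) ≤ Real.exp (10 * k ^ 2 * U.card / ((w - 1 : ℕ) : ℝ)) := by
    intro U
    refine costA_fam h2 h3 h5 (J := J.filter fun j => v ∉ a j) (M := fun j => (M j).erase v)
      (a := a) hw1 (costA_rd hRd _ v) ?_ ?_ hc U _ ?_
    · intro j hj
      rw [Finset.mem_filter] at hj
      exact Finset.subset_erase.2 ⟨ha j hj.1, hj.2⟩
    · intro j hj
      rw [Finset.mem_filter] at hj
      exact (Nat.sub_le_sub_right (hM j hj.1) 1).trans Finset.pred_card_le_card_erase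
    · intro A
      unfold r0
      rw [hf, Finset.prod_filter]
      congr 1
      refine Finset.prod_congr rfl fun j hj => ?_
      rw [(h4 n (M j) (a j) A v (ha j hj)).1]
      by_cases hv : v ∈ a j
      · rw [if_pos hv, if_neg (not_not.2 hv), mul_zero, sub_zero]
      · rw [if_neg hv, if_pos hv]
  have hr1 : ∀ U, LU U (r1 v f) ≤ Real.exp (10 * k ^ 2 * U.card / ((w - 1 : ℕ) : ℝ)) := by
    intro U
    refine costA_fam h2 h3 h5 (J := J.filter fun j => v ∈ M j → v ∈ a j)
      (M := fun j => (M j).erase v) (a := fun j => (a j).erase v) hw1 (costA_rd hRd _ v) ?_ ?_ hc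
      U _ ?_
    · intro j hj
      rw [Finset.mem_filter] at hj
      exact Finset.erase_subset_erase v (ha j hj.1)
    · intro j hj
      rw [Finset.mem_filter] at hj
      exact (Nat.sub_le_sub_right (hM j hj.1) 1).trans Finset.pred_card_le_card_erase
    · intro A
      unfold r1
      rw [hf, Finset.prod_filter]
      congr 1
      refine Finset.prod_congr rfl fun j hj => ?_
      rw [(h4 n (M j) (a j) A v (ha j hj)).2]
      by_cases hv : v ∈ M j ∧ v ∉ a j
      · rw [if_pos hv, if_neg (fun h => hv.2 (h hv.1)), mul_zero, sub_zero]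
      · rw [if_neg hv, if_pos (fun h => by_contra fun h' => hv ⟨h, h'⟩)]
  have hav : ∀ U, LU U (av v f) ≤ Real.exp (10 * k ^ 2 * U.card / ((w - 1 : ℕ) : ℝ)) := by
    intro U
    have e1 : av v f = fun A => ∑ i : Bool, (1 / 2 : ℝ) * (if i = true then r1 v f else r0 v f) A := by
      funext A
      rw [Fintype.sum_bool, if_pos rfl, if_neg (by decide)]
      unfold av r0 r1
      ring
    rw [e1]
    refine (h3 n Bool univ U (fun _ => 1 / 2) (fun i => if i = true then r1 v f else r0 v f)).trans ?_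
    rw [Fintype.sum_bool, if_pos rfl, if_neg (by decide)]
    have h6 : |(1 / 2 : ℝ)| = 1 / 2 := by norm_num
    rw [h6]
    have := hr0 U
    have := hr1 U
    linarith
  -- the first index
  have hfa : ∀ A, |f A| ≤ 1 := by
    intro A
    rw [hf, abs_mul, costA_sq, mul_one]
    exact hc
  have hdf : ∀ A, df v f A ^ 2 ≤ 1 := by
    intro A
    rw [sq_le_one_iff_abs_le_one]
    unfold df
    rw [abs_div, abs_two, div_le_one (by norm_num)]
    have h6 := hfa (A.erase v)
    have h7 := hfa (insert v A)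
    have h8 := abs_sub (f (A.erase v)) (f (insert v A))
    linarith
  have hF := h1 n (J.filter fun j => v ∈ M j) (fun j => (M j).erase v) (fun j => (a j).erase v)
    (fun j => (1 / 2 : ℝ) ^ ((M j).erase v).card) (av v f) (df v f) ?_ ?_
  · refine hF.trans ?_
    have hterm : ∀ j ∈ J.filter (fun j => v ∈ M j),
        LU ((M j).erase v) (av v f) * Real.sqrt ((1 / 2 : ℝ) ^ ((M j).erase v).card *
          (1 / 2 : ℝ) ^ ((M j).erase v).card) ≤
          Real.exp (10 * k ^ 2) * (1 / 2 : ℝ) ^ (w - 1) := by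
      intro j hj
      rw [Finset.mem_filter] at hj
      rw [Real.sqrt_mul_self (by positivity)]
      have h6 : w - 1 ≤ ((M j).erase v).card :=
        (Nat.sub_le_sub_right (hM j hj.1) 1).trans Finset.pred_card_le_card_erase
      have h7 := costA_num (K := k ^ 2) (w := w - 1) (u := ((M j).erase v).card) (by omega) hw1 h6
      push_cast at h7
      refine le_trans (mul_le_mul_of_nonneg_right (hav _) (by positivity)) ?_
      exact h7
    refine (Finset.sum_le_sum hterm).trans ?_
    rw [Finset.sum_const, nsmul_eq_mul, mul_assoc]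
    refine mul_le_mul_of_nonneg_right ?_ (by positivity)
    exact_mod_cast hRd v
  · intro A hA
    by_contra hcon
    push Not at hcon
    apply hA
    unfold df
    rw [hf, hf]
    have h6 : ∏ j ∈ J, (1 - 2 * tm (M j) (a j) (A.erase v)) =
        ∏ j ∈ J, (1 - 2 * tm (M j) (a j) (insert v A)) := by
      refine Finset.prod_congr rfl fun j hj => ?_
      rw [(h4 n (M j) (a j) A v (ha j hj)).1, (h4 n (M j) (a j) A v (ha j hj)).2]
      by_cases hv : v ∈ M j
      · have h7 : A ∩ (M j).erase v ≠ (a j).erase v :=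
          hcon j (Finset.mem_filter.2 ⟨hj, hv⟩)
        by_cases hva : v ∈ a j
        · rw [if_pos hva, if_neg (fun h => h.2 hva)]
          unfold tm
          rw [if_neg h7]
        · rw [if_neg hva, if_pos ⟨hv, hva⟩]
          unfold tm
          rw [Finset.erase_eq_of_notMem hva] at h7
          rw [if_neg h7]
      · have hva : v ∉ a j := fun h => hv (ha j hj h)
        rw [if_neg hva, if_neg (fun h => hv h.1), Finset.erase_eq_of_notMem hva]
    rw [h6, sub_self, zero_div]
  · intro j hj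
    refine le_trans (costA_mn (g := fun A => tm ((M j).erase v) ((a j).erase v) A) fun A => ?_)
      (costA_tm h5 _ _)
    have h6 : 0 ≤ tm ((M j).erase v) ((a j).erase v) A := by
      unfold tm
      split_ifs
      · exact zero_le_one
      · exact le_rfl
    calc tm ((M j).erase v) ((a j).erase v) A * df v f A ^ 2
        ≤ tm ((M j).erase v) ((a j).erase v) A * 1 := mul_le_mul_of_nonneg_left (hdf A) h6
      _ = _ := mul_one _

end Pool.Agent.MP3145b1.F
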