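import Pool.Agent.Lib.MP_3145b1_co.F.Spec

/-!
# Descent for the entropy-influence inequality
-/

set_option autoImplicit false

namespace Pool.Agent.MP3145b1.F

open Finset

private theorem desc_const {n : ℕ} (f : Finset (Fin n) → ℝ) (c : ℝ) (hc : c = 1 ∨ c = -1)
    (hf : ∀ A, f A = c) : He f = 0 := by
  have hc2 : c ^ 2 = 1 := by rcases hc with rfl | rfl <;> norm_num
  have h2 : (1 / 2 : ℝ) ^ n * 2 ^ n = 1 := by
    rw [← mul_pow]
    norm_num
  have h0 : fc f ∅ = c := by
    unfold fc
    simp only [hf, Finset.empty_inter, Finset.card_empty, pow_zero, mul_one, Finset.sum_const,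
      Finset.card_univ, Fintype.card_finset, Fintype.card_fin, nsmul_eq_mul]
    push_cast
    rw [← mul_assoc, h2, one_mul]
  have h1 : ∑ S : Finset (Fin n), fc f S ^ 2 = 1 := by
    rw [par n f]
    simp only [hf, hc2, Finset.sum_const, Finset.card_univ, Fintype.card_finset, Fintype.card_fin,
      nsmul_eq_mul, mul_one]
    push_cast
    exact h2
  have h3 : ∑ S ∈ (univ : Finset (Finset (Fin n))).erase ∅, fc f S ^ 2 = 0 := by
    have := Finset.add_sum_erase univ (fun S => fc f S ^ 2) (Finset.mem_univ (∅ : Finset (Fin n)))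
    simp only [h0, hc2] at this
    linarith
  have h4 : ∀ S : Finset (Fin n), S ≠ ∅ → fc f S ^ 2 = 0 := by
    intro S hS
    exact (Finset.sum_eq_zero_iff_of_nonneg (fun T _ => sq_nonneg (fc f T))).1 h3 S
      (Finset.mem_erase.2 ⟨hS, Finset.mem_univ _⟩)
  unfold He
  refine Finset.sum_eq_zero fun S _ => ?_
  by_cases hS : S = ∅
  · rw [hS, h0, hc2, Real.negMulLog_one]
  · rw [h4 S hS, Real.negMulLog_zero]

theorem desc (h1 : S_Step) : S_Desc := by
  intro n C P hC hP W
  induction W using Finset.strongInduction with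
  | H W ih =>
    intro f hPf
    have ht : 0 ≤ tinf f := Finset.sum_nonneg fun S _ => by positivity
    rcases hP W f hPf with ⟨c, hc, hf⟩ | ⟨v, hv, h0, h1', hCv⟩
    · rw [desc_const f c hc hf]
      positivity
    · have e0 := ih (W.erase v) (Finset.erase_ssubset hv) (r0 v f) h0
      have e1 := ih (W.erase v) (Finset.erase_ssubset hv) (r1 v f) h1'
      obtain ⟨s1, s2⟩ := h1 n v f
      rw [s2]
      nlinarith

end Pool.Agent.MP3145b1.F
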