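import Pool.Agent.Lib.MP_3145b1_co.F.Spec

/-!
# MP_3145b1_co, F: upper bound for the cost (negated DNFs)
-/

set_option autoImplicit false

namespace Pool.Agent.MP3145b1.F

open Finset

variable {n : ℕ}

private theorem cb_tm01 (M a A : Finset (Fin n)) : tm M a A = 0 ∨ tm M a A = 1 := by
  unfold tm
  split_ifs
  · exact Or.inr rfl
  · exact Or.inl rfl

private theorem cb_zf01 (J : Finset ℕ) (M a : ℕ → Finset (Fin n)) (A : Finset (Fin n)) :
    zf J M a A = 0 ∨ zf J M a A = 1 := by
  classical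
  unfold zf
  induction J using Finset.induction_on with
  | empty => right; simp
  | insert j J hj ih =>
    rw [prod_insert hj]
    rcases cb_tm01 (M j) (a j) A with h | h
    · rw [h, sub_zero, one_mul]
      exact ih
    · rw [h, sub_self, zero_mul]
      exact Or.inl rfl

private theorem cb_mono {f g : Finset (Fin n) → ℝ} (h : ∀ A, f A ≤ g A) : mn f ≤ mn g := by
  unfold mn
  exact mul_le_mul_of_nonneg_left (sum_le_sum fun A _ => h A) (by positivity)

private theorem cb_nonneg {f : Finset (Fin n) → ℝ} (h : ∀ A, 0 ≤ f A) : 0 ≤ mn f := by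
  unfold mn
  exact mul_nonneg (by positivity) (sum_nonneg fun A _ => h A)

private theorem cb_add (f g : Finset (Fin n) → ℝ) : mn (fun A => f A + g A) = mn f + mn g := by
  unfold mn
  rw [sum_add_distrib, mul_add]

private theorem cb_fc_one (S : Finset (Fin n)) :
    fc (fun _ => (1 : ℝ)) S = if S = ∅ then 1 else 0 := by
  have h1 : ∑ A : Finset (Fin n), (1 : ℝ) * (-1 : ℝ) ^ (S ∩ A).card =
      ∏ i : Fin n, (1 + (if i ∈ S then (-1 : ℝ) else 1)) := by
    rw [Finset.prod_one_add, Finset.powerset_univ]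
    refine sum_congr rfl fun A _ => ?_
    rw [one_mul, Finset.prod_ite_mem, Finset.prod_const, inter_comm]
  unfold fc
  rw [h1]
  by_cases hS : S = ∅
  · rw [if_pos hS]
    subst hS
    have h2 : ∀ i ∈ (univ : Finset (Fin n)),
        (1 + (if i ∈ (∅ : Finset (Fin n)) then (-1 : ℝ) else 1)) = 2 := by
      intro i _
      rw [if_neg (notMem_empty i)]
      norm_num
    rw [prod_congr rfl h2, prod_const, card_univ, Fintype.card_fin, ← mul_pow]
    norm_num
  · rw [if_neg hS]
    obtain ⟨i, hi⟩ := nonempty_iff_ne_empty.2 hS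
    rw [prod_eq_zero (mem_univ i) (by rw [if_pos hi]; norm_num), mul_zero]

private theorem cb_fc_sub (f g : Finset (Fin n) → ℝ) (S : Finset (Fin n)) :
    fc (fun A => f A - g A) S = fc f S - fc g S := by
  unfold fc
  rw [← mul_sub, ← sum_sub_distrib]
  congr 1
  refine sum_congr rfl fun A _ => ?_
  ring

private theorem cb_fc_empty (f : Finset (Fin n) → ℝ) : fc f ∅ = mn f := by
  unfold fc mn
  simp

private theorem cb_abs_mn (f : Finset (Fin n) → ℝ) : |mn f| ≤ mn fun A => |f A| := by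
  unfold mn
  rw [abs_mul, abs_of_nonneg (by positivity : (0 : ℝ) ≤ (1 / 2) ^ n)]
  exact mul_le_mul_of_nonneg_left (abs_sum_le_sum_abs _ _) (by positivity)

private theorem cb_mn_one : mn (fun _ : Finset (Fin n) => (1 : ℝ)) = 1 := by
  rw [← cb_fc_empty, cb_fc_one, if_pos rfl]

private theorem cb_pair (F : Finset (Fin n) → ℝ) (v : Fin n) :
    mn (fun A => F (A.erase v)) + mn (fun A => F (insert v A)) = 2 * mn F := by
  classical
  have hinv : ∀ A : Finset (Fin n), symmDiff (symmDiff A {v}) {v} = A := fun A =>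
    symmDiff_symmDiff_cancel_right {v} A
  have h1 : ∀ A : Finset (Fin n), F (A.erase v) + F (insert v A) = F A + F (symmDiff A {v}) := by
    intro A
    by_cases hv : v ∈ A
    · have e1 : insert v A = A := insert_eq_self.2 hv
      have e2 : symmDiff A {v} = A.erase v := by
        ext i
        simp only [mem_symmDiff, mem_singleton, mem_erase]
        by_cases hi : i = v
        · subst hi
          simp [hv]
        · simp [hi]
      rw [e1, e2, add_comm]
    · have e1 : A.erase v = A := erase_eq_of_notMem hv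
      have e2 : symmDiff A {v} = insert v A := by
        ext i
        simp only [mem_symmDiff, mem_singleton, mem_insert]
        by_cases hi : i = v
        · subst hi
          simp [hv]
        · simp [hi]
      rw [e1, e2]
  have h2 : ∑ A : Finset (Fin n), F (symmDiff A {v}) = ∑ A : Finset (Fin n), F A := by
    refine sum_nbij' (fun A => symmDiff A {v}) (fun A => symmDiff A {v}) ?_ ?_ ?_ ?_ ?_
    · intro A _
      exact mem_univ _
    · intro A _
      exact mem_univ _
    · intro A _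
      exact hinv A
    · intro A _
      exact hinv A
    · intro A _
      rfl
  unfold mn
  rw [← mul_add, ← sum_add_distrib, sum_congr rfl fun A _ => h1 A, sum_add_distrib, h2]
  ring

/-- Numbers: `(3/5)^m ≤ 1 / (1 + 2 m / 3)`. -/
private theorem cb_num1 (m : ℕ) : (3 / 5 : ℝ) ^ m * (1 + 2 * m / 3) ≤ 1 := by
  have h1 : (1 : ℝ) + m * (2 / 3) ≤ (1 + 2 / 3) ^ m :=
    one_add_mul_le_pow (by norm_num) m
  have h2 : (3 / 5 : ℝ) ^ m * (1 + 2 / 3) ^ m = 1 := by
    rw [← mul_pow]
    norm_num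
  have h3 : (1 : ℝ) + 2 * m / 3 ≤ (1 + 2 / 3) ^ m := by
    have : (2 : ℝ) * m / 3 = m * (2 / 3) := by ring
    rw [this]
    exact h1
  calc (3 / 5 : ℝ) ^ m * (1 + 2 * m / 3) ≤ (3 / 5 : ℝ) ^ m * (1 + 2 / 3) ^ m :=
        mul_le_mul_of_nonneg_left h3 (by positivity)
    _ = 1 := h2

private theorem cb_num2 (k m : ℕ) (hk : 1 ≤ k) (hm : 21 * k ^ 2 ≤ m) :
    6 * k * (3 / 5 : ℝ) ^ m ≤ 1 := by
  have h1 := cb_num1 m
  have h2 : (21 : ℝ) * (k : ℝ) ^ 2 ≤ m := by exact_mod_cast hm
  have hk' : (1 : ℝ) ≤ k := by exact_mod_cast hk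
  have h3 : (6 : ℝ) * k ≤ 1 + 2 * m / 3 := by nlinarith
  have h4 : (0 : ℝ) ≤ (3 / 5) ^ m := by positivity
  calc 6 * k * (3 / 5 : ℝ) ^ m ≤ (1 + 2 * m / 3) * (3 / 5 : ℝ) ^ m :=
        mul_le_mul_of_nonneg_right h3 h4
    _ ≤ 1 := by rw [mul_comm]; exact h1

private theorem cb_num3 (k m u : ℕ) (hk : 1 ≤ k) (hm : 21 * k ^ 2 ≤ m) (hu : m ≤ u) :
    (1 / 2 : ℝ) ^ u * Real.exp (14 * k ^ 2 * u / m) ≤ (1 / 2 : ℝ) ^ m * Real.exp (14 * k ^ 2) := by
  have h2 : (21 : ℝ) * (k : ℝ) ^ 2 ≤ m := by exact_mod_cast hm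
  have hk' : (1 : ℝ) ≤ k := by exact_mod_cast hk
  have hm0 : (0 : ℝ) < m := by nlinarith
  have h3 : (14 : ℝ) * (k : ℝ) ^ 2 / m ≤ Real.log 2 := by
    rw [div_le_iff₀ hm0]
    have := Real.log_two_gt_d9
    nlinarith
  have h4 : (1 / 2 : ℝ) * Real.exp (14 * k ^ 2 / m) ≤ 1 := by
    have : Real.exp (14 * (k : ℝ) ^ 2 / m) ≤ 2 := by
      calc Real.exp (14 * (k : ℝ) ^ 2 / m) ≤ Real.exp (Real.log 2) := Real.exp_le_exp.2 h3
        _ = 2 := Real.exp_log (by norm_num)
    linarith
  have h5 : ∀ t : ℕ, (1 / 2 : ℝ) ^ t * Real.exp (14 * k ^ 2 * t / m) =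
      ((1 / 2 : ℝ) * Real.exp (14 * k ^ 2 / m)) ^ t := by
    intro t
    rw [mul_pow, ← Real.exp_nat_mul]
    congr 2
    ring
  have h6 : (14 : ℝ) * (k : ℝ) ^ 2 = 14 * k ^ 2 * m / m := by
    field_simp
  calc (1 / 2 : ℝ) ^ u * Real.exp (14 * k ^ 2 * u / m)
      = ((1 / 2 : ℝ) * Real.exp (14 * k ^ 2 / m)) ^ u := h5 u
    _ ≤ ((1 / 2 : ℝ) * Real.exp (14 * k ^ 2 / m)) ^ m :=
        pow_le_pow_of_le_one (by positivity) h4 hu
    _ = (1 / 2 : ℝ) ^ m * Real.exp (14 * k ^ 2 * m / m) := (h5 m).symm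
    _ = (1 / 2 : ℝ) ^ m * Real.exp (14 * k ^ 2) := by rw [← h6]

/-- The local bound. -/
private theorem cb_loc (h3 : S_LP) (h6 : S_Un) (k m : ℕ) (hm1 : 1 ≤ m)
    (hk : 6 * k * (3 / 5 : ℝ) ^ m ≤ 1) (hk1 : 1 ≤ k) (J : Finset ℕ) (M a : ℕ → Finset (Fin n))
    (hR : Rd k J M) (hw : ∀ j ∈ J, m ≤ (M j).card) (U c : Finset (Fin n)) :
    mn (fun A => tm U c A * zf J M a A) ≤
      (1 / 2 : ℝ) ^ U.card * (Real.exp (4 * k * U.card / m) * mn (zf J M a)) := by
  obtain ⟨-, hG, hW⟩ := h3 n k m J M a hk hR hw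
  have e1 := hW U c
  set G := J.filter fun j => Disjoint (M j) U with hGd
  have e2 := hG G (filter_subset _ _)
  set y : ℝ := (3 / 5 : ℝ) ^ m with hy
  have hy0 : 0 ≤ y := by positivity
  have hk' : (1 : ℝ) ≤ k := by exact_mod_cast hk1
  have hm' : (1 : ℝ) ≤ m := by exact_mod_cast hm1
  have hy1 : y ≤ 1 / 2 := by nlinarith
  have hym : y * m ≤ 3 / 2 := by
    have := cb_num1 m
    rw [← hy] at this
    nlinarith
  -- the number of the terms which meet `U`
  have hc : ((J \ G).card : ℝ) ≤ k * U.card := by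
    have f1 := (h6 n k J (J \ G) M U hR sdiff_subset).2
    have f2 : (J \ G).card ≤ ∑ j ∈ J \ G, ((M j) ∩ U).card := by
      rw [card_eq_sum_ones]
      refine sum_le_sum fun j hj => ?_
      rw [mem_sdiff, hGd, mem_filter, not_and] at hj
      have f3 := hj.2 hj.1
      rw [disjoint_iff_inter_eq_empty, ← Ne, ← nonempty_iff_ne_empty] at f3
      exact card_pos.2 f3
    exact_mod_cast f2.trans f1
  have h1y : Real.exp (-(2 * y)) ≤ 1 - y := by
    have g1 : Real.exp (2 * y) * (1 - y) ≥ 1 := by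
      have g2 := Real.add_one_le_exp (2 * y)
      nlinarith
    rw [Real.exp_neg]
    have g3 := Real.exp_pos (2 * y)
    rw [inv_le_iff_one_le_mul₀ g3]
    linarith
  have h2y : Real.exp (-(4 * k * U.card / m)) ≤ (1 - y) ^ (J \ G).card := by
    calc Real.exp (-(4 * k * U.card / m)) ≤ Real.exp ((J \ G).card * (-(2 * y))) := by
          apply Real.exp_le_exp.2
          have g4 : 2 * y * (J \ G).card ≤ 4 * k * U.card / m := by
            rw [le_div_iff₀ (by linarith)]
            have g5 : (0 : ℝ) ≤ (J \ G).card := Nat.cast_nonneg _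
            have g6 : (0 : ℝ) ≤ k * (U.card : ℝ) := by positivity
            calc 2 * y * (J \ G).card * m = 2 * (y * m) * (J \ G).card := by ring
              _ ≤ 2 * (3 / 2) * (J \ G).card := by
                  apply mul_le_mul_of_nonneg_right _ g5
                  linarith
              _ ≤ 2 * (3 / 2) * (k * U.card) := by linarith
              _ ≤ 4 * k * U.card := by linarith
          linarith
      _ = Real.exp (-(2 * y)) ^ (J \ G).card := by rw [← Real.exp_nat_mul]
      _ ≤ (1 - y) ^ (J \ G).card := pow_le_pow_left₀ (Real.exp_pos _).le h1y _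
  have hG0 : 0 ≤ mn (zf G M a) := cb_nonneg fun A => by
    rcases cb_zf01 G M a A with h | h <;> rw [h]
    norm_num
  have e3 : mn (zf G M a) ≤ Real.exp (4 * k * U.card / m) * mn (zf J M a) := by
    have g7 : Real.exp (-(4 * k * U.card / m)) * mn (zf G M a) ≤ mn (zf J M a) :=
      (mul_le_mul_of_nonneg_right h2y hG0).trans e2
    calc mn (zf G M a) = Real.exp (4 * k * U.card / m) *
          (Real.exp (-(4 * k * U.card / m)) * mn (zf G M a)) := by
          rw [← mul_assoc, ← Real.exp_add]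
          simp
      _ ≤ Real.exp (4 * k * U.card / m) * mn (zf J M a) :=
          mul_le_mul_of_nonneg_left g7 (Real.exp_pos _).le
  exact e1.trans (mul_le_mul_of_nonneg_left e3 (by positivity))

theorem costB_ex (h1 : S_First) (h2 : S_NormB) (h3 : S_LP) (h4 : S_ResB) (h5 : S_LSum)
    (h6 : S_Un) (k : ℕ) (hk1 : 1 ≤ k) : ∀ (n w : ℕ) (J : Finset ℕ)
  (M a : ℕ → Finset (Fin n)) (v : Fin n), 21 * k ^ 2 + 1 ≤ w → Rd k J M →
  (∀ j ∈ J, a j ⊆ M j ∧ w ≤ (M j).card) →
    ∑ S : Finset (Fin n), |fc (av v (fun A => 2 * zf J M a A - 1)) S *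
        fc (df v (fun A => 2 * zf J M a A - 1)) S| ≤
      mn (fun A => df v (fun A => 2 * zf J M a A - 1) A ^ 2) +
        8 * k * Real.exp (14 * k ^ 2) * (1 / 2 : ℝ) ^ w * mn (zf J M a) := by
  classical
  have hk' : (1 : ℝ) ≤ k := by exact_mod_cast hk1
  intro n w J M a v hw hR hJ
  obtain ⟨m, rfl⟩ : ∃ m, w = m + 1 := ⟨w - 1, by omega⟩
  have hm : 21 * k ^ 2 ≤ m := by omega
  have hm1 : 1 ≤ m := by nlinarith
  have hm0 : (0 : ℝ) < m := by exact_mod_cast hm1
  have hk6 := cb_num2 k m hk1 hm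
  obtain ⟨⟨J0, M0, a0, hR0, hJ0, hZ0⟩, ⟨J1, M1, a1, hR1, hJ1, hZ1⟩⟩ :=
    h4 n k (m + 1) univ J M a v hR fun j hj => ⟨(hJ j hj).1, subset_univ _, (hJ j hj).2⟩
  simp only [Nat.add_sub_cancel] at hJ0 hJ1
  set Z0 : Finset (Fin n) → ℝ := zf J0 M0 a0 with hZ0d
  set Z1 : Finset (Fin n) → ℝ := zf J1 M1 a1 with hZ1d
  set f : Finset (Fin n) → ℝ := fun A => 2 * zf J M a A - 1 with hf
  set p : ℝ := mn (zf J M a) with hp
  set b : Finset (Fin n) → ℝ := df v f with hb
  set g : Finset (Fin n) → ℝ := fun A => Z0 A + Z1 A with hg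
  have h01 : ∀ A, Z0 A = 0 ∨ Z0 A = 1 := fun A => cb_zf01 J0 M0 a0 A
  have h11 : ∀ A, Z1 A = 0 ∨ Z1 A = 1 := fun A => cb_zf01 J1 M1 a1 A
  have hbA : ∀ A, b A = Z0 A - Z1 A := by
    intro A
    show (f (A.erase v) - f (insert v A)) / 2 = _
    simp only [hf, hZ0, hZ1]
    ring
  have hav : av v f = fun A => g A - 1 := by
    funext A
    show (f (A.erase v) + f (insert v A)) / 2 = _
    simp only [hf, hZ0, hZ1, hg]
    ring
  have hZ0n : 0 ≤ mn Z0 := cb_nonneg fun A => by
    rcases h01 A with h | h <;> rw [h]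
    norm_num
  have hZ1n : 0 ≤ mn Z1 := cb_nonneg fun A => by
    rcases h11 A with h | h <;> rw [h]
    norm_num
  have hpair : mn Z0 + mn Z1 = 2 * p := by
    have := cb_pair (zf J M a) v
    simp only [hZ0, hZ1] at this
    exact this
  have hp0 : 0 ≤ p := by linarith
  have hb2 : ∀ A, b A ^ 2 = |b A| := by
    intro A
    rw [hbA]
    rcases h01 A with h | h <;> rcases h11 A with h' | h' <;> rw [h, h'] <;> norm_num
  have hb2' : ∀ A, b A ^ 2 ≤ Z0 A + Z1 A := by
    intro A
    rw [hbA]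
    rcases h01 A with h | h <;> rcases h11 A with h' | h' <;> rw [h, h'] <;> norm_num
  -- the sum with `g` instead of `av v f`
  have hS : ∀ S : Finset (Fin n), |fc (av v f) S * fc b S| ≤
      (if S = ∅ then mn (fun A => b A ^ 2) else 0) + |fc g S * fc b S| := by
    intro S
    by_cases hS : S = ∅
    · subst hS
      rw [if_pos rfl]
      have g1 : |fc (av v f) ∅| ≤ 1 := by
        rw [cb_fc_empty]
        refine (cb_abs_mn _).trans ?_
        rw [← cb_mn_one (n := n)]
        refine cb_mono fun A => ?_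
        rw [hav]
        simp only [hg]
        rcases h01 A with h | h <;> rcases h11 A with h' | h' <;> rw [h, h'] <;> norm_num
      have g2 : |fc b ∅| ≤ mn (fun A => b A ^ 2) := by
        rw [cb_fc_empty]
        refine (cb_abs_mn _).trans (cb_mono fun A => ?_)
        rw [hb2]
      rw [abs_mul]
      have g3 : |fc (av v f) ∅| * |fc b ∅| ≤ 1 * mn (fun A => b A ^ 2) :=
        mul_le_mul g1 g2 (abs_nonneg _) zero_le_one
      have g4 : 0 ≤ |fc g ∅ * fc b ∅| := abs_nonneg _
      linarith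
    · rw [if_neg hS, zero_add, hav, cb_fc_sub g (fun _ => 1) S, cb_fc_one, if_neg hS, sub_zero]
  have hsum : ∑ S : Finset (Fin n), |fc (av v f) S * fc b S| ≤
      mn (fun A => b A ^ 2) + ∑ S : Finset (Fin n), |fc g S * fc b S| := by
    refine (sum_le_sum fun S _ => hS S).trans ?_
    rw [sum_add_distrib, sum_ite_eq' univ ∅ fun _ => mn (fun A => b A ^ 2), if_pos (mem_univ _)]
  refine hsum.trans ?_
  have hmain : ∑ S : Finset (Fin n), |fc g S * fc b S| ≤
      8 * k * Real.exp (14 * k ^ 2) * (1 / 2 : ℝ) ^ (m + 1) * p := by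
    set J' := J.filter fun j => v ∈ M j with hJ'
    set B : ℕ → ℝ := fun j => (1 / 2 : ℝ) ^ ((M j).erase v).card *
      (Real.exp (4 * k * ((M j).erase v).card / m) * (2 * p)) with hB
    have f1 := h1 n J' (fun j => (M j).erase v) (fun j => (a j).erase v) B g b (by
      intro A hA
      have q1 : zf J M a (A.erase v) ≠ zf J M a (insert v A) := by
        intro h
        apply hA
        rw [hbA, ← hZ0, ← hZ1, h, sub_self]
      have q2 : ∃ j ∈ J, tm (M j) (a j) (A.erase v) ≠ tm (M j) (a j) (insert v A) := by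
        by_contra hno
        push Not at hno
        apply q1
        unfold zf
        refine prod_congr rfl fun j hj => ?_
        rw [hno j hj]
      obtain ⟨j, hj, hne⟩ := q2
      have hv : v ∈ M j := by
        by_contra hv
        apply hne
        have q3 : A.erase v ∩ M j = insert v A ∩ M j := by
          ext i
          simp only [mem_inter, mem_erase, mem_insert]
          constructor
          · rintro ⟨⟨_, q⟩, q'⟩
            exact ⟨Or.inr q, q'⟩
          · rintro ⟨q | q, q'⟩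
            · subst q
              exact absurd q' hv
            · exact ⟨⟨fun h => hv (h ▸ q'), q⟩, q'⟩
        unfold tm
        rw [q3]
      refine ⟨j, mem_filter.2 ⟨hj, hv⟩, ?_⟩
      have q4 : A.erase v ∩ M j = a j ∨ insert v A ∩ M j = a j := by
        by_contra hno
        push Not at hno
        apply hne
        unfold tm
        rw [if_neg hno.1, if_neg hno.2]
      rcases q4 with q | q
      · rw [← q]
        ext i
        simp only [mem_inter, mem_erase]
        tauto
      · rw [← q]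
        ext i
        simp only [mem_inter, mem_erase, mem_insert]
        tauto) (by
      intro j hj
      have t0 := cb_loc h3 h6 k m hm1 hk6 hk1 J0 M0 a0 hR0 (fun i hi => (hJ0 i hi).2.2)
        ((M j).erase v) ((a j).erase v)
      have t1 := cb_loc h3 h6 k m hm1 hk6 hk1 J1 M1 a1 hR1 (fun i hi => (hJ1 i hi).2.2)
        ((M j).erase v) ((a j).erase v)
      have t2 : mn (fun A => tm ((M j).erase v) ((a j).erase v) A * b A ^ 2) ≤
          mn (fun A => tm ((M j).erase v) ((a j).erase v) A * Z0 A +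
            tm ((M j).erase v) ((a j).erase v) A * Z1 A) := by
        refine cb_mono fun A => ?_
        rw [← mul_add]
        refine mul_le_mul_of_nonneg_left (hb2' A) ?_
        rcases cb_tm01 ((M j).erase v) ((a j).erase v) A with h | h <;> rw [h]
        norm_num
      rw [cb_add] at t2
      refine t2.trans ?_
      simp only [hB]
      rw [← hpair]
      calc _ ≤ _ := add_le_add t0 t1
        _ = _ := by ring)
    refine f1.trans ?_
    have hcard : (J'.card : ℝ) ≤ k := by exact_mod_cast hR v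
    have hterm : ∀ j ∈ J', LU ((M j).erase v) g *
        Real.sqrt ((1 / 2 : ℝ) ^ ((M j).erase v).card * B j) ≤
        8 * Real.exp (14 * k ^ 2) * (1 / 2 : ℝ) ^ (m + 1) * p := by
      intro j hj
      obtain ⟨hjJ, hvj⟩ := mem_filter.1 hj
      obtain ⟨u, hu⟩ : ∃ u, u = ((M j).erase v).card := ⟨_, rfl⟩
      have hum : m ≤ u := by
        rw [hu, card_erase_of_mem hvj]
        have := (hJ j hjJ).2
        omega
      have hL : LU ((M j).erase v) g ≤ 2 * (Real.sqrt (2 * p) * Real.exp (12 * k ^ 2 * u / m)) := by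
        have l1 := h5 n Bool univ ((M j).erase v) (fun _ => 1) (fun i => if i then Z0 else Z1)
        have l2 : (fun A => ∑ i : Bool, (1 : ℝ) * (if i then Z0 else Z1) A) = g := by
          funext A
          rw [Fintype.sum_bool]
          simp [hg]
        rw [l2, Fintype.sum_bool] at l1
        simp only [abs_one, one_mul, if_true, Bool.false_eq_true, if_false] at l1
        have l3 := h2 n k m J0 M0 a0 ((M j).erase v) hk1 hm1 hk6 hR0
          (fun i hi => ⟨(hJ0 i hi).1, (hJ0 i hi).2.2⟩)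
        have l4 := h2 n k m J1 M1 a1 ((M j).erase v) hk1 hm1 hk6 hR1
          (fun i hi => ⟨(hJ1 i hi).1, (hJ1 i hi).2.2⟩)
        rw [← hu] at l3 l4
        have l5 : Real.sqrt (mn Z0) ≤ Real.sqrt (2 * p) := Real.sqrt_le_sqrt (by linarith)
        have l6 : Real.sqrt (mn Z1) ≤ Real.sqrt (2 * p) := Real.sqrt_le_sqrt (by linarith)
        have l7 := Real.exp_pos (12 * (k : ℝ) ^ 2 * u / m)
        have l8 := mul_le_mul_of_nonneg_right l5 l7.le
        have l9 := mul_le_mul_of_nonneg_right l6 l7.le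
        linarith
      have hSq : Real.sqrt ((1 / 2 : ℝ) ^ ((M j).erase v).card * B j) =
          (1 / 2 : ℝ) ^ u * (Real.exp (2 * k * u / m) * Real.sqrt (2 * p)) := by
        simp only [hB]
        rw [← hu]
        have s1 : (1 / 2 : ℝ) ^ u * ((1 / 2 : ℝ) ^ u * (Real.exp (4 * k * u / m) * (2 * p))) =
            ((1 / 2 : ℝ) ^ u * Real.exp (2 * k * u / m)) ^ 2 * (2 * p) := by
          have s2 : Real.exp (4 * k * u / m) = Real.exp (2 * k * u / m) ^ 2 := by
            rw [← Real.exp_nat_mul]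
            congr 1
            push_cast
            ring
          rw [s2]
          ring
        rw [s1, Real.sqrt_mul (by positivity), Real.sqrt_sq (by positivity)]
        ring
      rw [hSq]
      have s3 : (0 : ℝ) ≤ (1 / 2 : ℝ) ^ u * (Real.exp (2 * k * u / m) * Real.sqrt (2 * p)) := by
        positivity
      refine (mul_le_mul_of_nonneg_right hL s3).trans ?_
      have s4 : Real.sqrt (2 * p) * Real.sqrt (2 * p) = 2 * p :=
        Real.mul_self_sqrt (by linarith)
      have s5 : Real.exp (12 * k ^ 2 * u / m) * Real.exp (2 * k * u / m) ≤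
          Real.exp (14 * k ^ 2 * u / m) := by
        rw [← Real.exp_add]
        apply Real.exp_le_exp.2
        rw [← add_div]
        apply div_le_div_of_nonneg_right _ hm0.le
        have s6 : (0 : ℝ) ≤ u := Nat.cast_nonneg _
        have s7 : (k : ℝ) ≤ k ^ 2 := by nlinarith
        nlinarith [mul_le_mul_of_nonneg_right s7 s6]
      have s8 := cb_num3 k m u hk1 hm hum
      calc 2 * (Real.sqrt (2 * p) * Real.exp (12 * k ^ 2 * u / m)) *
            ((1 / 2 : ℝ) ^ u * (Real.exp (2 * k * u / m) * Real.sqrt (2 * p)))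
          = 2 * (Real.sqrt (2 * p) * Real.sqrt (2 * p)) * ((1 / 2 : ℝ) ^ u *
            (Real.exp (12 * k ^ 2 * u / m) * Real.exp (2 * k * u / m))) := by ring
        _ = 4 * p * ((1 / 2 : ℝ) ^ u *
            (Real.exp (12 * k ^ 2 * u / m) * Real.exp (2 * k * u / m))) := by rw [s4]; ring
        _ ≤ 4 * p * ((1 / 2 : ℝ) ^ u * Real.exp (14 * k ^ 2 * u / m)) := by
            apply mul_le_mul_of_nonneg_left _ (by positivity)
            exact mul_le_mul_of_nonneg_left s5 (by positivity)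
        _ ≤ 4 * p * ((1 / 2 : ℝ) ^ m * Real.exp (14 * k ^ 2)) :=
            mul_le_mul_of_nonneg_left s8 (by positivity)
        _ = 8 * Real.exp (14 * k ^ 2) * (1 / 2 : ℝ) ^ (m + 1) * p := by ring
    refine (sum_le_sum hterm).trans ?_
    rw [sum_const, nsmul_eq_mul]
    calc (J'.card : ℝ) * (8 * Real.exp (14 * k ^ 2) * (1 / 2 : ℝ) ^ (m + 1) * p)
        ≤ k * (8 * Real.exp (14 * k ^ 2) * (1 / 2 : ℝ) ^ (m + 1) * p) :=
          mul_le_mul_of_nonneg_right hcard (by positivity)
      _ = 8 * k * Real.exp (14 * k ^ 2) * (1 / 2 : ℝ) ^ (m + 1) * p := by ring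
  linarith

theorem costB (h1 : S_First) (h2 : S_NormB) (h3 : S_LP) (h4 : S_ResB) (h5 : S_LSum)
    (h6 : S_Un) : S_CostB := by
  intro k₀
  refine ⟨21 * (k₀ + 1) ^ 2 + 1, 8 * (k₀ + 1 : ℕ) * Real.exp (14 * (k₀ + 1 : ℕ) ^ 2),
    by positivity, ?_⟩
  intro n w J M a v hw hR hJ
  exact costB_ex h1 h2 h3 h4 h5 h6 (k₀ + 1) (by omega) n w J M a v hw
    (fun i => (hR i).trans (by omega)) hJ

end Pool.Agent.MP3145b1.F
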