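import Pool.Agent.Lib.MP_3145b1_co.F.Spec

/-!
# MP_3145b1_co: lower bound for the influence, all terms wide (`infB`)
-/

set_option autoImplicit false

namespace Pool.Agent.MP3145b1.F

open Finset

private theorem infB_zf {n : ℕ} (J : Finset ℕ) (M a : ℕ → Finset (Fin n)) (A : Finset (Fin n)) :
    zf J M a A = if ∀ j ∈ J, A ∩ M j ≠ a j then 1 else 0 := by
  unfold zf tm
  split_ifs with h
  · refine Finset.prod_eq_one fun j hj => ?_
    rw [if_neg (h j hj), sub_zero]
  · push Not at h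
    obtain ⟨j, hj, h1⟩ := h
    refine Finset.prod_eq_zero hj ?_
    rw [if_pos h1, sub_self]

private theorem infB_zf_one {n : ℕ} {J : Finset ℕ} {M a : ℕ → Finset (Fin n)}
    {A : Finset (Fin n)} : zf J M a A = 1 ↔ ∀ j ∈ J, A ∩ M j ≠ a j := by
  rw [infB_zf]
  split_ifs with h
  · exact ⟨fun _ => h, fun _ => rfl⟩
  · exact ⟨fun h1 => absurd h1 zero_ne_one, fun h1 => absurd h1 h⟩

private theorem infB_zf_zero {n : ℕ} {J : Finset ℕ} {M a : ℕ → Finset (Fin n)}
    {A : Finset (Fin n)} {j : ℕ} (hj : j ∈ J) (h : A ∩ M j = a j) : zf J M a A = 0 := by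
  rw [infB_zf, if_neg]
  intro h1
  exact h1 j hj h

private theorem infB_mono {n : ℕ} {f g : Finset (Fin n) → ℝ} (h : ∀ A, f A ≤ g A) :
    mn f ≤ mn g := by
  unfold mn
  exact mul_le_mul_of_nonneg_left (Finset.sum_le_sum fun A _ => h A) (by positivity)

private theorem infB_nonneg {n : ℕ} {f : Finset (Fin n) → ℝ} (h : ∀ A, 0 ≤ f A) : 0 ≤ mn f := by
  unfold mn
  exact mul_nonneg (by positivity) (Finset.sum_nonneg fun A _ => h A)

private theorem infB_zf_nonneg {n : ℕ} (J : Finset ℕ) (M a : ℕ → Finset (Fin n))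
    (A : Finset (Fin n)) : 0 ≤ zf J M a A := by
  rw [infB_zf]
  split_ifs
  · exact zero_le_one
  · exact le_rfl

/-- the threshold -/
private theorem infB_thr (k : ℕ) : ∃ m₀ : ℕ, ∀ m : ℕ, m₀ ≤ m →
    6 * k * (3 / 5 : ℝ) ^ m ≤ 1 ∧ ((k * (2 * m + 6 * k + 1) : ℕ) : ℝ) * (3 / 5 : ℝ) ^ m ≤ 1 / 2 := by
  have h0 : Filter.Tendsto (fun m : ℕ => (3 / 5 : ℝ) ^ m) Filter.atTop (nhds 0) :=
    tendsto_pow_atTop_nhds_zero_of_lt_one (by norm_num) (by norm_num)
  have h1 : Filter.Tendsto (fun m : ℕ => (m : ℝ) * (3 / 5 : ℝ) ^ m) Filter.atTop (nhds 0) :=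
    tendsto_self_mul_const_pow_of_lt_one (by norm_num) (by norm_num)
  have h2 : Filter.Tendsto (fun m : ℕ => 6 * k * (3 / 5 : ℝ) ^ m) Filter.atTop (nhds 0) := by
    simpa using h0.const_mul (6 * k : ℝ)
  have h3 : Filter.Tendsto (fun m : ℕ => ((k * (2 * m + 6 * k + 1) : ℕ) : ℝ) * (3 / 5 : ℝ) ^ m)
      Filter.atTop (nhds 0) := by
    have h4 := (h1.const_mul (2 * k : ℝ)).add (h0.const_mul (k * (6 * k + 1) : ℝ))
    rw [mul_zero, mul_zero, add_zero] at h4
    refine h4.congr fun m => ?_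
    push_cast
    ring
  obtain ⟨m₀, hm₀⟩ := Filter.eventually_atTop.1
    ((h2.eventually_le_const (by norm_num : (0 : ℝ) < 1)).and
      (h3.eventually_le_const (by norm_num : (0 : ℝ) < 1 / 2)))
  exact ⟨m₀, hm₀⟩

private theorem infB_flip {n : ℕ} {J : Finset ℕ} {M a : ℕ → Finset (Fin n)} {j₀ : ℕ} {v : Fin n}
    {z A : Finset (Fin n)} (hj : j₀ ∈ J) (hv : v ∈ M j₀) (haM : a j₀ ⊆ M j₀)
    (hz : z ∩ (M j₀).erase v = (a j₀).erase v) (hne : z ∩ M j₀ ≠ a j₀)
    (hA : A ∩ M j₀ = z ∩ M j₀) (h1 : zf J M a A = 1) :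
    df v (fun A => 2 * zf J M a A - 1) A ^ 2 = 1 := by
  have hz' : ∀ x, x ≠ v → x ∈ M j₀ → (x ∈ z ↔ x ∈ a j₀) := by
    intro x hx hxM
    have := Finset.ext_iff.1 hz x
    simp only [mem_inter, mem_erase] at this
    tauto
  have hA' : ∀ x, x ∈ M j₀ → (x ∈ A ↔ x ∈ z) := by
    intro x hxM
    have := Finset.ext_iff.1 hA x
    simp only [mem_inter] at this
    tauto
  have hvz : v ∈ z ↔ v ∉ a j₀ := by
    constructor
    · intro h2 h3
      refine hne (Finset.ext fun x => ?_)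
      by_cases hx : x = v
      · rw [hx]
        simp only [mem_inter]
        tauto
      · simp only [mem_inter]
        constructor
        · rintro ⟨h4, h5⟩
          exact (hz' x hx h5).1 h4
        · intro h4
          exact ⟨(hz' x hx (haM h4)).2 h4, haM h4⟩
    · intro h3
      by_contra h2
      refine hne (Finset.ext fun x => ?_)
      by_cases hx : x = v
      · rw [hx]
        simp only [mem_inter]
        tauto
      · simp only [mem_inter]
        constructor
        · rintro ⟨h4, h5⟩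
          exact (hz' x hx h5).1 h4
        · intro h4
          exact ⟨(hz' x hx (haM h4)).2 h4, haM h4⟩
  unfold df
  by_cases hvA : v ∈ A
  · have hva : v ∉ a j₀ := hvz.1 ((hA' v hv).1 hvA)
    have h2 : zf J M a (A.erase v) = 0 := by
      refine infB_zf_zero hj (Finset.ext fun x => ?_)
      simp only [mem_inter, mem_erase]
      by_cases hx : x = v
      · rw [hx]
        tauto
      · constructor
        · rintro ⟨⟨_, h4⟩, h5⟩
          exact (hz' x hx h5).1 ((hA' x h5).1 h4)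
        · intro h4
          exact ⟨⟨hx, (hA' x (haM h4)).2 ((hz' x hx (haM h4)).2 h4)⟩, haM h4⟩
    rw [insert_eq_self.2 hvA]
    simp only [h1, h2]
    norm_num
  · have hva : v ∈ a j₀ := by
      by_contra h3
      exact hvA ((hA' v hv).2 (hvz.2 h3))
    have h2 : zf J M a (insert v A) = 0 := by
      refine infB_zf_zero hj (Finset.ext fun x => ?_)
      simp only [mem_inter, mem_insert]
      by_cases hx : x = v
      · rw [hx]
        tauto
      · constructor
        · rintro ⟨h4, h5⟩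
          exact (hz' x hx h5).1 ((hA' x h5).1 (h4.resolve_left hx))
        · intro h4
          exact ⟨Or.inr ((hA' x (haM h4)).2 ((hz' x hx (haM h4)).2 h4)), haM h4⟩
    rw [erase_eq_of_notMem hvA]
    simp only [h1, h2]
    norm_num

/-- Lower bound for the influence, all terms wide, with an explicit threshold. -/
theorem infB_ex (h1 : S_LP) (h2 : S_Ind) (h3 : S_Un) (k m₀ : ℕ)
    (hm₀ : ∀ m : ℕ, m₀ ≤ m → 6 * k * (3 / 5 : ℝ) ^ m ≤ 1 ∧
      ((k * (2 * m + 6 * k + 1) : ℕ) : ℝ) * (3 / 5 : ℝ) ^ m ≤ 1 / 2) :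
    ∀ (n w : ℕ) (J : Finset ℕ)
      (M a : ℕ → Finset (Fin n)) (j₀ : ℕ) (v : Fin n) (z : Finset (Fin n)),
      2 * (m₀ + 2 * k) + 2 ≤ w → Rd k J M →
      (∀ j ∈ J, a j ⊆ M j ∧ w ≤ (M j).card) → j₀ ∈ J → (M j₀).card = w → v ∈ M j₀ →
      z ∩ (M j₀).erase v = (a j₀).erase v → zf J M a z = 1 →
        (1 / 2 : ℝ) ^ (2 * k + 1) * (1 / 2 : ℝ) ^ w * mn (zf J M a) ≤
          mn (fun A => df v (fun A => 2 * zf J M a A - 1) A ^ 2) := by
  intro n w J M a j₀ v z hw hRd hJ hj₀ hcard hv hz hz1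
  have hnz : ∀ j ∈ J, z ∩ M j ≠ a j := infB_zf_one.1 hz1
  have haM : ∀ j ∈ J, a j ⊆ M j := fun j hj => (hJ j hj).1
  -- the set `N`
  obtain ⟨N, hN⟩ : ∃ N : Finset ℕ, N = J.filter fun j => z ∩ (M j ∩ M j₀) = a j ∩ M j₀ ∧
    2 * (M j \ M j₀).card ≤ w := ⟨_, rfl⟩
  have hNJ : N ⊆ J := by rw [hN]; exact filter_subset _ _
  have hNcard : N.card ≤ 2 * k := by
    have h4 := (h3 n k J N M (M j₀) hRd hNJ).2
    rw [hcard] at h4
    have h5 : ∀ j ∈ N, w ≤ 2 * ((M j) ∩ M j₀).card := by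
      intro j hj
      have h6 := (mem_filter.1 (hN ▸ hj)).2.2
      have h7 := (hJ j (hNJ hj)).2
      have h8 := card_sdiff_add_card_inter (M j) (M j₀)
      omega
    have h6 : N.card * w ≤ ∑ j ∈ N, 2 * ((M j) ∩ M j₀).card := by
      rw [← smul_eq_mul]
      exact card_nsmul_le_sum _ _ _ h5
    rw [← mul_sum] at h6
    have h7 : N.card * w ≤ (2 * k) * w := by
      calc N.card * w ≤ 2 * ∑ j ∈ N, ((M j) ∩ M j₀).card := h6
        _ ≤ 2 * (k * w) := Nat.mul_le_mul_left _ h4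
        _ = (2 * k) * w := by ring
    exact Nat.le_of_mul_le_mul_right h7 (by omega)
  have hvj : ∀ j ∈ N, ∃ x, x ∈ M j ∧ x ∉ M j₀ ∧ ¬ (x ∈ z ↔ x ∈ a j) := by
    intro j hj
    by_contra hcon
    push Not at hcon
    have h6 := (mem_filter.1 (hN ▸ hj)).2.1
    refine hnz j (hNJ hj) (Finset.ext fun x => ?_)
    have h7 := Finset.ext_iff.1 h6 x
    simp only [mem_inter] at h7 ⊢
    have h8 := haM j (hNJ hj)
    constructor
    · rintro ⟨h9, h10⟩
      by_cases hx : x ∈ M j₀
      · exact (h7.1 ⟨h9, h10, hx⟩).1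
      · exact (hcon x h10 hx).1 h9
    · intro h9
      by_cases hx : x ∈ M j₀
      · exact ⟨(h7.2 ⟨h9, hx⟩).1, h8 h9⟩
      · exact ⟨(hcon x (h8 h9) hx).2 h9, h8 h9⟩
  have hne : Nonempty (Fin n) := ⟨v⟩
  choose! p hp1 hp2 hp3 using hvj
  obtain ⟨K, hK⟩ : ∃ K : Finset (Fin n), K = M j₀ ∪ N.image p := ⟨_, rfl⟩
  have hMK : M j₀ ⊆ K := by rw [hK]; exact subset_union_left
  have hpK : ∀ j ∈ N, p j ∈ K := fun j hj => by
    rw [hK]
    exact mem_union_right _ (mem_image_of_mem _ hj)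
  have hKcard : K.card ≤ w + 2 * k := by
    rw [hK]
    refine (card_union_le _ _).trans ?_
    rw [hcard]
    exact Nat.add_le_add_left (card_image_le.trans hNcard) _
  -- the family `F`
  obtain ⟨F, hF⟩ : ∃ F : Finset ℕ, F = J.filter fun j => z ∩ (K ∩ M j) = a j ∩ K := ⟨_, rfl⟩
  have hFJ : F ⊆ J := by rw [hF]; exact filter_subset _ _
  have hFmem : ∀ j ∈ F, z ∩ (K ∩ M j) = a j ∩ K := by
    intro j hj
    rw [hF] at hj
    exact (mem_filter.1 hj).2
  obtain ⟨m, hm⟩ : ∃ m : ℕ, m = w / 2 - 2 * k := ⟨_, rfl⟩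
  have hmm₀ : m₀ ≤ m := by omega
  have hFm : ∀ j ∈ F, m ≤ (M j \ K).card := by
    intro j hj
    have h6 := hFmem j hj
    have h7 : j ∉ N := by
      intro hjN
      refine hp3 j hjN ?_
      have h8 := Finset.ext_iff.1 h6 (p j)
      simp only [mem_inter] at h8
      have h9 := hpK j hjN
      have h10 := hp1 j hjN
      tauto
    have h8 : z ∩ (M j ∩ M j₀) = a j ∩ M j₀ := by
      ext x
      have h8 := Finset.ext_iff.1 h6 x
      have h9 : x ∈ M j₀ → x ∈ K := fun h => hMK h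
      simp only [mem_inter] at h8 ⊢
      tauto
    have h9 : ¬ 2 * (M j \ M j₀).card ≤ w := by
      intro h10
      exact h7 (hN ▸ mem_filter.2 ⟨hFJ hj, h8, h10⟩)
    have h10 : (M j \ M j₀).card ≤ (M j \ K).card + N.card := by
      have h11 : M j \ M j₀ ⊆ (M j \ K) ∪ N.image p := by
        intro x hx
        rw [mem_sdiff] at hx
        rw [mem_union, mem_sdiff, hK, mem_union]
        tauto
      refine (card_le_card h11).trans ((card_union_le _ _).trans ?_)
      exact Nat.add_le_add_left card_image_le _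
    omega
  have hzfF : ∀ A, A ∩ K = z ∩ K → zf J M a A = zf F (fun j => M j \ K) (fun j => a j \ K) A := by
    intro A hA
    have hA' : ∀ x ∈ K, (x ∈ A ↔ x ∈ z) := by
      intro x hx
      have := Finset.ext_iff.1 hA x
      simp only [mem_inter] at this
      tauto
    rw [infB_zf, infB_zf]
    refine if_congr ?_ rfl rfl
    constructor
    · intro h j hj hcon
      refine h j (hFJ hj) (Finset.ext fun x => ?_)
      have h6 := Finset.ext_iff.1 (hFmem j hj) x
      have h7 := Finset.ext_iff.1 hcon x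
      simp only [mem_inter, mem_sdiff] at h6 h7 ⊢
      have h8 : x ∈ a j → x ∈ M j := fun h => haM j (hFJ hj) h
      have h9 := hA' x
      tauto
    · intro h j hj hcon
      have hjF : j ∈ F := by
        rw [hF]
        refine mem_filter.2 ⟨hj, Finset.ext fun x => ?_⟩
        have h7 := Finset.ext_iff.1 hcon x
        simp only [mem_inter] at h7 ⊢
        have h9 := hA' x
        tauto
      refine h j hjF (Finset.ext fun x => ?_)
      have h7 := Finset.ext_iff.1 hcon x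
      simp only [mem_inter, mem_sdiff] at h7 ⊢
      tauto
  -- the mean over the subcube
  have hind : mn (fun A => tm K (z ∩ K) A * zf F (fun j => M j \ K) (fun j => a j \ K) A) =
      (1 / 2 : ℝ) ^ K.card * mn (zf F (fun j => M j \ K) (fun j => a j \ K)) := by
    refine h2 n K (z ∩ K) _ (fun A => ?_) inter_subset_right
    rw [infB_zf, infB_zf]
    refine if_congr ?_ rfl rfl
    have h6 : ∀ j, (A \ K) ∩ (M j \ K) = A ∩ (M j \ K) := by
      intro j
      ext x
      simp only [mem_inter, mem_sdiff]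
      tauto
    simp only [h6]
  -- the local lemma
  obtain ⟨G, hG⟩ : ∃ G : Finset ℕ, G = F.filter fun j => Disjoint (M j) K := ⟨_, rfl⟩
  have hGF : G ⊆ F := by rw [hG]; exact filter_subset _ _
  have hRdF : Rd k F (fun j => M j \ K) := by
    intro x
    refine (card_le_card ?_).trans (hRd x)
    intro j hj
    rw [mem_filter] at hj ⊢
    exact ⟨hFJ hj.1, (mem_sdiff.1 hj.2).1⟩
  have hLP := (h1 n k m F (fun j => M j \ K) (fun j => a j \ K) (hm₀ m hmm₀).1 hRdF hFm).2.1 G hGF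
  have hFG : (F \ G).card ≤ k * K.card := by
    have h4 := (h3 n k J (F \ G) M K hRd (sdiff_subset.trans hFJ)).2
    refine le_trans ?_ h4
    rw [card_eq_sum_ones]
    refine sum_le_sum fun j hj => ?_
    rw [mem_sdiff] at hj
    have h6 : ¬ Disjoint (M j) K := fun h => hj.2 (hG ▸ mem_filter.2 ⟨hj.1, h⟩)
    rw [Finset.not_disjoint_iff] at h6
    obtain ⟨x, hx1, hx2⟩ := h6
    exact card_pos.2 ⟨x, mem_inter.2 ⟨hx1, hx2⟩⟩
  have hGJ : mn (zf J M a) ≤ mn (zf G (fun j => M j \ K) (fun j => a j \ K)) := by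
    refine infB_mono fun A => ?_
    by_cases hc : zf J M a A = 1
    · rw [hc]
      refine le_of_eq (infB_zf_one.2 fun j hj hcon => ?_).symm
      have hjF := hGF hj
      have hd : Disjoint (M j) K := by
        rw [hG] at hj
        exact (mem_filter.1 hj).2
      have e1 : M j \ K = M j := sdiff_eq_self_of_disjoint hd
      have e2 : a j \ K = a j :=
        sdiff_eq_self_of_disjoint (disjoint_of_subset_left (haM j (hFJ hjF)) hd)
      simp only [e1, e2] at hcon
      exact infB_zf_one.1 hc j (hFJ hjF) hcon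
    · have hc' : zf J M a A = 0 := by
        rw [infB_zf] at hc ⊢
        split_ifs at hc ⊢ with h
        · exact absurd rfl hc
        · rfl
      rw [hc']
      exact infB_zf_nonneg _ _ _ _
  -- the factor
  have hfac : (1 / 2 : ℝ) ≤ (1 - (3 / 5 : ℝ) ^ m) ^ (F \ G).card := by
    have hx1 : (3 / 5 : ℝ) ^ m ≤ 1 := pow_le_one₀ (by norm_num) (by norm_num)
    have hx0 : 0 ≤ (3 / 5 : ℝ) ^ m := by positivity
    have hb := one_add_mul_le_pow (a := -(3 / 5 : ℝ) ^ m) (by linarith) (F \ G).card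
    have hle : ((F \ G).card : ℝ) * (3 / 5 : ℝ) ^ m ≤ 1 / 2 := by
      refine le_trans (mul_le_mul_of_nonneg_right ?_ hx0) (hm₀ m hmm₀).2
      have h6 : (F \ G).card ≤ k * (2 * m + 6 * k + 1) := by
        refine hFG.trans (Nat.mul_le_mul_left _ ?_)
        omega
      exact_mod_cast h6
    have hb' : 1 + ((F \ G).card : ℝ) * (-(3 / 5 : ℝ) ^ m) ≤
        (1 - (3 / 5 : ℝ) ^ m) ^ (F \ G).card := by
      rw [sub_eq_add_neg]
      exact hb
    linarith
  -- conclusion
  have hmain : mn (fun A => tm K (z ∩ K) A * zf F (fun j => M j \ K) (fun j => a j \ K) A) ≤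
      mn (fun A => df v (fun A => 2 * zf J M a A - 1) A ^ 2) := by
    refine infB_mono fun A => ?_
    unfold tm
    split_ifs with hA
    · rw [one_mul, ← hzfF A hA]
      by_cases hc : zf J M a A = 1
      · have hAM : A ∩ M j₀ = z ∩ M j₀ := by
          ext x
          have h6 := Finset.ext_iff.1 hA x
          have h9 : x ∈ M j₀ → x ∈ K := fun h => hMK h
          simp only [mem_inter] at h6 ⊢
          tauto
        rw [infB_flip hj₀ hv (haM j₀ hj₀) hz (hnz j₀ hj₀) hAM hc, hc]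
      · have hc' : zf J M a A = 0 := by
          rw [infB_zf] at hc ⊢
          split_ifs at hc ⊢ with h
          · exact absurd rfl hc
          · rfl
        rw [hc']
        positivity
    · rw [zero_mul]
      positivity
  rw [hind] at hmain
  have hp : 0 ≤ mn (zf J M a) := infB_nonneg fun A => infB_zf_nonneg _ _ _ _
  have h6 : (1 / 2 : ℝ) * mn (zf J M a) ≤ mn (zf F (fun j => M j \ K) (fun j => a j \ K)) :=
    calc (1 / 2 : ℝ) * mn (zf J M a) ≤
          (1 - (3 / 5 : ℝ) ^ m) ^ (F \ G).card * mn (zf G (fun j => M j \ K) (fun j => a j \ K)) :=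
          mul_le_mul hfac hGJ hp (le_trans (by norm_num) hfac)
      _ ≤ _ := hLP
  have h7 : (1 / 2 : ℝ) ^ (w + 2 * k) ≤ (1 / 2 : ℝ) ^ K.card :=
    pow_le_pow_of_le_one (by norm_num) (by norm_num) hKcard
  calc (1 / 2 : ℝ) ^ (2 * k + 1) * (1 / 2 : ℝ) ^ w * mn (zf J M a) =
        (1 / 2 : ℝ) ^ (w + 2 * k) * ((1 / 2 : ℝ) * mn (zf J M a)) := by ring
    _ ≤ (1 / 2 : ℝ) ^ K.card * mn (zf F (fun j => M j \ K) (fun j => a j \ K)) :=
        mul_le_mul h7 h6 (by positivity) (by positivity)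
    _ ≤ _ := hmain

/-- Lower bound for the influence, all terms wide. -/
theorem infB (h1 : S_LP) (h2 : S_Ind) (h3 : S_Un) : S_InfB := by
  intro k
  obtain ⟨m₀, hm₀⟩ := infB_thr k
  exact ⟨2 * (m₀ + 2 * k) + 2, (1 / 2) ^ (2 * k + 1), by positivity,
    infB_ex h1 h2 h3 k m₀ hm₀⟩

end Pool.Agent.MP3145b1.F
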