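import Pool.Agent.Lib.MP_3145b1_co.F.SpecE
import Pool.Agent.Lib.MP_3145b1_co.F.InfB
import Pool.Agent.Lib.MP_3145b1_co.F.CostB

/-!
# MP_3145b1_co, F: explicit forms of the bounds for DNFs
-/

set_option autoImplicit false

namespace Pool.Agent.MP3145b1.F

open Finset

private theorem expB_bern (m : ℕ) : (1 + 2 * (m : ℝ) / 3) * (3 / 5 : ℝ) ^ m ≤ 1 := by
  have h1 := one_add_mul_le_pow (a := (2 / 3 : ℝ)) (by norm_num) m
  have h2 : (5 / 3 : ℝ) ^ m * (3 / 5 : ℝ) ^ m = 1 := by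
    rw [← mul_pow]
    norm_num
  have h3 : (0 : ℝ) ≤ (3 / 5 : ℝ) ^ m := by positivity
  calc (1 + 2 * (m : ℝ) / 3) * (3 / 5 : ℝ) ^ m ≤ (5 / 3 : ℝ) ^ m * (3 / 5 : ℝ) ^ m := by
        apply mul_le_mul_of_nonneg_right _ h3
        calc 1 + 2 * (m : ℝ) / 3 = 1 + (m : ℝ) * (2 / 3) := by ring
          _ ≤ (1 + 2 / 3 : ℝ) ^ m := h1
          _ = (5 / 3 : ℝ) ^ m := by norm_num
    _ = 1 := h2

private theorem expB_sq (m : ℕ) : (m : ℝ) ^ 2 * (3 / 5 : ℝ) ^ m ≤ 9 := by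
  obtain ⟨a, b, hab, hm⟩ : ∃ a b : ℕ, a + b = m ∧ (m ≤ 2 * a + 1 ∧ m ≤ 2 * b + 1) :=
    ⟨m / 2, m - m / 2, by omega, by omega⟩
  have h1 := expB_bern a
  have h2 := expB_bern b
  have h3 : (m : ℝ) / 3 ≤ 1 + 2 * (a : ℝ) / 3 := by
    have : (m : ℝ) ≤ 2 * a + 1 := by exact_mod_cast hm.1
    linarith
  have h4 : (m : ℝ) / 3 ≤ 1 + 2 * (b : ℝ) / 3 := by
    have : (m : ℝ) ≤ 2 * b + 1 := by exact_mod_cast hm.2
    linarith
  have h5 : (3 / 5 : ℝ) ^ m = (3 / 5 : ℝ) ^ a * (3 / 5 : ℝ) ^ b := by rw [← hab, pow_add]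
  have h6 : ((m : ℝ) / 3 * (3 / 5 : ℝ) ^ a) * ((m : ℝ) / 3 * (3 / 5 : ℝ) ^ b) ≤ 1 * 1 := by
    apply mul_le_mul _ _ (by positivity) zero_le_one
    · exact (mul_le_mul_of_nonneg_right h3 (by positivity)).trans h1
    · exact (mul_le_mul_of_nonneg_right h4 (by positivity)).trans h2
  rw [h5]
  nlinarith

private theorem expB_thr (k : ℕ) (hk : 1 ≤ k) : ∀ m : ℕ, 100 * k ^ 2 ≤ m →
    6 * k * (3 / 5 : ℝ) ^ m ≤ 1 ∧
      ((k * (2 * m + 6 * k + 1) : ℕ) : ℝ) * (3 / 5 : ℝ) ^ m ≤ 1 / 2 := by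
  intro m hm
  have hk1 : (1 : ℝ) ≤ k := by exact_mod_cast hk
  have hm' : 100 * (k : ℝ) ^ 2 ≤ m := by exact_mod_cast hm
  have hm0 : (0 : ℝ) < m := by nlinarith
  have hy := expB_sq m
  set y : ℝ := (3 / 5 : ℝ) ^ m with hydef
  have hy0 : 0 ≤ y := by positivity
  have h1 : y ≤ 9 / (m : ℝ) ^ 2 := by
    rw [le_div_iff₀ (by positivity)]
    linarith
  have h2 : (m : ℝ) * y ≤ 9 / m := by
    rw [le_div_iff₀ hm0]
    nlinarith
  have h3 : (k : ℝ) * (9 / m) ≤ 9 / 100 := by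
    rw [mul_div_assoc', div_le_iff₀ hm0]
    nlinarith
  have h4 : (k : ℝ) * (m * y) ≤ 9 / 100 :=
    (mul_le_mul_of_nonneg_left h2 (by positivity)).trans h3
  have h5 : (k : ℝ) ≤ m := by nlinarith
  have h6 : (100 : ℝ) ≤ m := by nlinarith
  have h7 : (k : ℝ) * y ≤ 9 / 10000 := by
    have h8 : (k : ℝ) * y * 100 ≤ (k : ℝ) * (m * y) := by
      have : 0 ≤ (k : ℝ) * y := by positivity
      nlinarith
    linarith
  have h9 : (k : ℝ) * (k * y) ≤ 9 / 10000 := by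
    have h10 : (k : ℝ) * (k * y) * 100 ≤ m * y := by nlinarith
    have h11 : (m : ℝ) * y ≤ 9 / 100 := by
      refine h2.trans ?_
      rw [div_le_iff₀ hm0]
      linarith
    linarith
  constructor
  · linarith
  · push_cast
    have h12 : (k : ℝ) * (2 * m + 6 * k + 1) * y =
        2 * (k * (m * y)) + 6 * (k * (k * y)) + k * y := by ring
    rw [h12]
    linarith

theorem infBe (h1 : S_LP) (h2 : S_Ind) (h3 : S_Un) : S_InfBe := by
  refine ⟨1000, ?_⟩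
  intro k n w J M a j₀ v z hk hw hRd hJ hj₀ hcard hv hz hz1
  have hkk : k ≤ k ^ 2 := by nlinarith
  have h4 := infB_ex h1 h2 h3 k (100 * k ^ 2) (expB_thr k hk) n w J M a j₀ v z (by omega) hRd hJ
    hj₀ hcard hv hz hz1
  refine le_trans ?_ h4
  have h5 : (1 / 2 : ℝ) ^ (1000 * k ^ 2) ≤ (1 / 2 : ℝ) ^ (2 * k + 1) :=
    pow_le_pow_of_le_one (by norm_num) (by norm_num) (by omega)
  have h6 : 0 ≤ mn (zf J M a) := by
    unfold mn zf tm
    apply mul_nonneg (by positivity)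
    apply Finset.sum_nonneg
    intro A _
    apply Finset.prod_nonneg
    intro j _
    split_ifs <;> norm_num
  apply mul_le_mul_of_nonneg_right _ h6
  exact mul_le_mul_of_nonneg_right h5 (by positivity)

theorem costBe (h1 : S_First) (h2 : S_NormB) (h3 : S_LP) (h4 : S_ResB) (h5 : S_LSum)
    (h6 : S_Un) : S_CostBe := by
  refine ⟨100, ?_⟩
  intro k n w J M a v hk hw hRd hJ
  have hk1 : (1 : ℝ) ≤ k := by exact_mod_cast hk
  have hkk : 1 ≤ k ^ 2 := by nlinarith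
  have h7 := costB_ex h1 h2 h3 h4 h5 h6 k hk n w J M a v (by omega) hRd hJ
  refine h7.trans ?_
  have h8 : 0 ≤ mn (zf J M a) := by
    unfold mn zf tm
    apply mul_nonneg (by positivity)
    apply Finset.sum_nonneg
    intro A _
    apply Finset.prod_nonneg
    intro j _
    split_ifs <;> norm_num
  have h9 : 8 * k * Real.exp (14 * k ^ 2) ≤ (2 : ℝ) ^ (100 * k ^ 2) := by
    have h10 : Real.exp (14 * (k : ℝ) ^ 2) ≤ (2 : ℝ) ^ (21 * k ^ 2) := by
      have h11 : (2 : ℝ) ^ (21 * k ^ 2) = Real.exp (((21 * k ^ 2 : ℕ) : ℝ) * Real.log 2) := by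
        rw [Real.exp_nat_mul, Real.exp_log (by norm_num)]
      rw [h11]
      apply Real.exp_le_exp.mpr
      push_cast
      have := Real.log_two_gt_d9
      nlinarith
    have h12 : (8 : ℝ) * k ≤ 2 ^ (4 * k ^ 2) := by
      have h13 : (k : ℝ) ≤ 2 ^ k := by exact_mod_cast (Nat.lt_two_pow_self).le
      have h14 : k ≤ k ^ 2 := by nlinarith
      calc (8 : ℝ) * k ≤ 2 ^ 3 * 2 ^ k := by
            have : (8 : ℝ) = 2 ^ 3 := by norm_num
            rw [this]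
            exact mul_le_mul_of_nonneg_left h13 (by positivity)
        _ = 2 ^ (3 + k) := by rw [← pow_add]
        _ ≤ 2 ^ (4 * k ^ 2) := pow_le_pow_right₀ (by norm_num) (by omega)
    calc 8 * k * Real.exp (14 * (k : ℝ) ^ 2) ≤ 2 ^ (4 * k ^ 2) * 2 ^ (21 * k ^ 2) :=
          mul_le_mul h12 h10 (Real.exp_pos _).le (by positivity)
      _ = 2 ^ (25 * k ^ 2) := by rw [← pow_add]; congr 1; ring
      _ ≤ 2 ^ (100 * k ^ 2) := pow_le_pow_right₀ (by norm_num) (by omega)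
  have h15 : 8 * k * Real.exp (14 * k ^ 2) * (1 / 2 : ℝ) ^ w * mn (zf J M a) ≤
      2 ^ (100 * k ^ 2) * (1 / 2 : ℝ) ^ w * mn (zf J M a) := by
    apply mul_le_mul_of_nonneg_right _ h8
    exact mul_le_mul_of_nonneg_right h9 (by positivity)
  linarith

end Pool.Agent.MP3145b1.F
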