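import Pool.Agent.Lib.MP_3145b1_co.F.Spec

/-!
# Independence of a term and a function of the other coordinates
-/

set_option autoImplicit false

namespace Pool.Agent.MP3145b1.F

open Finset

theorem ind : S_Ind := by
  intro n W c u hu hc
  have h1 : ∀ B ∈ W.powerset, ∑ A ∈ univ.filter (fun A : Finset (Fin n) => A ∩ W = B), u A =
      ∑ A ∈ univ.filter (fun A : Finset (Fin n) => A ∩ W = c), u A := by
    intro B hB
    rw [Finset.mem_powerset] at hB
    refine Finset.sum_nbij' (fun A => (A \ W) ∪ c) (fun A => (A \ W) ∪ B) ?_ ?_ ?_ ?_ ?_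
    · intro A hA
      rw [Finset.mem_filter] at hA ⊢
      refine ⟨Finset.mem_univ _, ?_⟩
      ext x
      simp only [Finset.mem_inter, Finset.mem_union, Finset.mem_sdiff]
      have := @hc x
      tauto
    · intro A hA
      rw [Finset.mem_filter] at hA ⊢
      refine ⟨Finset.mem_univ _, ?_⟩
      ext x
      simp only [Finset.mem_inter, Finset.mem_union, Finset.mem_sdiff]
      have := @hB x
      tauto
    · intro A hA
      rw [Finset.mem_filter] at hA
      have hA2 := hA.2
      ext x
      have h3 : x ∈ A ∧ x ∈ W ↔ x ∈ B := by rw [← hA2, Finset.mem_inter]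
      have h4 := @hc x
      simp only [Finset.mem_union, Finset.mem_sdiff]
      tauto
    · intro A hA
      rw [Finset.mem_filter] at hA
      have hA2 := hA.2
      ext x
      have h3 : x ∈ A ∧ x ∈ W ↔ x ∈ c := by rw [← hA2, Finset.mem_inter]
      have h4 := @hB x
      simp only [Finset.mem_union, Finset.mem_sdiff]
      tauto
    · intro A hA
      rw [← hu A, ← hu ((A \ W) ∪ c)]
      congr 1
      ext x
      have h4 := @hc x
      simp only [Finset.mem_union, Finset.mem_sdiff]
      tauto
  have h2 : ∑ A : Finset (Fin n), u A = 2 ^ W.card *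
      ∑ A ∈ univ.filter (fun A : Finset (Fin n) => A ∩ W = c), u A := by
    rw [← Finset.sum_fiberwise_of_maps_to (s := univ) (t := W.powerset)
      (g := fun A : Finset (Fin n) => A ∩ W)
      (fun A _ => Finset.mem_powerset.2 Finset.inter_subset_right) u,
      Finset.sum_congr rfl h1, Finset.sum_const, Finset.card_powerset, nsmul_eq_mul]
    push_cast
    rfl
  have h3 : ∑ A : Finset (Fin n), tm W c A * u A =
      ∑ A ∈ univ.filter (fun A : Finset (Fin n) => A ∩ W = c), u A := by
    rw [Finset.sum_filter]
    refine Finset.sum_congr rfl fun A _ => ?_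
    unfold tm
    split_ifs <;> simp
  unfold mn
  rw [h3, h2]
  have h4 : (1 / 2 : ℝ) ^ W.card * 2 ^ W.card = 1 := by
    rw [← mul_pow]
    norm_num
  linear_combination (-(1 / 2 : ℝ) ^ n *
    ∑ A ∈ univ.filter (fun A : Finset (Fin n) => A ∩ W = c), u A) * h4

end Pool.Agent.MP3145b1.F
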