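import Pool.Agent.Lib.MP_3145b1_co.F.Spec

/-!
# MP_3145b1_co, block F: lower bound for the influence (helper60)
-/

set_option autoImplicit false

namespace Pool.Agent.MP3145b1.F

open Finset

variable {n : ℕ}

/-- the sign -/
private noncomputable def sig (x : ZMod 2) : ℝ := if x = 0 then 1 else -1

private theorem zmod_cases (x : ZMod 2) : x = 0 ∨ x = 1 := by
  revert x
  decide

private theorem zmod_add_self (x : ZMod 2) : x + x = 0 := by
  revert x
  decide

private theorem sig_add (x y : ZMod 2) : sig (x + y) = sig x * sig y := by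
  have h11 : (1 : ZMod 2) + 1 = 0 := by decide
  have h10 : (1 : ZMod 2) ≠ 0 := by decide
  unfold sig
  rcases zmod_cases x with rfl | rfl <;> rcases zmod_cases y with rfl | rfl
  · simp
  · simp [h10]
  · simp [h10]
  · rw [h11, if_pos rfl, if_neg h10]
    norm_num

private theorem sig_sq (x : ZMod 2) : sig x * sig x = 1 := by
  rw [← sig_add, zmod_add_self]
  unfold sig
  rw [if_pos rfl]

private theorem sig_term (M a A : Finset (Fin n)) :
    1 - 2 * tm M a A = sig (if A ∩ M = a then 1 else 0) := by
  have h10 : (1 : ZMod 2) ≠ 0 := by decide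
  unfold tm sig
  by_cases h : A ∩ M = a
  · rw [if_pos h, if_pos h, if_neg h10]
    norm_num
  · rw [if_neg h, if_neg h, if_pos rfl]
    norm_num

private theorem sig_prod (J : Finset ℕ) (M a : ℕ → Finset (Fin n)) (A : Finset (Fin n)) :
    ∏ j ∈ J, (1 - 2 * tm (M j) (a j) A) = sig (∑ j ∈ J, if A ∩ M j = a j then 1 else 0) := by
  induction J using Finset.induction_on with
  | empty =>
    rw [prod_empty, sum_empty]
    unfold sig
    rw [if_pos rfl]
  | insert j J hj ih => rw [prod_insert hj, sum_insert hj, sig_add, ih, sig_term]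

/-- the exponent -/
private def ex (q : Finset (Fin n) → ZMod 2) (J : Finset ℕ) (M a : ℕ → Finset (Fin n))
    (A : Finset (Fin n)) : ZMod 2 := q A + ∑ j ∈ J, if A ∩ M j = a j then 1 else 0

private theorem xf_eq (q : Finset (Fin n) → ZMod 2) (J : Finset ℕ) (M a : ℕ → Finset (Fin n))
    (A : Finset (Fin n)) : xf q J M a A = sig (ex q J M a A) := by
  unfold xf ex
  rw [sig_add, sig_prod]
  rfl

private theorem term_add (M a A : Finset (Fin n)) (v : Fin n) :
    ((if insert v A ∩ M = a then 1 else 0) + (if A.erase v ∩ M = a then 1 else 0) : ZMod 2) =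
      if v ∈ M then (if A ∩ M.erase v = a.erase v then 1 else 0) else 0 := by
  by_cases hv : v ∈ M
  · rw [if_pos hv]
    by_cases hva : v ∈ a
    · have h1 : ¬ (A.erase v ∩ M = a) := by
        intro h
        rw [← h] at hva
        simp at hva
      have h2 : (insert v A ∩ M = a) ↔ (A ∩ M.erase v = a.erase v) := by
        rw [Finset.ext_iff, Finset.ext_iff]
        refine forall_congr' fun x => ?_
        by_cases hx : x = v
        · subst hx
          simp [hv, hva]
        · simp [hx]
      rw [if_neg h1, add_zero]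
      by_cases h3 : insert v A ∩ M = a
      · rw [if_pos h3, if_pos (h2.1 h3)]
      · rw [if_neg h3, if_neg (fun h => h3 (h2.2 h))]
    · have h1 : ¬ (insert v A ∩ M = a) := by
        intro h
        apply hva
        rw [← h]
        simp [hv]
      have h2 : (A.erase v ∩ M = a) ↔ (A ∩ M.erase v = a.erase v) := by
        rw [Finset.ext_iff, Finset.ext_iff]
        refine forall_congr' fun x => ?_
        by_cases hx : x = v
        · subst hx
          simp [hva]
        · simp [hx]
      rw [if_neg h1, zero_add]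
      by_cases h3 : A.erase v ∩ M = a
      · rw [if_pos h3, if_pos (h2.1 h3)]
      · rw [if_neg h3, if_neg (fun h => h3 (h2.2 h))]
  · rw [if_neg hv]
    have h1 : insert v A ∩ M = A.erase v ∩ M := by
      ext x
      by_cases hx : x = v
      · subst hx
        simp [hv]
      · simp [hx]
    rw [h1, zmod_add_self]

/-- the far terms -/
private def far (J : Finset ℕ) (M : ℕ → Finset (Fin n)) (v : Fin n) (s : ℕ) : Finset ℕ :=
  J.filter fun j => v ∈ M j ∧ ¬ (M j).card ≤ s

private theorem ex_add (q : Finset (Fin n) → ZMod 2) (J : Finset ℕ) (M a : ℕ → Finset (Fin n))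
    (v : Fin n) (s : ℕ) (ha : ∀ j ∈ J, a j ⊆ M j) (A : Finset (Fin n)) :
    ex q J M a (insert v A) + ex q J M a (A.erase v) = gs q J M a v s A +
      ∑ j ∈ far J M v s, if A ∩ (M j).erase v = (a j).erase v then 1 else 0 := by
  unfold ex gs dv far
  have h1 : ∑ j ∈ J, (if insert v A ∩ M j = a j then (1 : ZMod 2) else 0) +
      ∑ j ∈ J, (if A.erase v ∩ M j = a j then (1 : ZMod 2) else 0) =
      ∑ j ∈ J.filter (fun j => v ∈ M j ∧ (M j).card ≤ s),
        (if A ∩ (M j).erase v = (a j).erase v then (1 : ZMod 2) else 0) +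
      ∑ j ∈ J.filter (fun j => v ∈ M j ∧ ¬ (M j).card ≤ s),
        (if A ∩ (M j).erase v = (a j).erase v then (1 : ZMod 2) else 0) := by
    rw [← sum_add_distrib, sum_filter, sum_filter, ← sum_add_distrib]
    refine sum_congr rfl fun j hj => ?_
    rw [term_add _ _ _ _]
    by_cases hv : v ∈ M j
    · by_cases hs : (M j).card ≤ s
      · simp [hv, hs]
      · simp [hv, hs]
    · simp [hv]
  have h2 : q (insert v A) + q (A.erase v) = q (insert v A) - q (A.erase v) := by
    have h3 := zmod_add_self (q (A.erase v))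
    rw [sub_eq_add_neg, neg_eq_of_add_eq_zero_left h3]
  linear_combination h1 + h2

private theorem point (q : Finset (Fin n) → ZMod 2) (J : Finset ℕ) (M a : ℕ → Finset (Fin n))
    (v : Fin n) (s : ℕ) (ha : ∀ j ∈ J, a j ⊆ M j) (A : Finset (Fin n)) :
    (if gs q J M a v s A ≠ 0 then (1 : ℝ) else 0) ≤ df v (xf q J M a) A ^ 2 +
      ∑ j ∈ far J M v s, tm ((M j).erase v) ((a j).erase v) A := by
  have h0 : ∀ j ∈ far J M v s, 0 ≤ tm ((M j).erase v) ((a j).erase v) A := by
    intro j _
    unfold tm
    split_ifs <;> norm_num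
  by_cases hfar : ∃ j ∈ far J M v s, A ∩ (M j).erase v = (a j).erase v
  · obtain ⟨j, hj, hjA⟩ := hfar
    have h1 : (1 : ℝ) ≤ ∑ j ∈ far J M v s, tm ((M j).erase v) ((a j).erase v) A := by
      have h2 := Finset.single_le_sum h0 hj
      have h3 : tm ((M j).erase v) ((a j).erase v) A = 1 := by
        unfold tm
        rw [if_pos hjA]
      rwa [h3] at h2
    have h2 : (if gs q J M a v s A ≠ 0 then (1 : ℝ) else 0) ≤ 1 := by
      split_ifs <;> norm_num
    have h3 := sq_nonneg (df v (xf q J M a) A)
    linarith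
  · push Not at hfar
    have h1 := ex_add q J M a v s ha A
    rw [sum_eq_zero (fun j hj => if_neg (hfar j hj)), add_zero] at h1
    by_cases hg : gs q J M a v s A ≠ 0
    · rw [if_pos hg]
      have h2 : df v (xf q J M a) A ^ 2 = 1 := by
        unfold df
        rw [xf_eq, xf_eq]
        have h3 : sig (ex q J M a (insert v A)) * sig (ex q J M a (A.erase v)) = -1 := by
          rw [← sig_add, h1]
          unfold sig
          rw [if_neg hg]
        have h4 := sig_sq (ex q J M a (insert v A))
        have h5 := sig_sq (ex q J M a (A.erase v))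
        nlinarith
      rw [h2]
      have h3 := Finset.sum_nonneg h0
      linarith
    · rw [if_neg hg]
      exact add_nonneg (sq_nonneg _) (Finset.sum_nonneg h0)

private theorem mn_tm (M a : Finset (Fin n)) : mn (tm M a) ≤ (1 / 2 : ℝ) ^ M.card := by
  unfold mn
  have h1 : ∑ A : Finset (Fin n), tm M a A ≤ (2 : ℝ) ^ (n - M.card) := by
    have h2 : ∑ A : Finset (Fin n), tm M a A =
        ((univ.filter fun A : Finset (Fin n) => A ∩ M = a).card : ℝ) := by
      unfold tm
      rw [Finset.sum_boole]
    rw [h2]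
    have h3 : (univ.filter fun A : Finset (Fin n) => A ∩ M = a).card ≤ (Mᶜ).powerset.card := by
      refine Finset.card_le_card_of_injOn (fun A => A \ M) ?_ ?_
      · intro A _
        simp only [coe_powerset, Set.mem_preimage, Set.mem_powerset_iff]
        intro x hx
        rw [mem_coe, mem_sdiff] at hx
        rw [mem_coe, mem_compl]
        exact hx.2
      · intro A hA B hB hAB
        simp only [coe_filter, mem_univ, true_and, Set.mem_ofPred_eq] at hA hB
        simp only at hAB
        rw [← Finset.sdiff_union_inter A M, ← Finset.sdiff_union_inter B M, hAB, hA, hB]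
    rw [card_powerset, card_compl, Fintype.card_fin] at h3
    exact_mod_cast h3
  have h4 : M.card ≤ n := by
    have h5 := Finset.card_le_univ M
    rwa [Fintype.card_fin] at h5
  calc (1 / 2 : ℝ) ^ n * ∑ A : Finset (Fin n), tm M a A
      ≤ (1 / 2 : ℝ) ^ n * (2 : ℝ) ^ (n - M.card) := mul_le_mul_of_nonneg_left h1 (by positivity)
    _ = (1 / 2 : ℝ) ^ M.card := by
        have h6 : n = M.card + (n - M.card) := by omega
        have h7 : (1 / 2 : ℝ) ^ n = (1 / 2 : ℝ) ^ M.card * (1 / 2 : ℝ) ^ (n - M.card) := by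
          rw [← pow_add, ← h6]
        rw [h7, mul_assoc, ← mul_pow]
        norm_num

/-- the gap in the sizes -/
private theorem gap (k w : ℕ) (J : Finset ℕ) (M : ℕ → Finset (Fin n)) (v : Fin n) (hR : Rd k J M) :
    ∃ r ≤ k, ∀ j ∈ J, v ∈ M j → ¬ (w + r * k < (M j).card ∧ (M j).card ≤ w + (r + 1) * k) := by
  by_contra hcon
  push Not at hcon
  have h1 : ∀ r : Fin (k + 1), ∃ j ∈ J, v ∈ M j ∧
      w + r * k < (M j).card ∧ (M j).card ≤ w + (r + 1) * k := by
    intro r
    obtain ⟨j, h1, h2, h3, h4⟩ := hcon r (by omega)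
    exact ⟨j, h1, h2, h3, h4⟩
  choose f hf1 hf2 hf3 hf4 using h1
  have h2 : Function.Injective f := by
    intro r r' h
    by_contra hne
    have h5 := hf3 r
    have h6 := hf4 r
    have h7 := hf3 r'
    have h8 := hf4 r'
    rw [h] at h5 h6
    rcases lt_or_gt_of_ne (fun h => hne (Fin.ext h) : (r : ℕ) ≠ (r' : ℕ)) with h9 | h9
    · have h10 : ((r : ℕ) + 1) * k ≤ (r' : ℕ) * k := Nat.mul_le_mul_right k h9
      omega
    · have h10 : ((r' : ℕ) + 1) * k ≤ (r : ℕ) * k := Nat.mul_le_mul_right k h9
      omega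
  have h3 : (univ : Finset (Fin (k + 1))).card ≤ (J.filter fun j => v ∈ M j).card := by
    refine Finset.card_le_card_of_injOn f ?_ h2.injOn
    intro r _
    rw [mem_coe, mem_filter]
    exact ⟨hf1 r, hf2 r⟩
  rw [card_univ, Fintype.card_fin] at h3
  have h4 := hR v
  omega

/-- **InfA** -/
theorem infA (h1 : S_PolB) (h2 : S_RM) : S_InfA := by
  intro n k d w W q J M a v hq hR ha hdw hmin halt
  obtain ⟨r, hr, hgap⟩ := gap k w J M v hR
  set s := w + r * k with hs
  have hsk : s ≤ w + k ^ 2 := by
    have h3 : r * k ≤ k ^ 2 := by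
      rw [sq]
      exact Nat.mul_le_mul_right k hr
    omega
  have hws : w ≤ s := by omega
  -- `g` is not zero
  have hg : gs q J M a v s ≠ 0 := by
    by_cases hex : ∃ j ∈ J, v ∈ M j ∧ (M j).card ≤ s
    · exact hmin s hex
    · have h3 : gs q J M a v s = dv v q := by
        funext A
        unfold gs
        rw [Finset.filter_eq_empty_iff.2, sum_empty, add_zero]
        intro j hj hcon
        exact hex ⟨j, hj, hcon⟩
      rw [h3]
      rcases halt with h4 | ⟨j, hj, hv, hjw⟩
      · exact h4
      · exact absurd ⟨j, hj, hv, hjw.trans hws⟩ hex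
  have hdv0 : d = 0 → dv v q = 0 := ((h1 n d W q).1 hq v).2.2.2
  have hdv1 : 1 ≤ d → dv v q ∈ Pol (W.erase v) (d - 1) := ((h1 n d W q).1 hq v).2.2.1
  have hs1 : 1 ≤ s := by
    by_contra hcon
    apply hg
    funext A
    unfold gs
    rw [hdv0 (by omega), Finset.filter_eq_empty_iff.2, sum_empty, add_zero]
    intro j _ hc
    have h3 : 0 < (M j).card := card_pos.2 ⟨v, hc.1⟩
    omega
  have hgP : gs q J M a v s ∈ Pol (univ : Finset (Fin n)) (s - 1) := by
    have h3 : gs q J M a v s = dv v q + ∑ j ∈ J.filter (fun j => v ∈ M j ∧ (M j).card ≤ s),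
        fun A : Finset (Fin n) => if A ∩ (M j).erase v = (a j).erase v then (1 : ZMod 2) else 0 := by
      funext A
      rw [Pi.add_apply, Finset.sum_apply]
      rfl
    rw [h3]
    refine Submodule.add_mem _ ?_ (Submodule.sum_mem _ fun j hj => ?_)
    · by_cases hd : d = 0
      · rw [hdv0 hd]
        exact Submodule.zero_mem _
      · exact (h1 n (d - 1) (W.erase v) 0).2.2.1 (s - 1) univ (by omega) (subset_univ _)
          (hdv1 (by omega))
    · rw [mem_filter] at hj
      refine (h1 n (s - 1) univ 0).2.1 ((M j).erase v) ((a j).erase v)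
        (erase_subset_erase v (ha j hj.1)) (subset_univ _) ?_
      rw [card_erase_of_mem hj.2.1]
      omega
  have hRM := h2 n (s - 1) univ _ hgP hg
  -- the sum
  have h3 : mn (fun A => if gs q J M a v s A ≠ 0 then (1 : ℝ) else 0) ≤
      mn (fun A => df v (xf q J M a) A ^ 2) +
        ∑ j ∈ far J M v s, mn (tm ((M j).erase v) ((a j).erase v)) := by
    unfold mn
    rw [← mul_sum, ← mul_add, sum_comm, ← sum_add_distrib]
    exact mul_le_mul_of_nonneg_left (sum_le_sum fun A _ => point q J M a v s ha A) (by positivity)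
  have h4 : ∑ j ∈ far J M v s, mn (tm ((M j).erase v) ((a j).erase v)) ≤ (1 / 2 : ℝ) ^ s := by
    have h5 : ∀ j ∈ far J M v s, mn (tm ((M j).erase v) ((a j).erase v)) ≤
        (1 / 2 : ℝ) ^ (s + k) := by
      intro j hj
      unfold far at hj
      rw [mem_filter] at hj
      refine (mn_tm _ _).trans (pow_le_pow_of_le_one (by norm_num) (by norm_num) ?_)
      rw [card_erase_of_mem hj.2.1]
      have h6 := hgap j hj.1 hj.2.1
      have h7 : w + (r + 1) * k = s + k := by
        rw [hs]
        ring
      rw [h7] at h6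
      omega
    have h6 : (far J M v s).card ≤ k := by
      refine le_trans (card_le_card ?_) (hR v)
      intro j hj
      unfold far at hj
      rw [mem_filter] at hj ⊢
      exact ⟨hj.1, hj.2.1⟩
    have h7 : (k : ℝ) ≤ 2 ^ k := by exact_mod_cast (Nat.lt_two_pow_self (n := k)).le
    calc ∑ j ∈ far J M v s, mn (tm ((M j).erase v) ((a j).erase v))
        ≤ ∑ j ∈ far J M v s, (1 / 2 : ℝ) ^ (s + k) := sum_le_sum h5
      _ = (far J M v s).card * (1 / 2 : ℝ) ^ (s + k) := by rw [sum_const, nsmul_eq_mul]
      _ ≤ 2 ^ k * (1 / 2 : ℝ) ^ (s + k) := by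
          apply mul_le_mul_of_nonneg_right _ (by positivity)
          refine le_trans ?_ h7
          exact_mod_cast h6
      _ = (1 / 2 : ℝ) ^ s := by
          rw [pow_add, mul_comm, mul_assoc, ← mul_pow]
          norm_num
  have h5 : (1 / 2 : ℝ) ^ (s - 1) = 2 * (1 / 2 : ℝ) ^ s := by
    obtain ⟨t, ht⟩ : ∃ t, s = t + 1 := ⟨s - 1, by omega⟩
    rw [ht, Nat.add_sub_cancel, pow_succ]
    ring
  have h6 : (1 / 2 : ℝ) ^ (w + k ^ 2) ≤ (1 / 2 : ℝ) ^ s :=
    pow_le_pow_of_le_one (by norm_num) (by norm_num) hsk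
  linarith

end Pool.Agent.MP3145b1.F
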