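import Pool.Agent.Lib.MP_3145b1_co.F.SpecE
import Pool.Agent.Lib.MP_3145b1_co.Jen

/-!
# MP_3145b1_co, F: logarithmic form of the cost (`S_Jn`)
-/

set_option autoImplicit false

namespace Pool.Agent.MP3145b1.F

open Finset

private theorem jn_one (a b : ℝ) :
    b ^ 2 * Real.log (1 + a ^ 2 / b ^ 2) ≤ 2 * (b ^ 2 * Real.log (1 + |a * b| / b ^ 2)) := by
  by_cases hb : b = 0
  · rw [hb]
    simp
  · have h1 : |a * b| / b ^ 2 = |a| / |b| := by
      rw [abs_mul, ← sq_abs b]
      have : |b| ≠ 0 := abs_ne_zero.mpr hb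
      field_simp
    have h2 : a ^ 2 / b ^ 2 = (|a| / |b|) ^ 2 := by
      rw [div_pow, sq_abs, sq_abs]
    rw [h1, h2]
    set x : ℝ := |a| / |b| with hx
    have hx0 : 0 ≤ x := by positivity
    have h3 : Real.log (1 + x ^ 2) ≤ 2 * Real.log (1 + x) := by
      rw [← Real.log_rpow (by positivity)]
      apply Real.log_le_log (by positivity)
      rw [Real.rpow_two]
      nlinarith
    nlinarith [mul_le_mul_of_nonneg_left h3 (sq_nonneg b)]

theorem jn : S_Jn := by
  intro ι _ a b
  set D : ℝ := ∑ i, b i ^ 2 with hD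
  have hDnn : 0 ≤ D := Finset.sum_nonneg fun i _ => sq_nonneg _
  have h1 : ∑ i, b i ^ 2 * Real.log (1 + a i ^ 2 / b i ^ 2) ≤
      2 * ∑ i, b i ^ 2 * Real.log (1 + |a i * b i| / b i ^ 2) := by
    rw [Finset.mul_sum]
    exact Finset.sum_le_sum fun i _ => jn_one _ _
  rcases hDnn.eq_or_lt with hD0 | hDp
  · have h2 : ∀ i, b i ^ 2 = 0 := by
      intro i
      have h3 := (Finset.sum_eq_zero_iff_of_nonneg (s := (univ : Finset ι))
        (f := fun i => b i ^ 2) (fun i _ => sq_nonneg _)).mp hD0.symm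
      exact h3 i (Finset.mem_univ _)
    rw [← hD0]
    simp [h2]
  · have h2 := Pool.Agent.MP3145b1.jen ι (fun i => b i ^ 2 / D)
      (fun i => 1 + |a i * b i| / b i ^ 2) (fun i => by positivity)
      (by rw [← Finset.sum_div]; exact div_self hDp.ne') (fun i => by positivity)
    have h3 : ∑ i, b i ^ 2 / D * (1 + |a i * b i| / b i ^ 2) = 1 + (∑ i, |a i * b i|) / D := by
      have h4 : ∀ i, b i ^ 2 / D * (1 + |a i * b i| / b i ^ 2) =
          b i ^ 2 / D + |a i * b i| / D := by
        intro i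
        by_cases hb : b i = 0
        · rw [hb]
          simp
        · have hb2 : b i ^ 2 ≠ 0 := pow_ne_zero 2 hb
          field_simp
      rw [Finset.sum_congr rfl fun i _ => h4 i, Finset.sum_add_distrib, ← Finset.sum_div,
        ← Finset.sum_div, div_self hDp.ne']
    rw [h3] at h2
    have h5 : ∑ i, b i ^ 2 * Real.log (1 + |a i * b i| / b i ^ 2) =
        D * ∑ i, b i ^ 2 / D * Real.log (1 + |a i * b i| / b i ^ 2) := by
      rw [Finset.mul_sum]
      apply Finset.sum_congr rfl
      intro i _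
      field_simp
    rw [h5] at h1
    calc _ ≤ _ := h1
      _ ≤ 2 * (D * Real.log (1 + (∑ i, |a i * b i|) / D)) := by
        apply mul_le_mul_of_nonneg_left _ (by norm_num)
        exact mul_le_mul_of_nonneg_left h2 hDnn
      _ = _ := by ring

end Pool.Agent.MP3145b1.F
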