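import Pool.Agent.Lib.MP_3145b1_co.F.Spec

/-!
# MP_3145b1_co, F: local lemma for families of terms (`S_LP`)
-/

set_option autoImplicit false

namespace Pool.Agent.MP3145b1.F

open Finset

private theorem lp_tm01 {n : ℕ} (M a A : Finset (Fin n)) : 0 ≤ tm M a A ∧ tm M a A ≤ 1 := by
  unfold tm
  split_ifs <;> norm_num

private theorem lp_zf01 {n : ℕ} (J : Finset ℕ) (M a : ℕ → Finset (Fin n)) (A : Finset (Fin n)) :
    0 ≤ zf J M a A ∧ zf J M a A ≤ 1 := by
  unfold zf
  constructor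
  · exact Finset.prod_nonneg fun j _ => by linarith [(lp_tm01 (M j) (a j) A).2]
  · exact Finset.prod_le_one (fun j _ => by linarith [(lp_tm01 (M j) (a j) A).2])
      (fun j _ => by linarith [(lp_tm01 (M j) (a j) A).1])

private theorem lp_mono {n : ℕ} (f g : Finset (Fin n) → ℝ) (h : ∀ A, f A ≤ g A) : mn f ≤ mn g := by
  unfold mn
  exact mul_le_mul_of_nonneg_left (Finset.sum_le_sum fun A _ => h A) (by positivity)

private theorem lp_mn0 {n : ℕ} (f : Finset (Fin n) → ℝ) (h : ∀ A, 0 ≤ f A) : 0 ≤ mn f := by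
  unfold mn
  exact mul_nonneg (by positivity) (Finset.sum_nonneg fun A _ => h A)

private theorem lp_sub {n : ℕ} (J G : Finset ℕ) (M a : ℕ → Finset (Fin n)) (hG : G ⊆ J)
    (A : Finset (Fin n)) : zf J M a A ≤ zf G M a A := by
  have h1 : zf J M a A = zf (J \ G) M a A * zf G M a A := by
    unfold zf
    rw [Finset.prod_sdiff hG]
  rw [h1]
  have h2 := lp_zf01 (J \ G) M a A
  have h3 := lp_zf01 G M a A
  nlinarith

private theorem lp_three (h1 : S_Ind) (n : ℕ) (J : Finset ℕ) (M a : ℕ → Finset (Fin n))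
    (W c : Finset (Fin n)) : mn (fun A => tm W c A * zf J M a A) ≤
      (1 / 2 : ℝ) ^ W.card * mn (zf (J.filter fun j => Disjoint (M j) W) M a) := by
  by_cases hc : c ⊆ W
  · rw [← h1 n W c (zf (J.filter fun j => Disjoint (M j) W) M a) (fun A => ?_) hc]
    · refine lp_mono _ _ fun A => ?_
      exact mul_le_mul_of_nonneg_left (lp_sub _ _ _ _ (Finset.filter_subset _ _) A) (lp_tm01 W c A).1
    · unfold zf
      refine Finset.prod_congr rfl fun j hj => ?_
      have h2 : (A \ W) ∩ M j = A ∩ M j := by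
        have h3 := Finset.disjoint_left.mp (Finset.mem_filter.mp hj).2
        ext x
        simp only [Finset.mem_inter, Finset.mem_sdiff]
        exact ⟨fun h => ⟨h.1.1, h.2⟩, fun h => ⟨⟨h.1, h3 h.2⟩, h.2⟩⟩
      unfold tm
      rw [h2]
  · have h2 : mn (fun A => tm W c A * zf J M a A) = 0 := by
      unfold mn
      have h3 : ∀ A : Finset (Fin n), tm W c A * zf J M a A = 0 := by
        intro A
        unfold tm
        rw [if_neg, zero_mul]
        intro h
        exact hc (h ▸ Finset.inter_subset_right)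
      rw [Finset.sum_congr rfl fun A _ => h3 A, Finset.sum_const_zero, mul_zero]
    rw [h2]
    exact mul_nonneg (by positivity) (lp_mn0 _ fun A => (lp_zf01 _ M a A).1)

private theorem lp_erase {n : ℕ} (J : Finset ℕ) (M a : ℕ → Finset (Fin n)) (j : ℕ) (hj : j ∈ J) :
    mn (zf J M a) = mn (zf (J.erase j) M a) - mn (fun A => tm (M j) (a j) A * zf (J.erase j) M a A) := by
  unfold mn
  rw [← mul_sub, ← Finset.sum_sub_distrib]
  congr 1
  refine Finset.sum_congr rfl fun A _ => ?_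
  have h1 : zf J M a A = (1 - tm (M j) (a j) A) * zf (J.erase j) M a A := by
    unfold zf
    rw [Finset.mul_prod_erase J (fun i => 1 - tm (M i) (a i) A) hj]
  rw [h1]
  ring

theorem lp (h1 : S_Ind) (h2 : S_Un) : S_LP := by
  intro n k m J M a hk hR hm
  suffices H : ∀ J : Finset ℕ, Rd k J M → (∀ j ∈ J, m ≤ (M j).card) →
      (∀ W c : Finset (Fin n), mn (fun A => tm W c A * zf J M a A) ≤
        (3 / 5 : ℝ) ^ W.card * mn (zf J M a)) ∧
      (∀ G ⊆ J, (1 - (3 / 5 : ℝ) ^ m) ^ (J \ G).card * mn (zf G M a) ≤ mn (zf J M a)) from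
    ⟨(H J hR hm).1, (H J hR hm).2, fun W c => lp_three h1 n J M a W c⟩
  have hx0 : (0 : ℝ) ≤ (3 / 5 : ℝ) ^ m := by positivity
  have hx1 : (3 / 5 : ℝ) ^ m ≤ 1 := pow_le_one₀ (by norm_num) (by norm_num)
  intro J
  induction J using Finset.strongInduction with
  | H J ih =>
  intro hR hm
  have two : ∀ G ⊆ J, (1 - (3 / 5 : ℝ) ^ m) ^ (J \ G).card * mn (zf G M a) ≤ mn (zf J M a) := by
    intro G hG
    by_cases hGJ : J ⊆ G
    · have h3 : G = J := Finset.Subset.antisymm hG hGJ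
      rw [h3]
      simp
    · obtain ⟨j, hj, hjG⟩ := Finset.not_subset.mp hGJ
      have hss : J.erase j ⊂ J := Finset.erase_ssubset hj
      have hR' : Rd k (J.erase j) M := fun v =>
        (Finset.card_le_card (Finset.filter_subset_filter _ (Finset.erase_subset _ _))).trans (hR v)
      have hm' : ∀ i ∈ J.erase j, m ≤ (M i).card := fun i hi => hm i (Finset.mem_of_mem_erase hi)
      obtain ⟨h3, h4⟩ := ih (J.erase j) hss hR' hm'
      have hGs : G ⊆ J.erase j := fun i hi =>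
        Finset.mem_erase.mpr ⟨fun h => hjG (h ▸ hi), hG hi⟩
      have h5 := h4 G hGs
      have h6 := h3 (M j) (a j)
      have h7 := lp_erase J M a j hj
      have h8 : (J \ G).card = (J.erase j \ G).card + 1 := by
        have h9 : J.erase j \ G = (J \ G).erase j := by
          ext i
          simp only [Finset.mem_sdiff, Finset.mem_erase]
          tauto
        rw [h9, Finset.card_erase_add_one (Finset.mem_sdiff.mpr ⟨hj, hjG⟩)]
      have h10 : 0 ≤ mn (zf (J.erase j) M a) := lp_mn0 _ fun A => (lp_zf01 _ M a A).1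
      have h11 : (3 / 5 : ℝ) ^ (M j).card ≤ (3 / 5 : ℝ) ^ m :=
        pow_le_pow_of_le_one (by norm_num) (by norm_num) (hm j hj)
      rw [h8, pow_succ]
      have h12 : (3 / 5 : ℝ) ^ (M j).card * mn (zf (J.erase j) M a) ≤
          (3 / 5 : ℝ) ^ m * mn (zf (J.erase j) M a) := mul_le_mul_of_nonneg_right h11 h10
      have h13 : (1 - (3 / 5 : ℝ) ^ m) * ((1 - (3 / 5 : ℝ) ^ m) ^ (J.erase j \ G).card *
          mn (zf G M a)) ≤ (1 - (3 / 5 : ℝ) ^ m) * mn (zf (J.erase j) M a) :=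
        mul_le_mul_of_nonneg_left h5 (by linarith)
      linarith
  refine ⟨fun W c => ?_, two⟩
  have h3 := lp_three h1 n J M a W c
  set G := J.filter fun j => Disjoint (M j) W with hG
  have hGJ : G ⊆ J := Finset.filter_subset _ _
  have h4 := two G hGJ
  have h5 : (J \ G).card ≤ k * W.card := by
    have h6 := (h2 n k J (J \ G) M W hR Finset.sdiff_subset).2
    refine le_trans ?_ h6
    rw [Finset.card_eq_sum_ones]
    refine Finset.sum_le_sum fun j hj => ?_
    rw [Nat.one_le_iff_ne_zero]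
    intro h7
    rw [Finset.mem_sdiff, hG, Finset.mem_filter, not_and] at hj
    exact hj.2 hj.1 (Finset.disjoint_iff_inter_eq_empty.mpr (Finset.card_eq_zero.mp h7))
  have h6 : 0 ≤ mn (zf G M a) := lp_mn0 _ fun A => (lp_zf01 _ M a A).1
  have h7 : (5 / 6 : ℝ) ≤ (1 - (3 / 5 : ℝ) ^ m) ^ k := by
    have h8 := one_add_mul_le_pow (a := -(3 / 5 : ℝ) ^ m) (by linarith) k
    have h9 : (k : ℝ) * (3 / 5 : ℝ) ^ m ≤ 1 / 6 := by linarith
    rw [← sub_eq_add_neg] at h8
    linarith
  have h8 : (5 / 6 : ℝ) ^ W.card ≤ (1 - (3 / 5 : ℝ) ^ m) ^ (J \ G).card := by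
    calc (5 / 6 : ℝ) ^ W.card ≤ ((1 - (3 / 5 : ℝ) ^ m) ^ k) ^ W.card :=
          pow_le_pow_left₀ (by norm_num) h7 _
      _ = (1 - (3 / 5 : ℝ) ^ m) ^ (k * W.card) := by rw [← pow_mul]
      _ ≤ (1 - (3 / 5 : ℝ) ^ m) ^ (J \ G).card :=
          pow_le_pow_of_le_one (by linarith) (by linarith) h5
  have h9 : (5 / 6 : ℝ) ^ W.card * mn (zf G M a) ≤ mn (zf J M a) :=
    (mul_le_mul_of_nonneg_right h8 h6).trans h4
  have h10 : (1 / 2 : ℝ) ^ W.card * mn (zf G M a) =
      (3 / 5 : ℝ) ^ W.card * ((5 / 6 : ℝ) ^ W.card * mn (zf G M a)) := by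
    rw [← mul_assoc, ← mul_pow]
    norm_num
  rw [h10] at h3
  exact h3.trans (mul_le_mul_of_nonneg_left h9 (by positivity))

end Pool.Agent.MP3145b1.F
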