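import Pool.Agent.Lib.MP_3145b1_co.F.Spec

/-!
# Triangle inequality for the mixed norm
-/

set_option autoImplicit false

namespace Pool.Agent.MP3145b1.F

open Finset

private theorem sqrt_add_le {κ : Type} (s : Finset κ) (a b : κ → ℝ) :
    Real.sqrt (∑ i ∈ s, (a i + b i) ^ 2) ≤
      Real.sqrt (∑ i ∈ s, a i ^ 2) + Real.sqrt (∑ i ∈ s, b i ^ 2) := by
  have hA : 0 ≤ ∑ i ∈ s, a i ^ 2 := Finset.sum_nonneg fun i _ => sq_nonneg _
  have hB : 0 ≤ ∑ i ∈ s, b i ^ 2 := Finset.sum_nonneg fun i _ => sq_nonneg _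
  rw [Real.sqrt_le_left (by positivity)]
  have h1 := Real.sum_mul_le_sqrt_mul_sqrt s a b
  have h2 : ∑ i ∈ s, (a i + b i) ^ 2 =
      ∑ i ∈ s, a i ^ 2 + 2 * ∑ i ∈ s, a i * b i + ∑ i ∈ s, b i ^ 2 := by
    rw [Finset.mul_sum, ← Finset.sum_add_distrib, ← Finset.sum_add_distrib]
    refine Finset.sum_congr rfl fun i _ => ?_
    ring
  rw [h2, add_sq, Real.sq_sqrt hA, Real.sq_sqrt hB]
  linarith

private theorem sqrt_sum_le {κ ι : Type} (s : Finset κ) (I : Finset ι) (c : ι → ℝ)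
    (x : ι → κ → ℝ) :
    Real.sqrt (∑ r ∈ s, (∑ i ∈ I, c i * x i r) ^ 2) ≤
      ∑ i ∈ I, |c i| * Real.sqrt (∑ r ∈ s, x i r ^ 2) := by
  classical
  induction I using Finset.induction_on with
  | empty => simp
  | insert i I hi ih =>
    simp only [Finset.sum_insert hi]
    refine (sqrt_add_le s _ _).trans (add_le_add (le_of_eq ?_) ih)
    have : ∑ r ∈ s, (c i * x i r) ^ 2 = c i ^ 2 * ∑ r ∈ s, x i r ^ 2 := by
      rw [Finset.mul_sum]
      refine Finset.sum_congr rfl fun r _ => ?_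
      ring
    rw [this, Real.sqrt_mul (sq_nonneg _), Real.sqrt_sq_eq_abs]

private theorem fc_sum {n : ℕ} {ι : Type} (I : Finset ι) (c : ι → ℝ)
    (g : ι → Finset (Fin n) → ℝ) (S : Finset (Fin n)) :
    fc (fun A => ∑ i ∈ I, c i * g i A) S = ∑ i ∈ I, c i * fc (g i) S := by
  unfold fc
  simp only [Finset.sum_mul, Finset.mul_sum]
  rw [Finset.sum_comm]
  refine Finset.sum_congr rfl fun i _ => Finset.sum_congr rfl fun A _ => ?_
  ring

theorem lSum : S_LSum := by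
  intro n ι I U c g
  unfold LU
  simp only [fc_sum, Finset.mul_sum]
  rw [Finset.sum_comm]
  refine Finset.sum_le_sum fun s _ => ?_
  exact sqrt_sum_le _ I c (fun i R => fc (g i) (s ∪ R))

end Pool.Agent.MP3145b1.F
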