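import Pool.Agent.Lib.MP_3145b1_co.F.Spec

/-!
# MP_3145b1_co, mixed norm of a term times a function (`S_LTerm`)
-/

set_option autoImplicit false

namespace Pool.Agent.MP3145b1.F

open Finset

private theorem ltAux_split {n : ℕ} (V W : Finset (Fin n)) (h : Disjoint V W)
    (F : Finset (Fin n) → ℝ) :
    ∑ B ∈ (V ∪ W).powerset, F B = ∑ B ∈ V.powerset, ∑ C ∈ W.powerset, F (B ∪ C) := by
  rw [← Finset.sum_product']
  refine Finset.sum_nbij' (fun B => (B ∩ V, B ∩ W)) (fun p => p.1 ∪ p.2) ?_ ?_ ?_ ?_ ?_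
  · intro B _
    rw [Finset.mem_product, Finset.mem_powerset, Finset.mem_powerset]
    exact ⟨Finset.inter_subset_right, Finset.inter_subset_right⟩
  · intro p hp
    rw [Finset.mem_product, Finset.mem_powerset, Finset.mem_powerset] at hp
    rw [Finset.mem_powerset]
    exact Finset.union_subset_union hp.1 hp.2
  · intro B hB
    rw [Finset.mem_powerset] at hB
    change B ∩ V ∪ B ∩ W = B
    rw [← Finset.inter_union_distrib_left]
    exact Finset.inter_eq_left.2 hB
  · rintro ⟨p, q⟩ hp
    rw [Finset.mem_product, Finset.mem_powerset, Finset.mem_powerset] at hp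
    change ((p ∪ q) ∩ V, (p ∪ q) ∩ W) = (p, q)
    have h1 : (p ∪ q) ∩ V = p := by
      rw [Finset.union_inter_distrib_right, Finset.inter_eq_left.2 hp.1,
        Finset.disjoint_iff_inter_eq_empty.1 (Finset.disjoint_of_subset_left hp.2 h.symm),
        Finset.union_empty]
    have h2 : (p ∪ q) ∩ W = q := by
      rw [Finset.union_inter_distrib_right, Finset.inter_eq_left.2 hp.2,
        Finset.disjoint_iff_inter_eq_empty.1 (Finset.disjoint_of_subset_left hp.1 h),
        Finset.empty_union]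
    rw [h1, h2]
  · intro B hB
    rw [Finset.mem_powerset] at hB
    change F B = F (B ∩ V ∪ B ∩ W)
    rw [← Finset.inter_union_distrib_left, Finset.inter_eq_left.2 hB]

private theorem ltAux_univ {n : ℕ} (U : Finset (Fin n)) (F : Finset (Fin n) → ℝ) :
    ∑ A : Finset (Fin n), F A = ∑ B ∈ U.powerset, ∑ C ∈ (Uᶜ).powerset, F (B ∪ C) := by
  rw [← ltAux_split U Uᶜ disjoint_compl_right, Finset.union_compl, Finset.powerset_univ]

/-- Character sums. -/
private theorem ltAux_chi {n : ℕ} (V s : Finset (Fin n)) :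
    ∑ B ∈ V.powerset, (-1 : ℝ) ^ (s ∩ B).card = if Disjoint s V then 2 ^ V.card else 0 := by
  have h1 : ∀ B : Finset (Fin n), (-1 : ℝ) ^ (s ∩ B).card =
      ∏ i ∈ B, if i ∈ s then (-1 : ℝ) else 1 := by
    intro B
    rw [Finset.prod_ite_mem, Finset.prod_const, Finset.inter_comm]
  rw [Finset.sum_congr rfl fun B _ => h1 B, ← Finset.prod_one_add]
  by_cases h : Disjoint s V
  · rw [if_pos h]
    have h3 : ∀ i ∈ V, (1 + if i ∈ s then (-1 : ℝ) else 1) = 2 := by
      intro i hi
      rw [if_neg fun hs => Finset.disjoint_left.1 h hs hi]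
      norm_num
    rw [Finset.prod_congr rfl h3, Finset.prod_const]
  · rw [if_neg h]
    obtain ⟨i, hi, hi'⟩ := Finset.not_disjoint_iff.1 h
    refine Finset.prod_eq_zero hi' ?_
    rw [if_pos hi]
    norm_num

private theorem ltAux_card {n : ℕ} {U s R B C : Finset (Fin n)} (hs : s ⊆ U) (hR : R ⊆ Uᶜ)
    (hB : B ⊆ U) (hC : C ⊆ Uᶜ) :
    ((s ∪ R) ∩ (B ∪ C)).card = (s ∩ B).card + (R ∩ C).card := by
  have h1 : (s ∪ R) ∩ (B ∪ C) = (s ∩ B) ∪ (R ∩ C) := by
    ext i
    have a1 := @hs i
    have a2 := @hR i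
    have a3 := @hB i
    have a4 := @hC i
    simp only [Finset.mem_compl] at a2 a4
    simp only [Finset.mem_inter, Finset.mem_union]
    tauto
  rw [h1, Finset.card_union_of_disjoint]
  refine Finset.disjoint_of_subset_left (Finset.inter_subset_left.trans hs)
    (Finset.disjoint_of_subset_right (Finset.inter_subset_left.trans hR) disjoint_compl_right)

/-- The first factor. -/
private theorem ltAux_F1 {n : ℕ} (U M a s : Finset (Fin n)) (ha : a ⊆ M) (hs : s ⊆ U) :
    ∑ B ∈ U.powerset, (if B ∩ M = a ∩ U then (1 : ℝ) else 0) * (-1 : ℝ) ^ (s ∩ B).card =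
      if s ⊆ M then (-1) ^ (s ∩ a).card * 2 ^ (U \ M).card else 0 := by
  have hU : (U ∩ M) ∪ (U \ M) = U := by
    rw [Finset.union_comm]
    exact Finset.sdiff_union_inter U M
  have hd : Disjoint (U ∩ M) (U \ M) :=
    Finset.disjoint_of_subset_left Finset.inter_subset_right Finset.disjoint_sdiff
  conv_lhs => rw [← hU]
  rw [ltAux_split _ _ hd, hU]
  have h1 : ∀ B ∈ (U ∩ M).powerset, ∑ C ∈ (U \ M).powerset,
      (if (B ∪ C) ∩ M = a ∩ U then (1 : ℝ) else 0) * (-1 : ℝ) ^ (s ∩ (B ∪ C)).card =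
      if B = a ∩ U then (-1 : ℝ) ^ (s ∩ (a ∩ U)).card *
        ∑ C ∈ (U \ M).powerset, (-1 : ℝ) ^ (s ∩ C).card else 0 := by
    intro B hB
    rw [Finset.mem_powerset] at hB
    have h2 : ∀ C ∈ (U \ M).powerset, (B ∪ C) ∩ M = B := by
      intro C hC
      rw [Finset.mem_powerset] at hC
      have h3 : C ∩ M = ∅ := Finset.disjoint_iff_inter_eq_empty.1
        (Finset.disjoint_of_subset_left hC Finset.sdiff_disjoint)
      rw [Finset.union_inter_distrib_right, h3, Finset.union_empty]
      exact Finset.inter_eq_left.2 (hB.trans Finset.inter_subset_right)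
    by_cases hBa : B = a ∩ U
    · rw [if_pos hBa, Finset.mul_sum]
      refine Finset.sum_congr rfl fun C hC => ?_
      rw [h2 C hC, if_pos hBa, one_mul, ← pow_add, ← hBa]
      congr 1
      rw [Finset.inter_union_distrib_left, Finset.card_union_of_disjoint]
      rw [Finset.mem_powerset] at hC
      refine Finset.disjoint_of_subset_left (Finset.inter_subset_right.trans hB)
        (Finset.disjoint_of_subset_right (Finset.inter_subset_right.trans hC) hd)
    · rw [if_neg hBa]
      refine Finset.sum_eq_zero fun C hC => ?_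
      rw [h2 C hC, if_neg hBa, zero_mul]
  rw [Finset.sum_congr rfl h1, Finset.sum_ite_eq', if_pos]
  · rw [ltAux_chi]
    have h3 : s ∩ (a ∩ U) = s ∩ a := by
      ext i
      have := @hs i
      simp only [Finset.mem_inter]
      tauto
    rw [h3]
    by_cases hsM : s ⊆ M
    · rw [if_pos hsM, if_pos (Finset.disjoint_of_subset_left hsM Finset.disjoint_sdiff)]
    · rw [if_neg hsM, if_neg, mul_zero]
      obtain ⟨i, hi, hi'⟩ := Finset.not_subset.1 hsM
      exact Finset.not_disjoint_iff.2 ⟨i, hi, Finset.mem_sdiff.2 ⟨hs hi, hi'⟩⟩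
  · rw [Finset.mem_powerset, Finset.inter_comm]
    exact Finset.inter_subset_inter_left ha

/-- The coefficients. -/
private theorem ltAux_fc {n : ℕ} (U M a s R : Finset (Fin n)) (u : Finset (Fin n) → ℝ)
    (ha : a ⊆ M) (hs : s ⊆ U) (hR : R ⊆ Uᶜ) (hu : ∀ A, u (A \ U) = u A) :
    fc (fun A => tm M a A * u A) (s ∪ R) ^ 2 = if s ⊆ M then
      ((1 / 2 : ℝ) ^ (U ∩ M).card) ^ 2 * fc (fun A => tm (M \ U) (a \ U) A * u A) R ^ 2
      else 0 := by
  have hCU : ∀ B ⊆ U, ∀ C ⊆ Uᶜ, (B ∪ C) \ U = C := by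
    intro B hB C hC
    rw [Finset.union_sdiff_distrib, Finset.sdiff_eq_empty_iff_subset.2 hB, Finset.empty_union]
    exact Finset.sdiff_eq_self_of_disjoint
      (Finset.disjoint_of_subset_left hC disjoint_compl_left)
  have huC : ∀ B ⊆ U, ∀ C ⊆ Uᶜ, u (B ∪ C) = u C := by
    intro B hB C hC
    rw [← hu (B ∪ C), hCU B hB C hC]
  obtain ⟨F2, hF2⟩ : ∃ x : ℝ, x = ∑ C ∈ (Uᶜ).powerset,
    (if C ∩ M = a \ U then (1 : ℝ) else 0) * u C * (-1 : ℝ) ^ (R ∩ C).card := ⟨_, rfl⟩
  have hB' : ∀ B ⊆ U, ∀ C ⊆ Uᶜ, ((B ∪ C) ∩ M = a ↔ B ∩ M = a ∩ U ∧ C ∩ M = a \ U) := by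
    intro B hB C hC
    constructor
    · intro h
      constructor
      · rw [← h]
        ext i
        have a3 := @hB i
        have a4 := @hC i
        simp only [Finset.mem_compl] at a4
        simp only [Finset.mem_inter, Finset.mem_union]
        tauto
      · rw [← h]
        ext i
        have a3 := @hB i
        have a4 := @hC i
        simp only [Finset.mem_compl] at a4
        simp only [Finset.mem_inter, Finset.mem_union, Finset.mem_sdiff]
        tauto
    · rintro ⟨h1, h2⟩
      rw [Finset.union_inter_distrib_right, h1, h2, Finset.union_comm]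
      exact Finset.sdiff_union_inter a U
  have h1 : fc (fun A => tm M a A * u A) (s ∪ R) = (1 / 2 : ℝ) ^ n *
      ((if s ⊆ M then (-1) ^ (s ∩ a).card * 2 ^ (U \ M).card else 0) * F2) := by
    rw [fc, ltAux_univ U, ← ltAux_F1 U M a s ha hs, hF2, Finset.sum_mul_sum]
    congr 1
    refine Finset.sum_congr rfl fun B hB => Finset.sum_congr rfl fun C hC => ?_
    rw [Finset.mem_powerset] at hB hC
    rw [ltAux_card hs hR hB hC, huC B hB C hC, pow_add, tm]
    by_cases h2 : B ∩ M = a ∩ U
    · by_cases h3 : C ∩ M = a \ U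
      · rw [if_pos ((hB' B hB C hC).2 ⟨h2, h3⟩), if_pos h2, if_pos h3]
        ring
      · rw [if_neg fun h => h3 ((hB' B hB C hC).1 h).2, if_neg h3]
        ring
    · rw [if_neg fun h => h2 ((hB' B hB C hC).1 h).1, if_neg h2]
      ring
  have h2 : fc (fun A => tm (M \ U) (a \ U) A * u A) R = (1 / 2 : ℝ) ^ n * (2 ^ U.card * F2) := by
    have h3 : (2 : ℝ) ^ U.card = ∑ B ∈ U.powerset, (1 : ℝ) := by
      rw [Finset.sum_const, Finset.card_powerset, nsmul_eq_mul, mul_one]
      norm_cast
    rw [fc, ltAux_univ U, hF2, h3, Finset.sum_mul_sum]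
    congr 1
    refine Finset.sum_congr rfl fun B hB => Finset.sum_congr rfl fun C hC => ?_
    rw [Finset.mem_powerset] at hB hC
    have h4 : R ∩ (B ∪ C) = R ∩ C := by
      ext i
      have a2 := @hR i
      have a3 := @hB i
      simp only [Finset.mem_compl] at a2
      simp only [Finset.mem_inter, Finset.mem_union]
      tauto
    have h5 : (B ∪ C) ∩ (M \ U) = C ∩ M := by
      ext i
      have a3 := @hB i
      have a4 := @hC i
      simp only [Finset.mem_compl] at a4
      simp only [Finset.mem_inter, Finset.mem_union, Finset.mem_sdiff]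
      tauto
    rw [h4, huC B hB C hC, tm, h5]
    ring
  rw [h1, h2]
  by_cases hsM : s ⊆ M
  · rw [if_pos hsM, if_pos hsM]
    have h3 : (U ∩ M).card + (U \ M).card = U.card := Finset.card_inter_add_card_sdiff U M
    have h4 : (1 / 2 : ℝ) ^ (U ∩ M).card * 2 ^ U.card = 2 ^ (U \ M).card := by
      rw [← h3, pow_add, ← mul_assoc, ← mul_pow]
      norm_num
    have h5 : ((-1 : ℝ) ^ (s ∩ a).card) ^ 2 = 1 := by
      rw [← pow_mul, mul_comm, pow_mul]
      norm_num
    rw [← h4]
    calc ((1 / 2 : ℝ) ^ n * ((-1) ^ (s ∩ a).card * ((1 / 2) ^ (U ∩ M).card * 2 ^ U.card) *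
          F2)) ^ 2
        = ((-1 : ℝ) ^ (s ∩ a).card) ^ 2 * (((1 / 2 : ℝ) ^ (U ∩ M).card) ^ 2 *
          ((1 / 2 : ℝ) ^ n * (2 ^ U.card * F2)) ^ 2) := by ring
      _ = _ := by rw [h5, one_mul]
  · rw [if_neg hsM, if_neg hsM]
    ring

theorem lTerm : S_LTerm := by
  intro n U M a u hu
  by_cases ha : a ⊆ M
  · have h1 : ∀ s ∈ U.powerset, Real.sqrt (∑ R ∈ (Uᶜ).powerset,
        fc (fun A => tm M a A * u A) (s ∪ R) ^ 2) ≤ if s ⊆ M then (1 / 2 : ℝ) ^ (U ∩ M).card *
          Real.sqrt (mn (fun A => tm (M \ U) (a \ U) A * u A ^ 2)) else 0 := by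
      intro s hs
      rw [Finset.mem_powerset] at hs
      rw [Finset.sum_congr rfl fun R hR => ltAux_fc U M a s R u ha hs
        (Finset.mem_powerset.1 hR) hu]
      by_cases hsM : s ⊆ M
      · rw [if_pos hsM]
        simp only [if_pos hsM]
        rw [← Finset.mul_sum, Real.sqrt_mul (sq_nonneg _), Real.sqrt_sq (by positivity)]
        refine mul_le_mul_of_nonneg_left (Real.sqrt_le_sqrt ?_) (by positivity)
        refine le_trans (Finset.sum_le_sum_of_subset_of_nonneg (Finset.subset_univ _)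
          fun R _ _ => sq_nonneg _) ?_
        rw [par n, mn]
        refine le_of_eq ?_
        congr 1
        refine Finset.sum_congr rfl fun A _ => ?_
        rw [tm]
        split_ifs <;> ring
      · rw [if_neg hsM]
        simp only [if_neg hsM]
        rw [Finset.sum_const_zero, Real.sqrt_zero]
    refine le_trans (Finset.sum_le_sum h1) ?_
    rw [← Finset.sum_filter, Finset.sum_const, nsmul_eq_mul]
    have h2 : (U.powerset.filter fun s => s ⊆ M) = (U ∩ M).powerset := by
      ext s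
      rw [Finset.mem_filter, Finset.mem_powerset, Finset.mem_powerset, Finset.subset_inter_iff]
    rw [h2, Finset.card_powerset, ← mul_assoc]
    have h3 : ((2 ^ (U ∩ M).card : ℕ) : ℝ) * (1 / 2 : ℝ) ^ (U ∩ M).card = 1 := by
      push_cast
      rw [← mul_pow]
      norm_num
    rw [h3, one_mul]
  · have h1 : ∀ A, tm M a A * u A = 0 := by
      intro A
      rw [tm, if_neg, zero_mul]
      intro h
      exact ha (h ▸ Finset.inter_subset_right)
    have h2 : ∀ S, fc (fun A => tm M a A * u A) S = 0 := by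
      intro S
      rw [fc]
      simp only [h1, zero_mul, Finset.sum_const_zero, mul_zero]
    rw [LU]
    simp only [h2]
    simp

end Pool.Agent.MP3145b1.F
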