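import Pool.Agent.Lib.MP_3145b1_co.F.Spec

/-!
# MP_3145b1_co, F: assembly, XOR of terms
-/

set_option autoImplicit false

namespace Pool.Agent.MP3145b1.F

open Finset

variable {n : ℕ}

theorem main_par (f : Finset (Fin n) → ℝ) :
    ∑ S : Finset (Fin n), fc f S ^ 2 = mn (fun A => f A ^ 2) := par n f

theorem main_mn_le_one {f : Finset (Fin n) → ℝ} (h : ∀ A, f A ≤ 1) : mn f ≤ 1 := by
  unfold mn
  have h1 : ∑ A : Finset (Fin n), f A ≤ ∑ _A : Finset (Fin n), (1 : ℝ) :=
    Finset.sum_le_sum fun A _ => h A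
  rw [Finset.sum_const, nsmul_eq_mul, mul_one, Finset.card_univ, Fintype.card_finset,
    Fintype.card_fin] at h1
  push_cast at h1
  calc (1 / 2 : ℝ) ^ n * ∑ A : Finset (Fin n), f A ≤ (1 / 2 : ℝ) ^ n * 2 ^ n :=
        mul_le_mul_of_nonneg_left h1 (by positivity)
    _ = 1 := by rw [← mul_pow]; norm_num

theorem main_Cv_le (hLx : S_Lx) (v : Fin n) (f : Finset (Fin n) → ℝ) :
    Cv v f ≤ ∑ S : Finset (Fin n), |fc (av v f) S * fc (df v f) S| := by
  unfold Cv
  exact Finset.sum_le_sum fun S _ => hLx _ _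

theorem main_cs (v : Fin n) (f : Finset (Fin n) → ℝ) (hf : ∀ A, |f A| ≤ 1) :
    ∑ S : Finset (Fin n), |fc (av v f) S * fc (df v f) S| ≤
      Real.sqrt (∑ S : Finset (Fin n), fc (df v f) S ^ 2) := by
  have h1 : ∑ S : Finset (Fin n), |fc (av v f) S * fc (df v f) S| ≤
      Real.sqrt (∑ S : Finset (Fin n), |fc (av v f) S| ^ 2) *
        Real.sqrt (∑ S : Finset (Fin n), |fc (df v f) S| ^ 2) := by
    have h2 := Real.sum_mul_le_sqrt_mul_sqrt (univ : Finset (Finset (Fin n)))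
      (fun S => |fc (av v f) S|) (fun S => |fc (df v f) S|)
    refine le_trans (le_of_eq ?_) h2
    exact Finset.sum_congr rfl fun S _ => abs_mul _ _
  simp only [sq_abs] at h1
  have h3 : ∑ S : Finset (Fin n), fc (av v f) S ^ 2 ≤ 1 := by
    rw [main_par]
    apply main_mn_le_one
    intro A
    have h4 : |av v f A| ≤ 1 := by
      unfold av
      have h5 := hf (A.erase v)
      have h6 := hf (insert v A)
      rw [abs_le] at h5 h6 ⊢
      constructor <;> linarith [h5.1, h5.2, h6.1, h6.2]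
    rw [← sq_abs]
    exact pow_le_one₀ (abs_nonneg _) h4
  refine h1.trans ?_
  calc Real.sqrt (∑ S : Finset (Fin n), fc (av v f) S ^ 2) *
        Real.sqrt (∑ S : Finset (Fin n), fc (df v f) S ^ 2)
      ≤ 1 * Real.sqrt (∑ S : Finset (Fin n), fc (df v f) S ^ 2) := by
        apply mul_le_mul_of_nonneg_right _ (Real.sqrt_nonneg _)
        rw [Real.sqrt_le_one]
        exact h3
    _ = _ := one_mul _

theorem main_sqrt_le {x b : ℝ} (hb : 0 < b) (hb1 : b ≤ 1) (hx : b ≤ x) :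
    Real.sqrt x ≤ x / b := by
  have hx0 : 0 < x := lt_of_lt_of_le hb hx
  rw [Real.sqrt_le_left (by positivity)]
  rw [div_pow, le_div_iff₀ (by positivity)]
  nlinarith [mul_pos hb hx0, mul_le_mul hx (le_refl b) hb.le hx0.le]

theorem xf_abs (q : Finset (Fin n) → ZMod 2) (J : Finset ℕ) (M a : ℕ → Finset (Fin n))
    (A : Finset (Fin n)) : |xf q J M a A| ≤ 1 := by
  unfold xf
  rw [abs_mul, Finset.abs_prod]
  have h1 : |(if q A = 0 then (1 : ℝ) else -1)| ≤ 1 := by
    split_ifs <;> simp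
  have h2 : ∏ j ∈ J, |1 - 2 * tm (M j) (a j) A| ≤ 1 := by
    apply Finset.prod_le_one
    · intro j _
      exact abs_nonneg _
    · intro j _
      unfold tm
      split_ifs <;> norm_num
  calc |(if q A = 0 then (1 : ℝ) else -1)| * ∏ j ∈ J, |1 - 2 * tm (M j) (a j) A| ≤ 1 * 1 :=
        mul_le_mul h1 h2 (Finset.prod_nonneg fun j _ => abs_nonneg _) zero_le_one
    _ = 1 := one_mul 1

theorem mainA (hDesc : S_Desc) (hLx : S_Lx) (hPolB : S_PolB) (hResA : S_ResA) (hMinA : S_MinA)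
    (hInfA : S_InfA) (hCostA : S_CostA) : S_MainA := by
  intro k d
  set K : ℕ := max k 1 with hK
  have hK1 : 1 ≤ K := le_max_right _ _
  set D : ℕ := max d (15 * K ^ 2 + 1) with hD
  set C1 : ℝ := K * Real.exp (10 * K ^ 2) * 2 * 2 ^ (K ^ 2) with hC1
  set C2 : ℝ := 2 ^ (D + K ^ 2) with hC2
  have hC1p : 0 ≤ C1 := by positivity
  have hC2p : 0 ≤ C2 := by positivity
  refine ⟨5 + (C1 + C2), by positivity, ?_⟩
  intro n W f hf
  have hf' : PA K D W f := by
    obtain ⟨q, J, M, a, h1, h2, h3, h4⟩ := hf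
    refine ⟨q, J, M, a, ?_, ?_, h3, h4⟩
    · exact (hPolB n d W q).2.2.1 D W (le_max_left _ _) (Finset.Subset.refl _) h1
    · intro v
      exact (h2 v).trans (le_max_left _ _)
  refine hDesc n (C1 + C2) (fun W f => PA K D W f) (by positivity) ?_ W f hf'
  clear hf hf' f W
  intro W f hf
  obtain ⟨q, J, M, a, hq, hRd, hsub, hfe, hwide, hmin⟩ := hMinA n K D W f hf
  have hfabs : ∀ A, |f A| ≤ 1 := fun A => by rw [hfe]; exact xf_abs q J M a A
  by_cases hq1 : ∃ v ∈ W, dv v q ≠ 0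
  · obtain ⟨v, hv, hdv⟩ := hq1
    right
    refine ⟨v, hv, (hResA n K D W f v hf).1, (hResA n K D W f v hf).2, ?_⟩
    have h1 := hInfA n K D D W q J M a v hq hRd (fun j hj => (hsub j hj).1) le_rfl
      (fun s => hmin v s) (Or.inl hdv)
    rw [← hfe, ← main_par] at h1
    have h2 := (main_Cv_le hLx v f).trans (main_cs v f hfabs)
    have h3 := main_sqrt_le (b := (1 / 2 : ℝ) ^ (D + K ^ 2)) (by positivity)
      (pow_le_one₀ (by norm_num) (by norm_num)) h1
    have h4 : (∑ S : Finset (Fin n), fc (df v f) S ^ 2) / (1 / 2 : ℝ) ^ (D + K ^ 2) =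
        C2 * ∑ S : Finset (Fin n), fc (df v f) S ^ 2 := by
      rw [hC2, one_div, inv_pow, div_inv_eq_mul, mul_comm]
    have h5 : 0 ≤ ∑ S : Finset (Fin n), fc (df v f) S ^ 2 :=
      Finset.sum_nonneg fun S _ => sq_nonneg _
    calc Cv v f ≤ _ := h2
      _ ≤ _ := h3
      _ = C2 * ∑ S : Finset (Fin n), fc (df v f) S ^ 2 := h4
      _ ≤ (C1 + C2) * ∑ S : Finset (Fin n), fc (df v f) S ^ 2 := by
        apply mul_le_mul_of_nonneg_right _ h5
        linarith
  · push Not at hq1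
    have hqc := (hPolB n D W q).2.2.2 hq hq1
    rcases J.eq_empty_or_nonempty with hJ | hJ
    · left
      refine ⟨if q ∅ = 0 then 1 else -1, ?_, ?_⟩
      · split_ifs
        · exact Or.inl rfl
        · exact Or.inr rfl
      · intro A
        rw [hfe]
        unfold xf
        rw [hJ, Finset.prod_empty, mul_one, hqc A]
    · right
      obtain ⟨j₀, hj₀, hj₀min⟩ := Finset.exists_min_image J (fun j => (M j).card) hJ
      have hw1 : D < (M j₀).card := hwide j₀ hj₀
      obtain ⟨v, hv⟩ : (M j₀).Nonempty := Finset.card_pos.mp (by omega)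
      have hvW : v ∈ W := (hsub j₀ hj₀).2 hv
      refine ⟨v, hvW, (hResA n K D W f v hf).1, (hResA n K D W f v hf).2, ?_⟩
      have h1 := hInfA n K D (M j₀).card W q J M a v hq hRd (fun j hj => (hsub j hj).1) hw1.le
        (fun s => hmin v s) (Or.inr ⟨j₀, hj₀, hv, le_rfl⟩)
      rw [← hfe, ← main_par] at h1
      have hD2 : 15 * K ^ 2 + 1 ≤ D := le_max_right _ _
      have h2 := hCostA n K (M j₀).card J M a v (if q ∅ = 0 then 1 else -1) hK1 (by omega) hRd
        (fun j hj => (hsub j hj).1) (fun j hj => hj₀min j hj) (by split_ifs <;> simp) f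
        (by
          intro A
          rw [hfe]
          unfold xf
          rw [hqc A])
      have h3 := (main_Cv_le hLx v f).trans h2
      have h5 : 0 ≤ ∑ S : Finset (Fin n), fc (df v f) S ^ 2 :=
        Finset.sum_nonneg fun S _ => sq_nonneg _
      have h6 : (K : ℝ) * Real.exp (10 * K ^ 2) * (1 / 2 : ℝ) ^ ((M j₀).card - 1) =
          C1 * (1 / 2 : ℝ) ^ ((M j₀).card + K ^ 2) := by
        obtain ⟨m, hm⟩ : ∃ m, (M j₀).card = m + 1 := ⟨(M j₀).card - 1, by omega⟩
        rw [hm, Nat.add_sub_cancel, hC1]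
        have h7 : (1 / 2 : ℝ) ^ (m + 1 + K ^ 2) = (1 / 2 : ℝ) ^ m * (1 / 2) * (1 / 2) ^ (K ^ 2) := by
          rw [pow_add, pow_succ]
        rw [h7]
        have h8 : (2 : ℝ) ^ (K ^ 2) * (1 / 2) ^ (K ^ 2) = 1 := by
          rw [← mul_pow]; norm_num
        calc (K : ℝ) * Real.exp (10 * K ^ 2) * (1 / 2 : ℝ) ^ m
            = (K : ℝ) * Real.exp (10 * K ^ 2) * (1 / 2 : ℝ) ^ m *
                ((2 : ℝ) ^ (K ^ 2) * (1 / 2) ^ (K ^ 2)) := by rw [h8, mul_one]
          _ = _ := by ring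
      calc Cv v f ≤ _ := h3
        _ = C1 * (1 / 2 : ℝ) ^ ((M j₀).card + K ^ 2) := h6
        _ ≤ C1 * ∑ S : Finset (Fin n), fc (df v f) S ^ 2 :=
          mul_le_mul_of_nonneg_left h1 hC1p
        _ ≤ (C1 + C2) * ∑ S : Finset (Fin n), fc (df v f) S ^ 2 := by
          apply mul_le_mul_of_nonneg_right _ h5
          linarith

end Pool.Agent.MP3145b1.F
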