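import Pool.Agent.Lib.MP_3145b1_co.F.MainA

/-!
# MP_3145b1_co, F: assembly, DNFs
-/

set_option autoImplicit false

namespace Pool.Agent.MP3145b1.F

open Finset

variable {n : ℕ}

theorem main_zf_nonneg (J : Finset ℕ) (M a : ℕ → Finset (Fin n)) (A : Finset (Fin n)) :
    0 ≤ zf J M a A := by
  unfold zf tm
  apply Finset.prod_nonneg
  intro j _
  split_ifs <;> norm_num

theorem main_mn_nonneg {f : Finset (Fin n) → ℝ} (h : ∀ A, 0 ≤ f A) : 0 ≤ mn f := by
  unfold mn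
  exact mul_nonneg (by positivity) (Finset.sum_nonneg fun A _ => h A)

theorem mainB (hDesc : S_Desc) (hLx : S_Lx) (hResB : S_ResB) (hMinB : S_MinB)
    (hInfB : S_InfB) (hCostB : S_CostB) (hShortB : S_ShortB) : S_MainB := by
  intro k
  obtain ⟨w1, c, hc, hI⟩ := hInfB k
  obtain ⟨w2, C2, hC2, hCo⟩ := hCostB k
  set w₀ : ℕ := max w1 w2 with hw₀
  set C3 : ℝ := 2 * (w₀ * 2 ^ w₀) with hC3
  have hC3p : 0 ≤ C3 := by positivity
  have hC2c : 0 ≤ C2 / c := by positivity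
  refine ⟨5 + (1 + C2 / c + C3), by positivity, ?_⟩
  intro n W f hf
  refine hDesc n (1 + C2 / c + C3) (fun W f => PB k W f) (by positivity) ?_ W f hf
  clear hf f W
  intro W f hf
  have hclosed : ∀ v : Fin n, PB k (W.erase v) (r0 v f) ∧ PB k (W.erase v) (r1 v f) := by
    intro v
    obtain ⟨J, M, a, h1, h2, h3⟩ := hf
    obtain ⟨⟨J0, M0, a0, h4, h5, h6⟩, ⟨J1, M1, a1, h7, h8, h9⟩⟩ :=
      hResB n k 0 W J M a v h1 (fun j hj => ⟨(h2 j hj).1, (h2 j hj).2, Nat.zero_le _⟩)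
    refine ⟨⟨J0, M0, a0, h4, fun j hj => ⟨(h5 j hj).1, (h5 j hj).2.1⟩, ?_⟩,
      ⟨J1, M1, a1, h7, fun j hj => ⟨(h8 j hj).1, (h8 j hj).2.1⟩, ?_⟩⟩
    · funext A
      rw [← h6 A, h3]
      rfl
    · funext A
      rw [← h9 A, h3]
      rfl
  obtain ⟨J, M, a, hRd, hsub, hfe, hmin⟩ := hMinB n k W f hf
  rcases J.eq_empty_or_nonempty with hJ | hJ
  · left
    refine ⟨1, Or.inl rfl, ?_⟩
    intro A
    rw [hfe]
    simp only [hJ, zf, Finset.prod_empty]
    norm_num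
  by_cases hemp : ∃ j ∈ J, M j = ∅
  · obtain ⟨j, hj, hMj⟩ := hemp
    left
    refine ⟨-1, Or.inr rfl, ?_⟩
    intro A
    rw [hfe]
    have h1 : zf J M a A = 0 := by
      unfold zf
      apply Finset.prod_eq_zero hj
      have h2 : a j = ∅ := Finset.subset_empty.mp (hMj ▸ (hsub j hj).1)
      unfold tm
      rw [hMj, h2, Finset.inter_empty, if_pos rfl, sub_self]
    simp only [h1]
    norm_num
  push Not at hemp
  right
  obtain ⟨j₀, hj₀, hj₀min⟩ := Finset.exists_min_image J (fun j => (M j).card) hJ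
  have hne : (M j₀).Nonempty := hemp j₀ hj₀
  have hDnn : ∀ v : Fin n, 0 ≤ mn (fun A => df v (fun A => 2 * zf J M a A - 1) A ^ 2) :=
    fun v => main_mn_nonneg fun A => sq_nonneg _
  have hpnn : 0 ≤ mn (zf J M a) := main_mn_nonneg fun A => main_zf_nonneg J M a A
  by_cases hw : w₀ ≤ (M j₀).card
  · obtain ⟨v, hv⟩ := hne
    refine ⟨v, (hsub j₀ hj₀).2 hv, (hclosed v).1, (hclosed v).2, ?_⟩
    obtain ⟨z, hz1, hz2⟩ := hmin j₀ hj₀ v hv
    have h1 := hI n (M j₀).card J M a j₀ v z ((le_max_left _ _).trans hw) hRd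
      (fun j hj => ⟨(hsub j hj).1, hj₀min j hj⟩) hj₀ rfl hv hz1 hz2
    have h2 := hCo n (M j₀).card J M a v ((le_max_right _ _).trans hw) hRd
      (fun j hj => ⟨(hsub j hj).1, hj₀min j hj⟩)
    have h3 := main_Cv_le hLx v f
    rw [hfe] at h3 ⊢
    rw [main_par]
    set I : ℝ := mn (fun A => df v (fun A => 2 * zf J M a A - 1) A ^ 2) with hIdef
    have hInn : 0 ≤ I := hDnn v
    have h4 : C2 * (1 / 2 : ℝ) ^ (M j₀).card * mn (zf J M a) ≤ C2 / c * I := by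
      have h5 := mul_le_mul_of_nonneg_left h1 hC2c
      calc C2 * (1 / 2 : ℝ) ^ (M j₀).card * mn (zf J M a)
          = C2 / c * (c * (1 / 2 : ℝ) ^ (M j₀).card * mn (zf J M a)) := by
            field_simp
        _ ≤ _ := h5
    calc Cv v (fun A => 2 * zf J M a A - 1) ≤ _ := h3
      _ ≤ _ := h2
      _ ≤ I + C2 / c * I := by linarith
      _ ≤ (1 + C2 / c + C3) * I := by nlinarith [mul_nonneg hC3p hInn]
  · push Not at hw
    obtain ⟨v, hv, hvp⟩ := (hShortB n J M a).1 j₀ hj₀ (hsub j₀ hj₀).1 hne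
    refine ⟨v, (hsub j₀ hj₀).2 hv, (hclosed v).1, (hclosed v).2, ?_⟩
    have h2 := (hShortB n J M a).2 v
    have h3 := main_Cv_le hLx v f
    rw [hfe] at h3 ⊢
    rw [main_par]
    set I : ℝ := mn (fun A => df v (fun A => 2 * zf J M a A - 1) A ^ 2) with hIdef
    have hInn : 0 ≤ I := hDnn v
    have h4 : ((M j₀).card : ℝ) * 2 ^ (M j₀).card ≤ w₀ * 2 ^ w₀ := by
      have h5 : ((M j₀).card : ℝ) ≤ w₀ := by exact_mod_cast hw.le
      have h6 : (2 : ℝ) ^ (M j₀).card ≤ 2 ^ w₀ := pow_le_pow_right₀ (by norm_num) hw.le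
      exact mul_le_mul h5 h6 (by positivity) (by positivity)
    have h1w : (1 : ℝ) ≤ w₀ * 2 ^ w₀ := by
      have h7 : 1 ≤ w₀ := by
        have := Finset.card_pos.mpr hne
        omega
      have h8 : (1 : ℝ) ≤ w₀ := by exact_mod_cast h7
      have h9 : (1 : ℝ) ≤ 2 ^ w₀ := one_le_pow₀ (by norm_num)
      nlinarith
    have h5 : mn (zf J M a) * I ≤ ((w₀ * 2 ^ w₀) * I) ^ 2 := by
      have h6 : mn (zf J M a) ≤ (w₀ * 2 ^ w₀) * I :=
        hvp.trans (mul_le_mul_of_nonneg_right h4 hInn)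
      have h7 : I ≤ (w₀ * 2 ^ w₀) * I := by nlinarith
      calc mn (zf J M a) * I ≤ ((w₀ * 2 ^ w₀) * I) * ((w₀ * 2 ^ w₀) * I) :=
            mul_le_mul h6 h7 hInn (by positivity)
        _ = _ := by ring
    have h6 : Real.sqrt (mn (zf J M a) * I) ≤ (w₀ * 2 ^ w₀) * I := by
      rw [Real.sqrt_le_left (by positivity)]
      exact h5
    calc Cv v (fun A => 2 * zf J M a A - 1) ≤ _ := h3
      _ ≤ _ := h2
      _ ≤ I + 2 * ((w₀ * 2 ^ w₀) * I) := by linarith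
      _ ≤ (1 + C2 / c + C3) * I := by
        rw [hC3]
        nlinarith [mul_nonneg hC2c hInn]

end Pool.Agent.MP3145b1.F
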