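import Pool.Agent.Lib.MP_3145b1_co.F.SpecE
import Pool.Agent.Lib.MP_3145b1_co.F.MainA
import Pool.Agent.Lib.MP_3145b1_co.F.MainB

/-!
# MP_3145b1_co, F: assembly with explicit constants
-/

set_option autoImplicit false

namespace Pool.Agent.MP3145b1.F

open Finset

variable {n : ℕ}

theorem mainE_Cv (hJn : S_Jn) (v : Fin n) (f : Finset (Fin n) → ℝ) {y I : ℝ}
    (hI : ∑ S : Finset (Fin n), fc (df v f) S ^ 2 = I) (_hy : 0 ≤ y)
    (h : ∑ S : Finset (Fin n), |fc (av v f) S * fc (df v f) S| ≤ (Real.exp y - 1) * I) :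
    Cv v f ≤ 2 * y * I := by
  have h1 := hJn (Finset (Fin n)) (fun S => fc (av v f) S) (fun S => fc (df v f) S)
  have h2 : Cv v f ≤ 2 * I * Real.log (1 + (∑ S : Finset (Fin n),
      |fc (av v f) S * fc (df v f) S|) / I) := by
    rw [← hI]
    exact h1
  have hInn : 0 ≤ I := hI ▸ Finset.sum_nonneg fun S _ => sq_nonneg _
  rcases hInn.eq_or_lt with h0 | hp
  · rw [← h0] at h2 ⊢
    simpa using h2
  · have h3 : 1 + (∑ S : Finset (Fin n), |fc (av v f) S * fc (df v f) S|) / I ≤ Real.exp y := by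
      have h4 : (∑ S : Finset (Fin n), |fc (av v f) S * fc (df v f) S|) / I ≤ Real.exp y - 1 := by
        rw [div_le_iff₀ hp]
        exact h
      linarith
    have h5 : 0 < 1 + (∑ S : Finset (Fin n), |fc (av v f) S * fc (df v f) S|) / I := by
      have : 0 ≤ (∑ S : Finset (Fin n), |fc (av v f) S * fc (df v f) S|) / I :=
        div_nonneg (Finset.sum_nonneg fun S _ => abs_nonneg _) hp.le
      linarith
    have h6 : Real.log (1 + (∑ S : Finset (Fin n), |fc (av v f) S * fc (df v f) S|) / I) ≤ y := by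
      rw [Real.log_le_iff_le_exp h5]
      exact h3
    calc Cv v f ≤ _ := h2
      _ ≤ 2 * I * y := mul_le_mul_of_nonneg_left h6 (by positivity)
      _ = 2 * y * I := by ring

theorem two_pow_le_exp (m : ℕ) : (2 : ℝ) ^ m ≤ Real.exp m := by
  have h1 : (2 : ℝ) ≤ Real.exp 1 := by
    have := Real.add_one_le_exp (1 : ℝ)
    linarith
  calc (2 : ℝ) ^ m ≤ Real.exp 1 ^ m := pow_le_pow_left₀ (by norm_num) h1 m
    _ = Real.exp m := by rw [← Real.exp_nat_mul, mul_one]

theorem two_le_exp_one : (2 : ℝ) ≤ Real.exp 1 := by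
  have := Real.add_one_le_exp (1 : ℝ)
  linarith

theorem one_add_exp_le {y : ℝ} (hy : 0 ≤ y) : 1 + Real.exp y ≤ Real.exp (y + 1) := by
  rw [Real.exp_add]
  have h1 := Real.one_le_exp hy
  nlinarith [two_le_exp_one, Real.exp_pos y]

theorem mainAe (hJn : S_Jn) (hDesc : S_Desc) (hPolB : S_PolB) (hResA : S_ResA) (hMinA : S_MinA)
    (hInfA : S_InfA) (hCostA : S_CostA) : S_MainAe := by
  refine ⟨67, by norm_num, ?_⟩
  intro k d n W f hf
  set K : ℕ := max k 1 with hK
  have hK1 : 1 ≤ K := le_max_right _ _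
  have hK1r : (1 : ℝ) ≤ K := by exact_mod_cast hK1
  set D : ℕ := max d (15 * K ^ 2 + 1) with hD
  have hDle : D ≤ d + 15 * K ^ 2 + 1 := by
    rw [hD]
    apply max_le <;> omega
  have hf' : PA K D W f := by
    obtain ⟨q, J, M, a, h1, h2, h3, h4⟩ := hf
    refine ⟨q, J, M, a, ?_, ?_, h3, h4⟩
    · exact (hPolB n d W q).2.2.1 D W (le_max_left _ _) (Finset.Subset.refl _) h1
    · intro v
      exact (h2 v).trans (le_max_left _ _)
  have htinf : 0 ≤ tinf f := Finset.sum_nonneg fun S _ => by positivity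
  have hmain : He f ≤ (5 + (2 * d + 58 * K ^ 2 + 4)) * tinf f := by
    refine hDesc n (2 * d + 58 * K ^ 2 + 4) (fun W f => PA K D W f) (by positivity) ?_ W f hf'
    clear hf hf' htinf f W
    intro W f hf
    obtain ⟨q, J, M, a, hq, hRd, hsub, hfe, hwide, hmin⟩ := hMinA n K D W f hf
    have hfabs : ∀ A, |f A| ≤ 1 := fun A => by rw [hfe]; exact xf_abs q J M a A
    by_cases hq1 : ∃ v ∈ W, dv v q ≠ 0
    · obtain ⟨v, hv, hdv⟩ := hq1
      right
      refine ⟨v, hv, (hResA n K D W f v hf).1, (hResA n K D W f v hf).2, ?_⟩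
      have h1 := hInfA n K D D W q J M a v hq hRd (fun j hj => (hsub j hj).1) le_rfl
        (fun s => hmin v s) (Or.inl hdv)
      rw [← hfe, ← main_par] at h1
      have h2 := main_cs v f hfabs
      have h3 := main_sqrt_le (b := (1 / 2 : ℝ) ^ (D + K ^ 2)) (by positivity)
        (pow_le_one₀ (by norm_num) (by norm_num)) h1
      set I : ℝ := ∑ S : Finset (Fin n), fc (df v f) S ^ 2 with hI
      have hInn : 0 ≤ I := Finset.sum_nonneg fun S _ => sq_nonneg _
      have h4 : I / (1 / 2 : ℝ) ^ (D + K ^ 2) = 2 ^ (D + K ^ 2) * I := by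
        rw [one_div, inv_pow, div_inv_eq_mul, mul_comm]
      have h5 := mainE_Cv hJn v f (y := ((D + K ^ 2 : ℕ) : ℝ) + 1) hI.symm (by positivity) (by
        refine (h2.trans (h3.trans (le_of_eq h4))).trans ?_
        apply mul_le_mul_of_nonneg_right _ hInn
        have h6 := two_pow_le_exp (D + K ^ 2)
        have h7 := one_add_exp_le (y := ((D + K ^ 2 : ℕ) : ℝ)) (by positivity)
        linarith)
      refine h5.trans (mul_le_mul_of_nonneg_right ?_ hInn)
      have h8 : (D : ℝ) ≤ d + 15 * K ^ 2 + 1 := by exact_mod_cast hDle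
      push_cast
      nlinarith
    · push Not at hq1
      have hqc := (hPolB n D W q).2.2.2 hq hq1
      rcases J.eq_empty_or_nonempty with hJ | hJ
      · left
        refine ⟨if q ∅ = 0 then 1 else -1, ?_, ?_⟩
        · split_ifs
          · exact Or.inl rfl
          · exact Or.inr rfl
        · intro A
          rw [hfe]
          unfold xf
          rw [hJ, Finset.prod_empty, mul_one, hqc A]
      · right
        obtain ⟨j₀, hj₀, hj₀min⟩ := Finset.exists_min_image J (fun j => (M j).card) hJ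
        have hw1 : D < (M j₀).card := hwide j₀ hj₀
        obtain ⟨v, hv⟩ : (M j₀).Nonempty := Finset.card_pos.mp (by omega)
        have hvW : v ∈ W := (hsub j₀ hj₀).2 hv
        refine ⟨v, hvW, (hResA n K D W f v hf).1, (hResA n K D W f v hf).2, ?_⟩
        have h1 := hInfA n K D (M j₀).card W q J M a v hq hRd (fun j hj => (hsub j hj).1) hw1.le
          (fun s => hmin v s) (Or.inr ⟨j₀, hj₀, hv, le_rfl⟩)
        rw [← hfe, ← main_par] at h1
        have hD2 : 15 * K ^ 2 + 1 ≤ D := le_max_right _ _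
        have h2 := hCostA n K (M j₀).card J M a v (if q ∅ = 0 then 1 else -1) hK1 (by omega) hRd
          (fun j hj => (hsub j hj).1) (fun j hj => hj₀min j hj) (by split_ifs <;> simp) f
          (by
            intro A
            rw [hfe]
            unfold xf
            rw [hqc A])
        set I : ℝ := ∑ S : Finset (Fin n), fc (df v f) S ^ 2 with hI
        have hInn : 0 ≤ I := Finset.sum_nonneg fun S _ => sq_nonneg _
        set C1 : ℝ := K * Real.exp (10 * K ^ 2) * 2 * 2 ^ (K ^ 2) with hC1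
        have hC1p : 0 ≤ C1 := by positivity
        have h6 : (K : ℝ) * Real.exp (10 * K ^ 2) * (1 / 2 : ℝ) ^ ((M j₀).card - 1) =
            C1 * (1 / 2 : ℝ) ^ ((M j₀).card + K ^ 2) := by
          obtain ⟨m, hm⟩ : ∃ m, (M j₀).card = m + 1 := ⟨(M j₀).card - 1, by omega⟩
          rw [hm, Nat.add_sub_cancel, hC1]
          have h7 : (1 / 2 : ℝ) ^ (m + 1 + K ^ 2) =
              (1 / 2 : ℝ) ^ m * (1 / 2) * (1 / 2) ^ (K ^ 2) := by
            rw [pow_add, pow_succ]
          rw [h7]
          have h8 : (2 : ℝ) ^ (K ^ 2) * (1 / 2) ^ (K ^ 2) = 1 := by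
            rw [← mul_pow]; norm_num
          calc (K : ℝ) * Real.exp (10 * K ^ 2) * (1 / 2 : ℝ) ^ m
              = (K : ℝ) * Real.exp (10 * K ^ 2) * (1 / 2 : ℝ) ^ m *
                  ((2 : ℝ) ^ (K ^ 2) * (1 / 2) ^ (K ^ 2)) := by rw [h8, mul_one]
            _ = _ := by ring
        have h9 : C1 ≤ Real.exp (12 * K ^ 2) := by
          have h10 : (2 : ℝ) ^ (K ^ 2) ≤ Real.exp (K ^ 2) := by
            have := two_pow_le_exp (K ^ 2)
            push_cast at this
            exact this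
          have h11 : (K : ℝ) * 2 ≤ Real.exp K := by
            have h12 : (K : ℝ) ≤ Real.exp (K - 1) := by
              have := Real.add_one_le_exp ((K : ℝ) - 1)
              linarith
            have h13 : Real.exp (K : ℝ) = Real.exp (K - 1) * Real.exp 1 := by
              rw [← Real.exp_add]
              congr 1
              ring
            rw [h13]
            exact mul_le_mul h12 two_le_exp_one (by norm_num) (Real.exp_pos _).le
          calc C1 = (K * 2) * Real.exp (10 * K ^ 2) * 2 ^ (K ^ 2) := by rw [hC1]; ring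
            _ ≤ Real.exp K * Real.exp (10 * K ^ 2) * Real.exp (K ^ 2) := by gcongr
            _ = Real.exp (K + 10 * K ^ 2 + K ^ 2) := by rw [← Real.exp_add, ← Real.exp_add]
            _ ≤ Real.exp (12 * K ^ 2) := by
              apply Real.exp_le_exp.mpr
              nlinarith
        have h5 := mainE_Cv hJn v f (y := 12 * (K : ℝ) ^ 2 + 1) hI.symm (by positivity) (by
          calc _ ≤ _ := h2
            _ = C1 * (1 / 2 : ℝ) ^ ((M j₀).card + K ^ 2) := h6
            _ ≤ C1 * I := mul_le_mul_of_nonneg_left h1 hC1p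
            _ ≤ (Real.exp (12 * (K : ℝ) ^ 2 + 1) - 1) * I := by
              apply mul_le_mul_of_nonneg_right _ hInn
              have h7 := one_add_exp_le (y := 12 * (K : ℝ) ^ 2) (by positivity)
              linarith)
        refine h5.trans (mul_le_mul_of_nonneg_right ?_ hInn)
        have hd0 : (0 : ℝ) ≤ d := Nat.cast_nonneg d
        nlinarith
  refine hmain.trans (mul_le_mul_of_nonneg_right ?_ htinf)
  have hKk : (K : ℝ) ^ 2 ≤ k ^ 2 + 1 := by
    have h1 : K ^ 2 ≤ k ^ 2 + 1 := by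
      rw [hK]
      rcases le_total k 1 with h | h
      · rw [max_eq_right h]
        nlinarith
      · rw [max_eq_left h]
        omega
    exact_mod_cast h1
  have hd0 : (0 : ℝ) ≤ d := Nat.cast_nonneg d
  nlinarith

theorem mainBe (hJn : S_Jn) (hDesc : S_Desc) (hResB : S_ResB) (hMinB : S_MinB)
    (hInfB : S_InfBe) (hCostB : S_CostBe) (hShortB : S_ShortB) : S_MainBe := by
  obtain ⟨B1, hIn⟩ := hInfB
  obtain ⟨B2, hCo⟩ := hCostB
  refine ⟨9 + 4 * (B1 + B2 : ℕ), by positivity, ?_⟩
  intro k n W f hf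
  set K : ℕ := max k 1 with hK
  have hK1 : 1 ≤ K := le_max_right _ _
  have hK1r : (1 : ℝ) ≤ K := by exact_mod_cast hK1
  set B : ℕ := B1 + B2 with hB
  have hf' : PB K W f := by
    obtain ⟨J, M, a, h2, h3, h4⟩ := hf
    refine ⟨J, M, a, ?_, h3, h4⟩
    intro v
    exact (h2 v).trans (le_max_left _ _)
  have htinf : 0 ≤ tinf f := Finset.sum_nonneg fun S _ => by positivity
  have hmain : He f ≤ (5 + (4 * B * K ^ 2 + 4)) * tinf f := by
    refine hDesc n (4 * B * K ^ 2 + 4) (fun W f => PB K W f) (by positivity) ?_ W f hf'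
    clear hf hf' htinf f W
    intro W f hf
    have hclosed : ∀ v : Fin n, PB K (W.erase v) (r0 v f) ∧ PB K (W.erase v) (r1 v f) := by
      intro v
      obtain ⟨J, M, a, h1, h2, h3⟩ := hf
      obtain ⟨⟨J0, M0, a0, h4, h5, h6⟩, ⟨J1, M1, a1, h7, h8, h9⟩⟩ :=
        hResB n K 0 W J M a v h1 (fun j hj => ⟨(h2 j hj).1, (h2 j hj).2, Nat.zero_le _⟩)
      refine ⟨⟨J0, M0, a0, h4, fun j hj => ⟨(h5 j hj).1, (h5 j hj).2.1⟩, ?_⟩,
        ⟨J1, M1, a1, h7, fun j hj => ⟨(h8 j hj).1, (h8 j hj).2.1⟩, ?_⟩⟩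
      · funext A
        rw [← h6 A, h3]
        rfl
      · funext A
        rw [← h9 A, h3]
        rfl
    obtain ⟨J, M, a, hRd, hsub, hfe, hmin⟩ := hMinB n K W f hf
    rcases J.eq_empty_or_nonempty with hJ | hJ
    · left
      refine ⟨1, Or.inl rfl, ?_⟩
      intro A
      rw [hfe]
      simp only [hJ, zf, Finset.prod_empty]
      norm_num
    by_cases hemp : ∃ j ∈ J, M j = ∅
    · obtain ⟨j, hj, hMj⟩ := hemp
      left
      refine ⟨-1, Or.inr rfl, ?_⟩
      intro A
      rw [hfe]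
      have h1 : zf J M a A = 0 := by
        unfold zf
        apply Finset.prod_eq_zero hj
        have h2 : a j = ∅ := Finset.subset_empty.mp (hMj ▸ (hsub j hj).1)
        unfold tm
        rw [hMj, h2, Finset.inter_empty, if_pos rfl, sub_self]
      simp only [h1]
      norm_num
    push Not at hemp
    right
    obtain ⟨j₀, hj₀, hj₀min⟩ := Finset.exists_min_image J (fun j => (M j).card) hJ
    have hne : (M j₀).Nonempty := hemp j₀ hj₀
    have hDnn : ∀ v : Fin n, 0 ≤ mn (fun A => df v (fun A => 2 * zf J M a A - 1) A ^ 2) :=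
      fun v => main_mn_nonneg fun A => sq_nonneg _
    have hpnn : 0 ≤ mn (zf J M a) := main_mn_nonneg fun A => main_zf_nonneg J M a A
    by_cases hw : B * K ^ 2 ≤ (M j₀).card
    · obtain ⟨v, hv⟩ := hne
      refine ⟨v, (hsub j₀ hj₀).2 hv, (hclosed v).1, (hclosed v).2, ?_⟩
      obtain ⟨z, hz1, hz2⟩ := hmin j₀ hj₀ v hv
      have hB1 : B1 * K ^ 2 ≤ (M j₀).card := le_trans (Nat.mul_le_mul_right _ (by omega)) hw
      have hB2 : B2 * K ^ 2 ≤ (M j₀).card := le_trans (Nat.mul_le_mul_right _ (by omega)) hw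
      have h1 := hIn K n (M j₀).card J M a j₀ v z hK1 hB1 hRd
        (fun j hj => ⟨(hsub j hj).1, hj₀min j hj⟩) hj₀ rfl hv hz1 hz2
      have h2 := hCo K n (M j₀).card J M a v hK1 hB2 hRd
        (fun j hj => ⟨(hsub j hj).1, hj₀min j hj⟩)
      rw [hfe]
      set I : ℝ := mn (fun A => df v (fun A => 2 * zf J M a A - 1) A ^ 2) with hIdef
      have hInn : 0 ≤ I := hDnn v
      rw [main_par (df v fun A => 2 * zf J M a A - 1), ← hIdef]
      have h4 : 2 ^ (B2 * K ^ 2) * (1 / 2 : ℝ) ^ (M j₀).card * mn (zf J M a) ≤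
          2 ^ (B * K ^ 2) * I := by
        have h5 : (2 : ℝ) ^ (B * K ^ 2) = 2 ^ (B2 * K ^ 2) * 2 ^ (B1 * K ^ 2) := by
          rw [hB, ← pow_add]
          congr 1
          ring
        have h6 : (2 : ℝ) ^ (B1 * K ^ 2) * (1 / 2) ^ (B1 * K ^ 2) = 1 := by
          rw [← mul_pow]; norm_num
        have h7 := mul_le_mul_of_nonneg_left h1
          (show (0 : ℝ) ≤ 2 ^ (B2 * K ^ 2) * 2 ^ (B1 * K ^ 2) by positivity)
        rw [h5]
        refine le_trans (le_of_eq ?_) h7
        calc 2 ^ (B2 * K ^ 2) * (1 / 2 : ℝ) ^ (M j₀).card * mn (zf J M a)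
            = 2 ^ (B2 * K ^ 2) * ((2 : ℝ) ^ (B1 * K ^ 2) * (1 / 2) ^ (B1 * K ^ 2)) *
                (1 / 2 : ℝ) ^ (M j₀).card * mn (zf J M a) := by rw [h6, mul_one]
          _ = _ := by ring
      have h5 := mainE_Cv hJn v (fun A => 2 * zf J M a A - 1)
        (y := ((B * K ^ 2 : ℕ) : ℝ) + 1 + 1) (main_par (df v fun A => 2 * zf J M a A - 1))
        (by positivity) (by
          rw [← hIdef]
          refine h2.trans ?_
          have h6 := two_pow_le_exp (B * K ^ 2)
          have h7 := one_add_exp_le (y := ((B * K ^ 2 : ℕ) : ℝ)) (by positivity)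
          have h8 := one_add_exp_le (y := ((B * K ^ 2 : ℕ) : ℝ) + 1) (by positivity)
          have h9 : 1 + (2 : ℝ) ^ (B * K ^ 2) ≤
              Real.exp (((B * K ^ 2 : ℕ) : ℝ) + 1 + 1) - 1 := by linarith
          have h10 := mul_le_mul_of_nonneg_right h9 hInn
          linarith)
      rw [← hIdef] at h5
      refine h5.trans (mul_le_mul_of_nonneg_right ?_ hInn)
      have hBK : (0 : ℝ) ≤ B * K ^ 2 := by positivity
      push_cast
      nlinarith
    · push Not at hw
      obtain ⟨v, hv, hvp⟩ := (hShortB n J M a).1 j₀ hj₀ (hsub j₀ hj₀).1 hne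
      refine ⟨v, (hsub j₀ hj₀).2 hv, (hclosed v).1, (hclosed v).2, ?_⟩
      have h2 := (hShortB n J M a).2 v
      rw [hfe]
      set I : ℝ := mn (fun A => df v (fun A => 2 * zf J M a A - 1) A ^ 2) with hIdef
      have hInn : 0 ≤ I := hDnn v
      rw [main_par (df v fun A => 2 * zf J M a A - 1), ← hIdef]
      set w : ℕ := (M j₀).card with hwdef
      have hw1 : 1 ≤ w := Finset.card_pos.mpr hne
      set y : ℝ := (w : ℝ) * 2 ^ w with hy
      have hy1 : 1 ≤ y := by
        have h8 : (1 : ℝ) ≤ w := by exact_mod_cast hw1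
        have h9 : (1 : ℝ) ≤ 2 ^ w := one_le_pow₀ (by norm_num)
        rw [hy]
        nlinarith
      have h6 : Real.sqrt (mn (zf J M a) * I) ≤ y * I := by
        rw [Real.sqrt_le_left (by positivity)]
        have h7 : I ≤ y * I := by nlinarith
        calc mn (zf J M a) * I ≤ (y * I) * (y * I) := mul_le_mul hvp h7 hInn (by positivity)
          _ = _ := by ring
      have hy2 : y ≤ 2 ^ (2 * w) := by
        have h7 : (w : ℝ) ≤ 2 ^ w := by exact_mod_cast (Nat.lt_two_pow_self).le
        calc y ≤ 2 ^ w * 2 ^ w := mul_le_mul_of_nonneg_right h7 (by positivity)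
          _ = 2 ^ (2 * w) := by rw [← pow_add]; congr 1; ring
      have h5 := mainE_Cv hJn v (fun A => 2 * zf J M a A - 1)
        (y := ((2 * w : ℕ) : ℝ) + 1 + 1) (main_par (df v fun A => 2 * zf J M a A - 1))
        (by positivity) (by
          rw [← hIdef]
          refine h2.trans ?_
          have h7 := two_pow_le_exp (2 * w)
          have h8 := one_add_exp_le (y := ((2 * w : ℕ) : ℝ)) (by positivity)
          have h9 := one_add_exp_le (y := ((2 * w : ℕ) : ℝ) + 1) (by positivity)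
          have h10 : 2 * Real.exp ((2 * w : ℕ) : ℝ) ≤ Real.exp (((2 * w : ℕ) : ℝ) + 1) := by
            rw [Real.exp_add]
            nlinarith [two_le_exp_one, Real.exp_pos ((2 * w : ℕ) : ℝ)]
          have h11 : 2 * Real.exp (((2 * w : ℕ) : ℝ) + 1) ≤
              Real.exp (((2 * w : ℕ) : ℝ) + 1 + 1) := by
            rw [Real.exp_add (((2 * w : ℕ) : ℝ) + 1)]
            nlinarith [two_le_exp_one, Real.exp_pos (((2 * w : ℕ) : ℝ) + 1)]
          have h12 : 1 ≤ Real.exp ((2 * w : ℕ) : ℝ) := Real.one_le_exp (by positivity)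
          have h13 : 1 + 2 * y ≤ Real.exp (((2 * w : ℕ) : ℝ) + 1 + 1) - 1 := by linarith
          have h14 := mul_le_mul_of_nonneg_right h13 hInn
          linarith)
      rw [← hIdef] at h5
      refine h5.trans (mul_le_mul_of_nonneg_right ?_ hInn)
      have hw2 : ((w : ℕ) : ℝ) ≤ B * K ^ 2 := by exact_mod_cast hw.le
      push_cast
      linarith
  refine hmain.trans (mul_le_mul_of_nonneg_right ?_ htinf)
  have hKk : (K : ℝ) ^ 2 ≤ k ^ 2 + 1 := by
    have h1 : K ^ 2 ≤ k ^ 2 + 1 := by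
      rw [hK]
      rcases le_total k 1 with h | h
      · rw [max_eq_right h]
        nlinarith
      · rw [max_eq_left h]
        omega
    exact_mod_cast h1
  have hB0 : (0 : ℝ) ≤ B := Nat.cast_nonneg B
  nlinarith [mul_le_mul_of_nonneg_left hKk hB0]

end Pool.Agent.MP3145b1.F
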