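import Pool.Agent.Lib.MP_3145b1_co.F.Spec

/-!
# MP_3145b1_co, module MinA: minimal representation of an XOR of terms
-/

set_option autoImplicit false

namespace Pool.Agent.MP3145b1.F

open Finset

private def minA_t {n : ℕ} (M a A : Finset (Fin n)) : ZMod 2 := if A ∩ M = a then 1 else 0

private def minA_ph {n : ℕ} (q : Finset (Fin n) → ZMod 2) (J : Finset ℕ)
    (M a : ℕ → Finset (Fin n)) (A : Finset (Fin n)) : ZMod 2 :=
  q A + ∑ j ∈ J, minA_t (M j) (a j) A

private theorem minA_flip (x : ZMod 2) :
    (if x + 1 = 0 then (1 : ℝ) else -1) = -(if x = 0 then (1 : ℝ) else -1) := by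
  have h : x = 0 ∨ x = 1 := by
    revert x
    decide
  rcases h with h | h
  · subst h
    rw [if_neg (by decide), if_pos rfl]
  · subst h
    rw [if_pos (by decide), if_neg (by decide)]
    norm_num

private theorem minA_xf {n : ℕ} (q : Finset (Fin n) → ZMod 2) (J : Finset ℕ)
    (M a : ℕ → Finset (Fin n)) (A : Finset (Fin n)) :
    xf q J M a A = if minA_ph q J M a A = 0 then 1 else -1 := by
  unfold xf minA_ph
  induction J using Finset.induction_on with
  | empty => rw [Finset.prod_empty, Finset.sum_empty, mul_one, add_zero]
  | insert j J hj ih =>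
    rw [Finset.prod_insert hj, Finset.sum_insert hj]
    by_cases h : A ∩ M j = a j
    · have h1 : (1 - 2 * tm (M j) (a j) A : ℝ) = -1 := by
        rw [tm, if_pos h]
        norm_num
      have h2 : minA_t (M j) (a j) A = 1 := if_pos h
      have h3 : q A + (1 + ∑ j ∈ J, minA_t (M j) (a j) A) =
          (q A + ∑ j ∈ J, minA_t (M j) (a j) A) + 1 := by ring
      rw [h1, h2, h3, minA_flip, ← ih]
      ring
    · have h1 : (1 - 2 * tm (M j) (a j) A : ℝ) = 1 := by
        rw [tm, if_neg h]
        norm_num
      have h2 : minA_t (M j) (a j) A = 0 := if_neg h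
      rw [h1, h2, one_mul, zero_add, ih]

private theorem minA_eq {n : ℕ} {q q' : Finset (Fin n) → ZMod 2} {J J' : Finset ℕ}
    {M a M' a' : ℕ → Finset (Fin n)}
    (h : ∀ A, minA_ph q J M a A = minA_ph q' J' M' a' A) : xf q J M a = xf q' J' M' a' := by
  funext A
  rw [minA_xf, minA_xf, h A]

private theorem minA_diff {n : ℕ} (M a A : Finset (Fin n)) (v : Fin n) (hA : v ∈ A)
    (hM : v ∈ M) : minA_t M a A - minA_t M a (A.erase v) =
      if A ∩ M.erase v = a.erase v then 1 else 0 := by
  have hE : A ∩ M.erase v = (A ∩ M).erase v := by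
    ext i
    simp only [Finset.mem_inter, Finset.mem_erase]
    tauto
  have hE' : A.erase v ∩ M = (A ∩ M).erase v := by
    ext i
    simp only [Finset.mem_inter, Finset.mem_erase]
    tauto
  have hv : v ∈ A ∩ M := Finset.mem_inter.mpr ⟨hA, hM⟩
  unfold minA_t
  by_cases ha : v ∈ a
  · have h2 : ¬ A.erase v ∩ M = a := by
      intro h
      rw [← h, hE'] at ha
      exact absurd rfl (Finset.ne_of_mem_erase ha)
    rw [if_neg h2, sub_zero]
    by_cases h3 : A ∩ M = a
    · rw [if_pos h3, if_pos (by rw [hE, h3])]
    · rw [if_neg h3, if_neg]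
      intro h4
      apply h3
      rw [hE] at h4
      rw [← Finset.insert_erase hv, h4, Finset.insert_erase ha]
  · have h2 : ¬ A ∩ M = a := by
      intro h
      rw [← h] at ha
      exact ha hv
    have h5 : (A.erase v ∩ M = a) = (A ∩ M.erase v = a.erase v) := by
      rw [hE, hE', Finset.erase_eq_of_notMem ha]
    rw [if_neg h2]
    simp only [h5]
    split_ifs
    · decide
    · decide

private theorem minA_zero {n : ℕ} (M a A : Finset (Fin n)) (v : Fin n) (hA : v ∉ A) :
    minA_t M a A - minA_t M a (A.erase v) = 0 := by
  rw [Finset.erase_eq_of_notMem hA, sub_self]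

theorem minA (h1 : S_PolB) : S_MinA := by
  intro n k d W f hf
  obtain ⟨q0, J0, M0, a0, hq0, hR0, hM0, hf0⟩ := hf
  have key : ∀ N : ℕ, ∀ (q : Finset (Fin n) → ZMod 2) (J : Finset ℕ) (M a : ℕ → Finset (Fin n)),
      q ∈ Pol W d → Rd k J M → (∀ j ∈ J, a j ⊆ M j ∧ M j ⊆ W) → f = xf q J M a →
      ∑ j ∈ J, ((M j).card + 1) = N →
      ∃ (q : Finset (Fin n) → ZMod 2) (J : Finset ℕ) (M a : ℕ → Finset (Fin n)),
        q ∈ Pol W d ∧ Rd k J M ∧ (∀ j ∈ J, a j ⊆ M j ∧ M j ⊆ W) ∧ f = xf q J M a ∧
        (∀ j ∈ J, d < (M j).card) ∧
        ∀ (v : Fin n) (s : ℕ), (∃ j ∈ J, v ∈ M j ∧ (M j).card ≤ s) → gs q J M a v s ≠ 0 := by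
    intro N
    induction N using Nat.strong_induction_on with
    | _ N ih =>
    intro q J M a hq hR hM hfx hN
    by_cases hA : ∀ j ∈ J, d < (M j).card
    · by_cases hB : ∀ (v : Fin n) (s : ℕ), (∃ j ∈ J, v ∈ M j ∧ (M j).card ≤ s) →
        gs q J M a v s ≠ 0
      · exact ⟨q, J, M, a, hq, hR, hM, hfx, hA, hB⟩
      · push Not at hB
        obtain ⟨v, s, ⟨j0, hj0, hv0, hs0⟩, hg⟩ := hB
        obtain ⟨M', hM'⟩ : ∃ M' : ℕ → Finset (Fin n), ∀ j, M' j =
            if v ∈ M j ∧ (M j).card ≤ s then (M j).erase v else M j := ⟨_, fun _ => rfl⟩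
        have hsub : ∀ j, M' j ⊆ M j := by
          intro j
          rw [hM' j]
          split_ifs
          · exact Finset.erase_subset _ _
          · exact Finset.Subset.refl _
        have hlt : ∑ j ∈ J.filter (fun j => (v ∈ M j ∧ (M j).card ≤ s) → v ∉ a j),
            ((M' j).card + 1) < N := by
          rw [← hN, Finset.sum_filter]
          refine Finset.sum_lt_sum (fun j _ => ?_) ⟨j0, hj0, ?_⟩
          · have h2 := Finset.card_le_card (hsub j)
            split_ifs
            · omega
            · omega
          · have h2 : (M' j0).card < (M j0).card := by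
              rw [hM' j0, if_pos ⟨hv0, hs0⟩]
              exact Finset.card_erase_lt_of_mem hv0
            split_ifs
            · omega
            · omega
        have hq' : (fun A => q (A.erase v)) ∈ Pol W d := by
          have h2 := ((h1 n d W q).1 hq v).1
          exact (h1 n d (W.erase v) q).2.2.1 d W le_rfl (Finset.erase_subset v W) h2
        refine ih _ hlt (fun A => q (A.erase v))
          (J.filter (fun j => (v ∈ M j ∧ (M j).card ≤ s) → v ∉ a j)) M' a hq' ?_ ?_ ?_ rfl
        · intro u
          refine le_trans (Finset.card_le_card ?_) (hR u)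
          intro j hj
          rw [Finset.mem_filter, Finset.mem_filter] at hj
          exact Finset.mem_filter.mpr ⟨hj.1.1, hsub j hj.2⟩
        · intro j hj
          rw [Finset.mem_filter] at hj
          refine ⟨?_, (hsub j).trans (hM j hj.1).2⟩
          rw [hM' j]
          split_ifs with hc
          · exact Finset.subset_erase.mpr ⟨(hM j hj.1).1, hj.2 hc⟩
          · exact (hM j hj.1).1
        · rw [hfx]
          refine minA_eq fun A => ?_
          unfold minA_ph
          have hgA : gs q J M a v s A = 0 := by
            rw [hg]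
            rfl
          rw [gs, dv, Finset.sum_filter] at hgA
          rw [Finset.sum_filter]
          have hterm : ∀ j ∈ J, minA_t (M j) (a j) A -
              (if (v ∈ M j ∧ (M j).card ≤ s) → v ∉ a j then minA_t (M' j) (a j) A else 0) =
              if v ∈ M j ∧ (M j).card ≤ s then
                minA_t (M j) (a j) A - minA_t (M j) (a j) (A.erase v) else 0 := by
            intro j hj
            by_cases hc : v ∈ M j ∧ (M j).card ≤ s
            · rw [if_pos hc]
              by_cases hva : v ∈ a j
              · have h3 : ¬ ((v ∈ M j ∧ (M j).card ≤ s) → v ∉ a j) := fun h => h hc hva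
                have h4 : minA_t (M j) (a j) (A.erase v) = 0 := by
                  refine if_neg fun h => ?_
                  rw [← h] at hva
                  exact absurd rfl (Finset.ne_of_mem_erase (Finset.mem_inter.mp hva).1)
                rw [if_neg h3, h4]
              · have h3 : ((v ∈ M j ∧ (M j).card ≤ s) → v ∉ a j) := fun _ => hva
                have h4 : A.erase v ∩ M j = A ∩ (M j).erase v := by
                  ext i
                  simp only [Finset.mem_inter, Finset.mem_erase]
                  tauto
                rw [if_pos h3, hM' j, if_pos hc, minA_t, minA_t, minA_t, h4]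
            · have h3 : ((v ∈ M j ∧ (M j).card ≤ s) → v ∉ a j) := fun h => absurd h hc
              rw [if_neg hc, if_pos h3, hM' j, if_neg hc, sub_self]
          have hsum := Finset.sum_congr rfl hterm
          rw [Finset.sum_sub_distrib] at hsum
          by_cases hvA : v ∈ A
          · have h5 : ∑ j ∈ J, (if v ∈ M j ∧ (M j).card ≤ s then
                minA_t (M j) (a j) A - minA_t (M j) (a j) (A.erase v) else 0) =
                ∑ j ∈ J, (if v ∈ M j ∧ (M j).card ≤ s then
                (if A ∩ (M j).erase v = (a j).erase v then 1 else 0) else 0 : ZMod 2) := by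
              refine Finset.sum_congr rfl fun j _ => ?_
              by_cases hc : v ∈ M j ∧ (M j).card ≤ s
              · rw [if_pos hc, if_pos hc, minA_diff _ _ _ _ hvA hc.1]
              · rw [if_neg hc, if_neg hc]
            rw [h5] at hsum
            rw [Finset.insert_eq_of_mem hvA, ← hsum] at hgA
            have h6 : ∀ x y z w : ZMod 2, x - y + (z - w) = 0 → x + z = y + w := by
              intro x y z w h
              have : x + z - (y + w) = 0 := by
                rw [← h]
                ring
              exact sub_eq_zero.mp this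
            exact h6 _ _ _ _ hgA
          · have h5 : ∑ j ∈ J, (if v ∈ M j ∧ (M j).card ≤ s then
                minA_t (M j) (a j) A - minA_t (M j) (a j) (A.erase v) else 0) = 0 := by
              refine Finset.sum_eq_zero fun j _ => ?_
              rw [minA_zero _ _ _ _ hvA, ite_self]
            rw [h5] at hsum
            rw [sub_eq_zero.mp hsum]
            beta_reduce
            rw [Finset.erase_eq_of_notMem hvA]
    · push Not at hA
      obtain ⟨j, hj, hjd⟩ := hA
      have hlt : ∑ i ∈ J.erase j, ((M i).card + 1) < N := by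
        have h2 := Finset.add_sum_erase J (fun i => (M i).card + 1) hj
        beta_reduce at h2
        omega
      have hq' : q + (fun A => if A ∩ M j = a j then 1 else 0) ∈ Pol W d :=
        (Pol W d).add_mem hq
          ((h1 n d W q).2.1 (M j) (a j) (hM j hj).1 (hM j hj).2 hjd)
      refine ih _ hlt (q + (fun A => if A ∩ M j = a j then 1 else 0)) (J.erase j) M a hq' ?_ ?_ ?_
        rfl
      · intro u
        exact le_trans (Finset.card_le_card
          (Finset.filter_subset_filter _ (Finset.erase_subset j J))) (hR u)
      · intro i hi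
        exact hM i (Finset.mem_of_mem_erase hi)
      · rw [hfx]
        refine minA_eq fun A => ?_
        unfold minA_ph
        rw [← Finset.add_sum_erase J (fun i => minA_t (M i) (a i) A) hj, ← add_assoc]
        rfl
  exact key _ q0 J0 M0 a0 hq0 hR0 hM0 hf0 rfl

end Pool.Agent.MP3145b1.F
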