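import Pool.Agent.Lib.MP_3145b1_co.F.Spec

/-!
# MP_3145b1_co, depth-two formulas: minimal representation of a DNF
-/

set_option autoImplicit false

namespace Pool.Agent.MP3145b1.F

open Finset

variable {n : ℕ}

private theorem minB_zf_cases (J : Finset ℕ) (M a : ℕ → Finset (Fin n)) (A : Finset (Fin n)) :
    zf J M a A = 0 ∨ zf J M a A = 1 := by
  rw [zf]
  refine Finset.prod_induction _ (fun x : ℝ => x = 0 ∨ x = 1) ?_ (Or.inr rfl) ?_
  · rintro x y (hx | hx) (hy | hy) <;> simp [hx, hy]
  · intro j _
    rw [tm]
    split_ifs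
    · exact Or.inl (sub_self 1)
    · exact Or.inr (sub_zero 1)

private theorem minB_upd (J : Finset ℕ) (M a : ℕ → Finset (Fin n)) {j : ℕ} (hj : j ∈ J)
    (v : Fin n)
    (h : ∀ z : Finset (Fin n), z ∩ (M j).erase v = (a j).erase v → zf J M a z ≠ 1) :
    zf J (Function.update M j ((M j).erase v)) (Function.update a j ((a j).erase v)) =
      zf J M a := by
  funext A
  rw [zf, zf, ← Finset.mul_prod_erase J _ hj, ← Finset.mul_prod_erase J _ hj]
  have h1 : ∏ i ∈ J.erase j, (1 - tm (Function.update M j ((M j).erase v) i)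
      (Function.update a j ((a j).erase v) i) A) = ∏ i ∈ J.erase j, (1 - tm (M i) (a i) A) := by
    refine Finset.prod_congr rfl fun i hi => ?_
    rw [Function.update_of_ne (Finset.ne_of_mem_erase hi),
      Function.update_of_ne (Finset.ne_of_mem_erase hi)]
  rw [h1, Function.update_self, Function.update_self]
  by_cases hA : A ∩ (M j).erase v = (a j).erase v
  · have h2 : zf J M a A = 0 := (minB_zf_cases J M a A).resolve_right (h A hA)
    rw [zf, ← Finset.mul_prod_erase J _ hj] at h2
    have h3 : tm ((M j).erase v) ((a j).erase v) A = 1 := if_pos hA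
    rw [h2, h3, sub_self, zero_mul]
  · have h3 : tm ((M j).erase v) ((a j).erase v) A = 0 := if_neg hA
    have h4 : tm (M j) (a j) A = 0 := by
      refine if_neg fun h5 => hA ?_
      rw [Finset.inter_erase, h5]
    rw [h3, h4]

private theorem minB_aux (k : ℕ) (W : Finset (Fin n)) (f : Finset (Fin n) → ℝ) (J : Finset ℕ) :
    ∀ (N : ℕ) (M a : ℕ → Finset (Fin n)), ∑ j ∈ J, (M j).card = N → Rd k J M →
      (∀ j ∈ J, a j ⊆ M j ∧ M j ⊆ W) → (f = fun A => 2 * zf J M a A - 1) →
      ∃ (M a : ℕ → Finset (Fin n)), Rd k J M ∧ (∀ j ∈ J, a j ⊆ M j ∧ M j ⊆ W) ∧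
        (f = fun A => 2 * zf J M a A - 1) ∧
        ∀ j ∈ J, ∀ v ∈ M j, ∃ z : Finset (Fin n), z ∩ (M j).erase v = (a j).erase v ∧
          zf J M a z = 1 := by
  intro N
  induction N using Nat.strong_induction_on with
  | _ N ih =>
    intro M a hN hR hM hf
    by_cases hw : ∀ j ∈ J, ∀ v ∈ M j, ∃ z : Finset (Fin n),
        z ∩ (M j).erase v = (a j).erase v ∧ zf J M a z = 1
    · exact ⟨M, a, hR, hM, hf, hw⟩
    · push Not at hw
      obtain ⟨j, hj, v, hv, h⟩ := hw
      have hsub : ∀ i, Function.update M j ((M j).erase v) i ⊆ M i := by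
        intro i
        by_cases hi : i = j
        · rw [hi, Function.update_self]
          exact Finset.erase_subset v (M j)
        · rw [Function.update_of_ne hi]
      refine ih (∑ i ∈ J, (Function.update M j ((M j).erase v) i).card) ?_
        (Function.update M j ((M j).erase v)) (Function.update a j ((a j).erase v)) rfl ?_ ?_ ?_
      · rw [← hN]
        refine Finset.sum_lt_sum (fun i _ => Finset.card_le_card (hsub i)) ⟨j, hj, ?_⟩
        rw [Function.update_self]
        exact Finset.card_lt_card (Finset.erase_ssubset hv)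
      · intro u
        refine le_trans (Finset.card_le_card ?_) (hR u)
        intro i hi
        rw [Finset.mem_filter] at hi ⊢
        exact ⟨hi.1, hsub i hi.2⟩
      · intro i hi
        refine ⟨?_, (hsub i).trans (hM i hi).2⟩
        by_cases hij : i = j
        · rw [hij, Function.update_self, Function.update_self]
          exact Finset.erase_subset_erase v (hM j hj).1
        · rw [Function.update_of_ne hij, Function.update_of_ne hij]
          exact (hM i hi).1
      · rw [minB_upd J M a hj v h]
        exact hf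

/-- Minimal representation. -/
theorem minB : S_MinB := by
  intro n k W f hf
  obtain ⟨J, M, a, hR, hM, hfe⟩ := hf
  obtain ⟨M', a', h1, h2, h3, h4⟩ := minB_aux k W f J _ M a rfl hR hM hfe
  exact ⟨J, M', a', h1, h2, h3, h4⟩

end Pool.Agent.MP3145b1.F
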