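import Pool.Agent.Lib.MP_3145b1_co.F.Spec

/-!
# A numerical inequality
-/

set_option autoImplicit false

namespace Pool.Agent.MP3145b1.F

open Finset

private theorem nm_y (y : ℝ) (hy : 0 ≤ y) : y * (1 / 2 : ℝ) ^ y ≤ 5 / 8 := by
  have h1 := Real.add_one_le_exp (y * Real.log 2 - 1)
  rw [sub_add_cancel, Real.exp_sub] at h1
  have h2 := Real.exp_one_gt_d9
  have h3 := Real.log_two_gt_d9
  have h4 : (1 / 2 : ℝ) ^ y = (Real.exp (y * Real.log 2))⁻¹ := by
    rw [one_div, Real.inv_rpow (by norm_num), Real.rpow_def_of_pos (by norm_num), mul_comm]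
  have h5 : 0 < Real.exp (y * Real.log 2) := Real.exp_pos _
  rw [le_div_iff₀ (Real.exp_pos 1)] at h1
  rw [h4, ← div_eq_mul_inv, div_le_iff₀ h5]
  have h6 : y * (8 / 5) ≤ y * Real.log 2 * Real.exp 1 := by
    rw [mul_assoc]
    refine mul_le_mul_of_nonneg_left ?_ hy
    nlinarith
  linarith

theorem nm : S_Nm := by
  intro k m j hk hj hjm
  have hk' : (1 : ℝ) ≤ k := by exact_mod_cast hk
  have hj' : (1 : ℝ) ≤ j := by exact_mod_cast hj
  have hm' : (0 : ℝ) < m := by exact_mod_cast (by omega : 0 < m)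
  by_cases h : m ≤ 2 * j
  · have h1 : (1 / 2 : ℝ) ^ (((m - j : ℕ) : ℝ) / (4 * k)) ≤ 1 :=
      Real.rpow_le_one (by norm_num) (by norm_num) (by positivity)
    have h2 : (m : ℝ) ≤ 2 * j := by exact_mod_cast h
    have h3 : (5 : ℝ) ≤ 10 * k * j / m := by
      rw [le_div_iff₀ hm']
      nlinarith
    have h4 := Real.add_one_le_exp (10 * (k : ℝ) * j / m)
    linarith
  · have hlt : 2 * j < m := by omega
    have h1 : (m : ℝ) / (8 * k) ≤ ((m - j : ℕ) : ℝ) / (4 * k) := by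
      rw [Nat.cast_sub hjm, div_le_div_iff₀ (by positivity) (by positivity)]
      have h2 : 2 * (j : ℝ) ≤ m := by exact_mod_cast hlt.le
      nlinarith
    have h2 : (1 / 2 : ℝ) ^ (((m - j : ℕ) : ℝ) / (4 * k)) ≤ (1 / 2 : ℝ) ^ ((m : ℝ) / (8 * k)) :=
      Real.rpow_le_rpow_of_exponent_ge (by norm_num) (by norm_num) h1
    have h3 := nm_y ((m : ℝ) / (8 * k)) (by positivity)
    have h4 : 2 * (1 / 2 : ℝ) ^ ((m : ℝ) / (8 * k)) ≤ 10 * k / m := by
      rw [le_div_iff₀ hm']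
      have h5 : (m : ℝ) / (8 * k) * (1 / 2 : ℝ) ^ ((m : ℝ) / (8 * k)) * (16 * k) =
          2 * (1 / 2 : ℝ) ^ ((m : ℝ) / (8 * k)) * m := by
        field_simp
        ring
      rw [← h5]
      nlinarith
    have h5 : (10 : ℝ) * k / m ≤ 10 * k * j / m := by
      refine div_le_div_of_nonneg_right ?_ hm'.le
      nlinarith
    have h6 := Real.add_one_le_exp (10 * (k : ℝ) * j / m)
    linarith

end Pool.Agent.MP3145b1.F
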