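import Pool.Agent.Lib.MP_3145b1_co.F.Spec

/-!
# MP_3145b1_co, mixed norm of a negated DNF (`S_NormB`)
-/

set_option autoImplicit false

namespace Pool.Agent.MP3145b1.F

open Finset

private theorem nbAux_zf {n : ℕ} (J : Finset ℕ) (M a : ℕ → Finset (Fin n))
    (A : Finset (Fin n)) : zf J M a A = 0 ∨ zf J M a A = 1 := by
  induction J using Finset.induction_on with
  | empty =>
    right
    rw [zf, Finset.prod_empty]
  | insert j J hj ih =>
    have h1 : zf (insert j J) M a A = (1 - tm (M j) (a j) A) * zf J M a A := by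
      rw [zf, Finset.prod_insert hj, zf]
    rw [h1, tm]
    rcases ih with h | h <;> rw [h] <;> split_ifs <;> simp

private theorem nbAux_sq {n : ℕ} (J : Finset ℕ) (M a : ℕ → Finset (Fin n))
    (A : Finset (Fin n)) : zf J M a A ^ 2 = zf J M a A := by
  rcases nbAux_zf J M a A with h | h <;> rw [h] <;> norm_num

private theorem nbAux_mn {n : ℕ} (J : Finset ℕ) (M a : ℕ → Finset (Fin n)) :
    0 ≤ mn (zf J M a) := by
  refine mul_nonneg (by positivity) (Finset.sum_nonneg fun A _ => ?_)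
  rcases nbAux_zf J M a A with h | h <;> rw [h] <;> norm_num

private theorem nbAux_rd {n k : ℕ} {J G : Finset ℕ} {M : ℕ → Finset (Fin n)} (h : Rd k J M)
    (hG : G ⊆ J) : Rd k G M := fun v =>
  (Finset.card_le_card (Finset.filter_subset_filter _ hG)).trans (h v)

private theorem nbAux_exp {y : ℝ} (h0 : 0 ≤ y) (h1 : y ≤ 1 / 2) : Real.exp (-(2 * y)) ≤ 1 - y := by
  have h2 : 1 + 2 * y ≤ Real.exp (2 * y) := by
    have := Real.add_one_le_exp (2 * y)
    linarith
  rw [Real.exp_neg]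
  have h3 : (Real.exp (2 * y))⁻¹ ≤ (1 + 2 * y)⁻¹ := by
    apply inv_anti₀ (by linarith) h2
  refine h3.trans ?_
  rw [inv_le_iff_one_le_mul₀ (by linarith)]
  nlinarith

private theorem nbAux_w (w : ℕ) : (w : ℝ) * (3 / 5 : ℝ) ^ w ≤ 2 := by
  have h1 : 1 + (w : ℝ) * (2 / 3) ≤ (1 + 2 / 3 : ℝ) ^ w :=
    one_add_mul_le_pow (by norm_num) w
  have h2 : (3 / 5 : ℝ) ^ w * (1 + 2 / 3 : ℝ) ^ w = 1 := by
    rw [← mul_pow]
    norm_num
  have h3 : 0 < (3 / 5 : ℝ) ^ w := by positivity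
  nlinarith [mul_le_mul_of_nonneg_left h1 h3.le]

private theorem nbAux_half (t : ℕ) : (3 / 5 : ℝ) ^ t ≤ (1 / 2 : ℝ) ^ ((t : ℝ) / 2) := by
  have h1 : (1 / 2 : ℝ) ^ ((t : ℝ) / 2) = ((1 / 2 : ℝ) ^ (1 / 2 : ℝ)) ^ t := by
    rw [← Real.rpow_natCast, ← Real.rpow_mul (by norm_num)]
    congr 1
    ring
  rw [h1, ← Real.sqrt_eq_rpow]
  refine pow_le_pow_left₀ (by norm_num) ?_ t
  refine Real.le_sqrt_of_sq_le ?_
  norm_num

theorem normB (h1 : S_LP) (h2 : S_Prod) (h3 : S_Un) : S_NormB := by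
  intro n k w J M a U hk hw hkw hRd hJ
  classical
  obtain ⟨near, hnear⟩ : ∃ x, x = J.filter fun j => ¬ Disjoint (M j) U := ⟨_, rfl⟩
  obtain ⟨far, hfar⟩ : ∃ x, x = J.filter fun j => Disjoint (M j) U := ⟨_, rfl⟩
  have hnJ : near ⊆ J := by
    rw [hnear]
    exact Finset.filter_subset _ _
  have hfJ : far ⊆ J := by
    rw [hfar]
    exact Finset.filter_subset _ _
  have hsd : J \ far = near := by
    rw [hnear, hfar, Finset.filter_not]
  have hzf : ∀ A, zf J M a A = (∏ j ∈ near, (1 - 1 * tm (M j) (a j) A)) * zf far M a A := by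
    intro A
    simp only [one_mul]
    rw [zf, zf, ← hsd, Finset.prod_sdiff hfJ]
  have hu : ∀ A, zf far M a (A \ U) = zf far M a A := by
    intro A
    rw [zf, zf]
    refine Finset.prod_congr rfl fun j hj => ?_
    have h4 : Disjoint (M j) U := by
      rw [hfar, Finset.mem_filter] at hj
      exact hj.2
    have h5 : (A \ U) ∩ M j = A ∩ M j := by
      ext i
      simp only [Finset.mem_inter, Finset.mem_sdiff]
      constructor
      · rintro ⟨⟨h6, _⟩, h7⟩
        exact ⟨h6, h7⟩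
      · rintro ⟨h6, h7⟩
        exact ⟨⟨h6, Finset.disjoint_left.1 h4 h7⟩, h7⟩
    rw [tm, tm, h5]
  obtain ⟨p, hp⟩ : ∃ x, x = mn (zf J M a) := ⟨_, rfl⟩
  obtain ⟨q, hq⟩ : ∃ x, x = mn (zf far M a) := ⟨_, rfl⟩
  have hp0 : 0 ≤ p := by
    rw [hp]
    exact nbAux_mn _ _ _
  have hq0 : 0 ≤ q := by
    rw [hq]
    exact nbAux_mn _ _ _
  -- the norm
  have hmain := h2 n k w near M a U (zf far M a) (Real.sqrt q) 1 hw (Real.sqrt_nonneg _)
    zero_le_one (by norm_num) (nbAux_rd hRd hnJ) (fun j hj => (hJ j (hnJ hj)).2)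
    (fun j hj => (hJ j (hnJ hj)).1) (fun j hj => by
      rw [hnear, Finset.mem_filter] at hj
      exact hj.2) hu (fun M' a' => by
        have h4 := (h1 n k w far M a hkw (nbAux_rd hRd hfJ) fun j hj => (hJ j (hfJ hj)).2).1
          (M' \ U) (a' \ U)
        have h5 : (fun A => tm (M' \ U) (a' \ U) A * zf far M a A ^ 2) =
            fun A => tm (M' \ U) (a' \ U) A * zf far M a A := by
          funext A
          rw [nbAux_sq]
        rw [h5, Real.sq_sqrt hq0]
        refine h4.trans ?_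
        rw [← hq, mul_comm]
        exact mul_le_mul_of_nonneg_left (nbAux_half _) hq0)
  have heq : (fun A => (∏ j ∈ near, (1 - 1 * tm (M j) (a j) A)) * zf far M a A) = zf J M a := by
    funext A
    exact (hzf A).symm
  rw [heq] at hmain
  -- comparison of `q` and `p`
  obtain ⟨y, hy⟩ : ∃ x : ℝ, x = (3 / 5 : ℝ) ^ w := ⟨_, rfl⟩
  have hk' : (1 : ℝ) ≤ k := by exact_mod_cast hk
  have hy0 : 0 ≤ y := by
    rw [hy]
    positivity
  rw [← hy] at hkw
  have hy1 : y ≤ 1 / 2 := by nlinarith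
  have hcard : (near.card : ℝ) ≤ k * U.card := by
    have h4 := (h3 n k J near M U hRd hnJ).2
    have h5 : near.card ≤ ∑ j ∈ near, ((M j) ∩ U).card := by
      rw [Finset.card_eq_sum_ones]
      refine Finset.sum_le_sum fun j hj => ?_
      rw [hnear, Finset.mem_filter] at hj
      rw [Nat.succ_le_iff, Finset.card_pos, ← Finset.not_disjoint_iff_nonempty_inter]
      exact hj.2
    exact_mod_cast h5.trans h4
  have hqp : Real.exp (-(2 * (y * (k * U.card)))) * q ≤ p := by
    have h4 := (h1 n k w J M a (by rw [← hy]; exact hkw) hRd fun j hj => (hJ j hj).2).2.1 far hfJ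
    rw [← hy, ← hq, ← hp, hsd] at h4
    refine le_trans (mul_le_mul_of_nonneg_right ?_ hq0) h4
    have h5 : Real.exp (-(2 * y)) ^ near.card ≤ (1 - y) ^ near.card :=
      pow_le_pow_left₀ (Real.exp_pos _).le (nbAux_exp hy0 hy1) _
    refine le_trans ?_ h5
    rw [← Real.exp_nat_mul]
    refine Real.exp_le_exp.2 ?_
    nlinarith [mul_le_mul_of_nonneg_left hcard hy0]
  have hqp2 : Real.sqrt q ≤ Real.sqrt p * Real.exp (y * (k * U.card)) := by
    have h4 : q ≤ p * Real.exp (2 * (y * (k * U.card))) := by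
      rw [Real.exp_neg, inv_mul_le_iff₀ (Real.exp_pos _)] at hqp
      rw [mul_comm]
      exact hqp
    refine (Real.sqrt_le_sqrt h4).trans ?_
    rw [Real.sqrt_mul hp0]
    refine mul_le_mul_of_nonneg_left ?_ (Real.sqrt_nonneg _)
    refine Real.sqrt_le_iff.2 ⟨(Real.exp_pos _).le, ?_⟩
    rw [← Real.exp_nat_mul]
    exact le_of_eq (by push_cast; rfl)
  refine hmain.trans ?_
  rw [← hp]
  have hw' : (0 : ℝ) < w := by exact_mod_cast hw
  have hexp : y * (k * U.card) + 10 * (k : ℝ) ^ 2 * U.card / w ≤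
      12 * (k : ℝ) ^ 2 * U.card / w := by
    have h4 : y ≤ 2 * k / w := by
      rw [le_div_iff₀ hw', mul_comm]
      have := nbAux_w w
      rw [← hy] at this
      linarith
    have h5 : y * (k * U.card) ≤ 2 * k / w * (k * U.card) :=
      mul_le_mul_of_nonneg_right h4 (by positivity)
    have h6 : 2 * (k : ℝ) / w * (k * U.card) + 10 * (k : ℝ) ^ 2 * U.card / w =
      12 * (k : ℝ) ^ 2 * U.card / w := by ring
    linarith
  calc Real.sqrt q * Real.exp (10 * (k : ℝ) ^ 2 * U.card / w)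
      ≤ (Real.sqrt p * Real.exp (y * (k * U.card))) * Real.exp (10 * (k : ℝ) ^ 2 * U.card / w) :=
        mul_le_mul_of_nonneg_right hqp2 (Real.exp_pos _).le
    _ = Real.sqrt p * Real.exp (y * (k * U.card) + 10 * (k : ℝ) ^ 2 * U.card / w) := by
        rw [mul_assoc, ← Real.exp_add]
    _ ≤ Real.sqrt p * Real.exp (12 * (k : ℝ) ^ 2 * U.card / w) :=
        mul_le_mul_of_nonneg_left (Real.exp_le_exp.2 hexp) (Real.sqrt_nonneg _)

end Pool.Agent.MP3145b1.F
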