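import Pool.Agent.Lib.MP_3145b1_co.F.Spec

/-!
# MP_3145b1_co, module PolB: basic facts on polynomials over `F_2`
-/

set_option autoImplicit false

namespace Pool.Agent.MP3145b1.F

open Finset

variable {n : ℕ}

/-- The monomial of `M`. -/
private def polB_mo (M : Finset (Fin n)) (A : Finset (Fin n)) : ZMod 2 := if M ⊆ A then 1 else 0

private theorem polB_mo_mem {W : Finset (Fin n)} {d : ℕ} {M : Finset (Fin n)} (h1 : M ⊆ W)
    (h2 : M.card ≤ d) : polB_mo M ∈ Pol W d := Submodule.subset_span ⟨M, h1, h2, rfl⟩

/-- A linear map which maps the monomials to `P` maps `Pol W d` to `P`. -/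
private theorem polB_lin {W : Finset (Fin n)} {d : ℕ} (P : Submodule (ZMod 2) (Finset (Fin n) → ZMod 2))
    (F : (Finset (Fin n) → ZMod 2) →ₗ[ZMod 2] (Finset (Fin n) → ZMod 2))
    (h : ∀ M : Finset (Fin n), M ⊆ W → M.card ≤ d → F (polB_mo M) ∈ P)
    {q : Finset (Fin n) → ZMod 2} (hq : q ∈ Pol W d) : F q ∈ P := by
  have h1 : Pol W d ≤ P.comap F := by
    refine Submodule.span_le.2 ?_
    rintro g ⟨M, hM, hd, rfl⟩
    exact h M hM hd
  exact h1 hq

/-- Composition with a map of the points. -/
private def polB_c (φ : Finset (Fin n) → Finset (Fin n)) :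
    (Finset (Fin n) → ZMod 2) →ₗ[ZMod 2] (Finset (Fin n) → ZMod 2) :=
  LinearMap.funLeft (ZMod 2) (ZMod 2) φ

private theorem polB_er (v : Fin n) (M : Finset (Fin n)) :
    polB_c (fun A => A.erase v) (polB_mo M) = if v ∈ M then 0 else polB_mo M := by
  funext A
  change (if M ⊆ A.erase v then (1 : ZMod 2) else 0) = _
  by_cases hv : v ∈ M
  · rw [if_pos hv, if_neg fun h => (Finset.notMem_erase v A) (h hv)]
    rfl
  · rw [if_neg hv]
    refine if_congr ?_ rfl rfl
    rw [Finset.subset_erase]
    exact ⟨fun h => h.1, fun h => ⟨h, hv⟩⟩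

private theorem polB_ins (v : Fin n) (M : Finset (Fin n)) :
    polB_c (fun A => insert v A) (polB_mo M) = polB_mo (M.erase v) := by
  funext A
  change (if M ⊆ insert v A then (1 : ZMod 2) else 0) = if M.erase v ⊆ A then 1 else 0
  exact if_congr Finset.subset_insert_iff rfl rfl

private theorem polB_dv (v : Fin n) (q : Finset (Fin n) → ZMod 2) :
    dv v q = (polB_c (fun A => insert v A) - polB_c (fun A => A.erase v)) q := rfl

private theorem polB_dm (v : Fin n) (M : Finset (Fin n)) :
    (polB_c (fun A => insert v A) - polB_c (fun A => A.erase v)) (polB_mo M) =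
      if v ∈ M then polB_mo (M.erase v) else 0 := by
  rw [LinearMap.sub_apply, polB_er, polB_ins]
  by_cases hv : v ∈ M
  · rw [if_pos hv, if_pos hv, sub_zero]
  · rw [if_neg hv, if_neg hv, Finset.erase_eq_of_notMem hv, sub_self]

/-- The terms are polynomials. -/
private theorem polB_term {W : Finset (Fin n)} {d : ℕ} : ∀ (N : ℕ) (M a : Finset (Fin n)),
    (M \ a).card = N → a ⊆ M → M ⊆ W → M.card ≤ d →
      (fun A => if A ∩ M = a then (1 : ZMod 2) else 0) ∈ Pol W d := by
  intro N
  induction N with
  | zero =>
    intro M a h0 ha hM hd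
    have h1 : a = M := by
      rw [Finset.card_eq_zero, Finset.sdiff_eq_empty_iff_subset] at h0
      exact Finset.Subset.antisymm ha h0
    subst h1
    have h2 : (fun A => if A ∩ a = a then (1 : ZMod 2) else 0) = polB_mo a := by
      funext A
      exact if_congr Finset.inter_eq_right rfl rfl
    rw [h2]
    exact polB_mo_mem hM hd
  | succ N ih =>
    intro M a h0 ha hM hd
    obtain ⟨i, hi⟩ : (M \ a).Nonempty := by
      rw [← Finset.card_pos]
      omega
    obtain ⟨hi1, hi2⟩ := Finset.mem_sdiff.1 hi
    have e1 : (fun A => if A ∩ M = a then (1 : ZMod 2) else 0) =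
        (fun A => if A ∩ M.erase i = a then (1 : ZMod 2) else 0) -
          fun A => if A ∩ M = insert i a then (1 : ZMod 2) else 0 := by
      funext A
      rw [Pi.sub_apply]
      by_cases hA : i ∈ A
      · have c1 : ¬ A ∩ M = a := by
          intro h
          exact hi2 (h ▸ Finset.mem_inter.2 ⟨hA, hi1⟩)
        have c2 : A ∩ M.erase i = a ↔ A ∩ M = insert i a := by
          constructor
          · intro h
            rw [← h]
            ext j
            by_cases hj : j = i
            · subst hj
              simp [hA, hi1]
            · simp [hj]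
          · intro h
            ext j
            have h' := Finset.ext_iff.1 h j
            by_cases hj : j = i
            · subst hj
              simp [hi2]
            · simp only [Finset.mem_inter, Finset.mem_insert, hj, false_or] at h'
              simp [hj, h']
        rw [if_neg c1]
        by_cases h : A ∩ M = insert i a
        · rw [if_pos h, if_pos (c2.2 h), sub_self]
        · rw [if_neg h, if_neg fun h' => h (c2.1 h'), sub_self]
      · have c1 : ¬ A ∩ M = insert i a := by
          intro h
          have h' := Finset.ext_iff.1 h i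
          simp [hA] at h'
        have c2 : A ∩ M.erase i = A ∩ M := by
          ext j
          by_cases hj : j = i
          · subst hj
            simp [hA]
          · simp [hj]
        rw [if_neg c1, sub_zero, c2]
    rw [e1]
    have k1 : (M.erase i \ a).card = N := by
      have h2 : M.erase i \ a = (M \ a).erase i := by
        ext j
        simp only [Finset.mem_sdiff, Finset.mem_erase]
        tauto
      rw [h2, Finset.card_erase_of_mem hi, h0]
      rfl
    have k2 : (M \ insert i a).card = N := by
      have h2 : M \ insert i a = (M \ a).erase i := by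
        ext j
        simp only [Finset.mem_sdiff, Finset.mem_erase, Finset.mem_insert, not_or]
        tauto
      rw [h2, Finset.card_erase_of_mem hi, h0]
      rfl
    refine Submodule.sub_mem _ (ih (M.erase i) a k1 ?_ ?_ ?_) (ih M (insert i a) k2 ?_ hM hd)
    · intro j hj
      refine Finset.mem_erase.2 ⟨?_, ha hj⟩
      rintro rfl
      exact hi2 hj
    · exact (Finset.erase_subset _ _).trans hM
    · exact (Finset.card_le_card (Finset.erase_subset _ _)).trans hd
    · exact Finset.insert_subset hi1 ha

theorem polB : S_PolB := by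
  intro n d W q
  refine ⟨fun hq v => ⟨?_, ?_, fun hd => ?_, fun hd => ?_⟩, fun M a ha hM hd => ?_,
    fun d' W' hd hW => ?_, fun hq hv => ?_⟩
  · refine polB_lin (Pol (W.erase v) d) (polB_c fun A => A.erase v) (fun M hM hd => ?_) hq
    rw [polB_er]
    by_cases hv : v ∈ M
    · rw [if_pos hv]
      exact Submodule.zero_mem _
    · rw [if_neg hv]
      exact polB_mo_mem (Finset.subset_erase.2 ⟨hM, hv⟩) hd
  · refine polB_lin (Pol (W.erase v) d) (polB_c fun A => insert v A) (fun M hM hd => ?_) hq
    rw [polB_ins]
    exact polB_mo_mem (Finset.erase_subset_erase _ hM)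
      ((Finset.card_le_card (Finset.erase_subset _ _)).trans hd)
  · rw [polB_dv]
    refine polB_lin (Pol (W.erase v) (d - 1)) _ (fun M hM hd' => ?_) hq
    rw [polB_dm]
    by_cases hv : v ∈ M
    · rw [if_pos hv]
      refine polB_mo_mem (Finset.erase_subset_erase _ hM) ?_
      rw [Finset.card_erase_of_mem hv]
      omega
    · rw [if_neg hv]
      exact Submodule.zero_mem _
  · rw [polB_dv]
    have h1 := polB_lin (⊥ : Submodule (ZMod 2) (Finset (Fin n) → ZMod 2))
      (polB_c (fun A => insert v A) - polB_c (fun A => A.erase v)) (fun M hM hd' => ?_) hq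
    · exact (Submodule.mem_bot _).1 h1
    · rw [polB_dm, if_neg, Submodule.mem_bot]
      intro hv
      have := Finset.card_pos.2 ⟨v, hv⟩
      omega
  · exact polB_term _ M a rfl ha hM hd
  · refine Submodule.span_mono ?_
    rintro g ⟨M, h1, h2, h3⟩
    exact ⟨M, h1.trans hW, h2.trans hd, h3⟩
  · have key : ∀ A, q A = q (A ∩ W) := by
      have h1 := polB_lin (⊥ : Submodule (ZMod 2) (Finset (Fin n) → ZMod 2))
        (LinearMap.id - polB_c (fun A => A ∩ W)) (fun M hM hd' => ?_) hq
      · intro A
        have h2 := congrFun ((Submodule.mem_bot _).1 h1) A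
        exact sub_eq_zero.1 h2
      · rw [Submodule.mem_bot, LinearMap.sub_apply, sub_eq_zero]
        funext A
        change (if M ⊆ A then (1 : ZMod 2) else 0) = if M ⊆ A ∩ W then 1 else 0
        refine if_congr ⟨fun h => Finset.subset_inter h hM, fun h => h.trans Finset.inter_subset_left⟩
          rfl rfl
    have walk : ∀ B : Finset (Fin n), B ⊆ W → q B = q ∅ := by
      intro B
      induction B using Finset.induction_on with
      | empty => intro _; rfl
      | insert v B hvB ih =>
        intro hB
        have h1 := congrFun (hv v (hB (Finset.mem_insert_self v B))) B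
        have h2 : q (insert v B) - q (B.erase v) = 0 := h1
        rw [Finset.erase_eq_of_notMem hvB, sub_eq_zero] at h2
        rw [h2]
        exact ih ((Finset.subset_insert v B).trans hB)
    intro A
    rw [key A]
    exact walk _ Finset.inter_subset_right

end Pool.Agent.MP3145b1.F
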