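import Pool.Agent.Lib.MP_3145b1_co.F.Spec

/-!
# MP_3145b1_co, part F: the main bound for the mixed norm (`S_Prod`)
-/

set_option autoImplicit false

namespace Pool.Agent.MP3145b1.F

open Finset

private theorem prod_tm {n : ℕ} (G : Finset ℕ) (M a : ℕ → Finset (Fin n)) :
    (∀ A, ∏ j ∈ G, tm (M j) (a j) A = tm (G.biUnion M) (G.biUnion a) A) ∨
      (∀ A, ∏ j ∈ G, tm (M j) (a j) A = 0) := by
  have key : ∀ A : Finset (Fin n), (∀ j ∈ G, A ∩ M j = a j) →
      A ∩ G.biUnion M = G.biUnion a := by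
    intro A hA
    ext v
    simp only [mem_inter, mem_biUnion]
    constructor
    · rintro ⟨h1, j, hj, hv⟩
      exact ⟨j, hj, by rw [← hA j hj]; exact mem_inter.2 ⟨h1, hv⟩⟩
    · rintro ⟨j, hj, hv⟩
      rw [← hA j hj] at hv
      exact ⟨(mem_inter.1 hv).1, j, hj, (mem_inter.1 hv).2⟩
  have hsub : ∀ (A : Finset (Fin n)), ∀ j ∈ G, (A ∩ G.biUnion M) ∩ M j = A ∩ M j := by
    intro A j hj
    ext v
    simp only [mem_inter, mem_biUnion]
    exact ⟨fun h => ⟨h.1.1, h.2⟩, fun h => ⟨⟨h.1, j, hj, h.2⟩, h.2⟩⟩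
  have hone : ∀ A : Finset (Fin n), (∀ j ∈ G, A ∩ M j = a j) →
      ∏ j ∈ G, tm (M j) (a j) A = 1 := by
    intro A hA
    exact prod_eq_one fun j hj => by unfold tm; rw [if_pos (hA j hj)]
  have hzero : ∀ A : Finset (Fin n), (¬ ∀ j ∈ G, A ∩ M j = a j) →
      ∏ j ∈ G, tm (M j) (a j) A = 0 := by
    intro A hA
    obtain ⟨j, hA⟩ := not_forall.1 hA
    obtain ⟨hj, h⟩ := Classical.not_imp.1 hA
    exact prod_eq_zero hj (by unfold tm; rw [if_neg h])
  by_cases hc : ∀ j ∈ G, G.biUnion a ∩ M j = a j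
  · left
    intro A
    by_cases hA : ∀ j ∈ G, A ∩ M j = a j
    · rw [hone A hA]
      unfold tm
      rw [if_pos (key A hA)]
    · rw [hzero A hA]
      unfold tm
      rw [if_neg]
      intro h
      apply hA
      intro j hj
      rw [← hc j hj, ← h, hsub A j hj]
  · right
    intro A
    refine hzero A fun hA => hc fun j hj => ?_
    rw [← key A hA, hsub A j hj, hA j hj]

private theorem prod_rpow_sum (G : Finset ℕ) (f : ℕ → ℝ) :
    ∏ j ∈ G, (1 / 2 : ℝ) ^ (f j) = (1 / 2 : ℝ) ^ (∑ j ∈ G, f j) :=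
  (Real.rpow_sum_of_pos (by norm_num) f G).symm

/-- the main bound for the norm -/
theorem prod (h1 : S_LSum) (h2 : S_LTerm) (h3 : S_Nm) (h4 : S_Un) : S_Prod := by
  intro n k w J M a U u K c hw hK hc0 hc2 hR hwM haM hU hu hK2
  -- the bound for one term
  have hterm : ∀ M' a' : Finset (Fin n), LU U (fun A => tm M' a' A * u A) ≤
      K * (1 / 2 : ℝ) ^ (((M' \ U).card : ℝ) / 4) := by
    intro M' a'
    refine (h2 n U M' a' u hu).trans ?_
    refine (Real.sqrt_le_sqrt (hK2 M' a')).trans ?_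
    have e : K ^ 2 * (1 / 2 : ℝ) ^ (((M' \ U).card : ℝ) / 2) =
        (K * (1 / 2 : ℝ) ^ (((M' \ U).card : ℝ) / 4)) ^ 2 := by
      rw [mul_pow, ← Real.rpow_natCast ((1 / 2 : ℝ) ^ (((M' \ U).card : ℝ) / 4)) 2,
        ← Real.rpow_mul (by norm_num)]
      congr 2
      push_cast
      ring
    rw [e, Real.sqrt_sq (mul_nonneg hK (by positivity))]
  -- every `j ∈ J` meets `U`
  have hJ : ∀ j ∈ J, 1 ≤ k ∧ 1 ≤ (M j ∩ U).card := by
    intro j hj
    obtain ⟨v, hv⟩ := Finset.not_disjoint_iff_nonempty_inter.1 (hU j hj)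
    refine ⟨?_, Finset.card_pos.2 ⟨v, hv⟩⟩
    have h5 := hR v
    have h6 : j ∈ J.filter fun j => v ∈ M j := mem_filter.2 ⟨hj, (mem_inter.1 hv).1⟩
    have h7 : 1 ≤ (J.filter fun j => v ∈ M j).card := Finset.card_pos.2 ⟨j, h6⟩
    omega
  set y : ℕ → ℝ := fun j => (1 / 2 : ℝ) ^ ((((M j) \ U).card : ℝ) / (4 * k)) with hy
  have hy0 : ∀ j, 0 ≤ y j := fun j => by rw [hy]; positivity
  -- the terms of the expansion
  have hG : ∀ G ∈ J.powerset, LU U (fun A => (∏ j ∈ G, tm (M j) (a j) A) * u A) ≤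
      K * ∏ j ∈ G, y j := by
    intro G hG
    rw [mem_powerset] at hG
    have hpos : 0 ≤ K * ∏ j ∈ G, y j := mul_nonneg hK (prod_nonneg fun j _ => hy0 j)
    rcases prod_tm G M a with h | h
    · have e : (fun A => (∏ j ∈ G, tm (M j) (a j) A) * u A) =
          fun A => tm (G.biUnion M) (G.biUnion a) A * u A := by
        funext A
        rw [h A]
      rw [e]
      refine (hterm _ _).trans ?_
      refine mul_le_mul_of_nonneg_left ?_ hK
      rw [hy]
      simp only
      rw [prod_rpow_sum]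
      apply Real.rpow_le_rpow_of_exponent_ge (by norm_num) (by norm_num)
      have h5 := (h4 n k J G M U hR hG).1
      have h6 : (∑ j ∈ G, (((M j) \ U).card : ℝ)) ≤ k * (((G.biUnion M) \ U).card : ℝ) := by
        exact_mod_cast h5
      rw [← Finset.sum_div]
      rcases Nat.eq_zero_or_pos k with hk | hk
      · rw [hk]
        simp only [Nat.cast_zero, mul_zero, div_zero]
        positivity
      · have hk' : (0 : ℝ) < k := by exact_mod_cast hk
        rw [div_le_div_iff₀ (by positivity) (by norm_num)]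
        nlinarith [h6]
    · have e : (fun A => (∏ j ∈ G, tm (M j) (a j) A) * u A) =
          fun A : Finset (Fin n) => ∑ i ∈ (∅ : Finset ℕ), (0 : ℝ) * (fun _ _ => (0 : ℝ)) i A := by
        funext A
        rw [h A]
        simp
      rw [e]
      refine (h1 n ℕ ∅ U (fun _ => 0) (fun _ _ => 0)).trans ?_
      simpa using hpos
  -- the expansion
  have hexp : (fun A => (∏ j ∈ J, (1 - c * tm (M j) (a j) A)) * u A) =
      fun A => ∑ G ∈ J.powerset, (-c) ^ G.card *
        (fun (G : Finset ℕ) (A : Finset (Fin n)) => (∏ j ∈ G, tm (M j) (a j) A) * u A) G A := by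
    funext A
    have e : ∀ j ∈ J, 1 - c * tm (M j) (a j) A = 1 + (-c) * tm (M j) (a j) A := by
      intro j _
      ring
    rw [prod_congr rfl e, prod_one_add, sum_mul]
    refine sum_congr rfl fun G _ => ?_
    rw [prod_mul_distrib, prod_const]
    ring
  rw [hexp]
  refine (h1 n (Finset ℕ) J.powerset U (fun G => (-c) ^ G.card)
    (fun G A => (∏ j ∈ G, tm (M j) (a j) A) * u A)).trans ?_
  have h5 : ∑ G ∈ J.powerset, |(-c) ^ G.card| *
      LU U ((fun (G : Finset ℕ) (A : Finset (Fin n)) =>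
        (∏ j ∈ G, tm (M j) (a j) A) * u A) G) ≤
      ∑ G ∈ J.powerset, c ^ G.card * (K * ∏ j ∈ G, y j) := by
    refine sum_le_sum fun G hG' => ?_
    rw [abs_pow, abs_neg, abs_of_nonneg hc0]
    exact mul_le_mul_of_nonneg_left (hG G hG') (pow_nonneg hc0 _)
  refine h5.trans ?_
  have h6 : ∑ G ∈ J.powerset, c ^ G.card * (K * ∏ j ∈ G, y j) =
      K * ∏ j ∈ J, (1 + c * y j) := by
    rw [prod_one_add, mul_sum]
    refine sum_congr rfl fun G _ => ?_
    rw [prod_mul_distrib, prod_const]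
    ring
  rw [h6]
  refine mul_le_mul_of_nonneg_left ?_ hK
  have hw' : (0 : ℝ) < w := by exact_mod_cast hw
  have h7 : ∀ j ∈ J, 1 + c * y j ≤ Real.exp (10 * k * ((M j ∩ U).card : ℝ) / w) := by
    intro j hj
    obtain ⟨hk, hju⟩ := hJ j hj
    have hle : (M j ∩ U).card ≤ (M j).card := card_le_card inter_subset_left
    have h8 := h3 k (M j).card (M j ∩ U).card hk hju hle
    have h9 : (M j).card - (M j ∩ U).card = (M j \ U).card := by
      have := card_sdiff_add_card_inter (M j) U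
      omega
    rw [h9] at h8
    have h10 : c * y j ≤ 2 * y j := mul_le_mul_of_nonneg_right hc2 (hy0 j)
    have h11 : 10 * (k : ℝ) * ((M j ∩ U).card : ℝ) / (M j).card ≤
        10 * k * ((M j ∩ U).card : ℝ) / w := by
      apply div_le_div_of_nonneg_left (by positivity) hw'
      exact_mod_cast hwM j hj
    calc 1 + c * y j ≤ 1 + 2 * y j := by linarith
      _ ≤ _ := h8
      _ ≤ _ := Real.exp_le_exp.2 h11
  calc ∏ j ∈ J, (1 + c * y j)
      ≤ ∏ j ∈ J, Real.exp (10 * k * ((M j ∩ U).card : ℝ) / w) :=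
        prod_le_prod (fun j _ => by have := mul_nonneg hc0 (hy0 j); linarith) h7
    _ = Real.exp (∑ j ∈ J, 10 * k * ((M j ∩ U).card : ℝ) / w) := (Real.exp_sum _ _).symm
    _ ≤ Real.exp (10 * k ^ 2 * U.card / w) := by
        apply Real.exp_le_exp.2
        have h12 := (h4 n k J J M U hR (Subset.refl J)).2
        have h13 : (∑ j ∈ J, ((M j ∩ U).card : ℝ)) ≤ k * (U.card : ℝ) := by
          exact_mod_cast h12
        rw [← Finset.sum_div, ← Finset.mul_sum]
        apply div_le_div_of_nonneg_right _ hw'.le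
        nlinarith [h13, (Nat.cast_nonneg k : (0 : ℝ) ≤ k)]

end Pool.Agent.MP3145b1.F
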