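import Pool.Agent.Lib.MP_3145b1_co.F.Spec

/-!
# MP_3145b1_co, F: minimum distance of the Reed-Muller code (`S_RM`)
-/

set_option autoImplicit false

namespace Pool.Agent.MP3145b1.F

open Finset

private theorem rm_L {n : ℕ} (v : Fin n) (g : Finset (Fin n) → ℝ) :
    ∑ A : Finset (Fin n), (g (A.erase v) + g (insert v A)) = 2 * ∑ A : Finset (Fin n), g A := by
  have h1 : ∀ A : Finset (Fin n), g (A.erase v) + g (insert v A) = g A + g (symmDiff A {v}) := by
    intro A
    by_cases hv : v ∈ A
    · have h2 : symmDiff A {v} = A.erase v := by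
        ext x
        simp only [Finset.mem_symmDiff, Finset.mem_singleton, Finset.mem_erase]
        constructor
        · rintro (⟨h3, h4⟩ | ⟨h3, h4⟩)
          · exact ⟨h4, h3⟩
          · exact absurd (h3 ▸ hv) h4
        · rintro ⟨h3, h4⟩
          exact Or.inl ⟨h4, h3⟩
      rw [h2, Finset.insert_eq_of_mem hv, add_comm]
    · have h2 : symmDiff A {v} = insert v A := by
        ext x
        simp only [Finset.mem_symmDiff, Finset.mem_singleton, Finset.mem_insert]
        constructor
        · rintro (⟨h3, h4⟩ | ⟨h3, h4⟩)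
          · exact Or.inr h3
          · exact Or.inl h3
        · rintro (h3 | h3)
          · exact Or.inr ⟨h3, fun h4 => hv (h3 ▸ h4)⟩
          · exact Or.inl ⟨h3, fun h4 => hv (h4 ▸ h3)⟩
      rw [h2, Finset.erase_eq_of_notMem hv]
  have h3 : ∑ A : Finset (Fin n), g (symmDiff A {v}) = ∑ A : Finset (Fin n), g A :=
    Equiv.sum_comp (symmDiff_left_involutive ({v} : Finset (Fin n))).toPerm g
  rw [Finset.sum_congr rfl fun A _ => h1 A, Finset.sum_add_distrib, h3]
  ring

private theorem rm_mn {n : ℕ} (v : Fin n) (q : Finset (Fin n) → ZMod 2) :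
    mn (fun A => if q A ≠ 0 then (1 : ℝ) else 0) =
      (mn (fun A => if q (A.erase v) ≠ 0 then (1 : ℝ) else 0) +
        mn (fun A => if q (insert v A) ≠ 0 then (1 : ℝ) else 0)) / 2 := by
  unfold mn
  have h1 := rm_L v (fun A => if q A ≠ 0 then (1 : ℝ) else 0)
  rw [Finset.sum_add_distrib] at h1
  rw [← mul_add, h1]
  ring

private theorem rm_const {n : ℕ} (d : ℕ) (q : Finset (Fin n) → ZMod 2) (hq : q ≠ 0)
    (hc : ∀ A, q A = q ∅) : (1 / 2 : ℝ) ^ d ≤ mn (fun A => if q A ≠ 0 then (1 : ℝ) else 0) := by
  have h1 : q ∅ ≠ 0 := by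
    intro h
    apply hq
    funext A
    rw [hc A, h]
    rfl
  have h2 : mn (fun A => if q A ≠ 0 then (1 : ℝ) else 0) = 1 := by
    unfold mn
    have h3 : ∀ A : Finset (Fin n), (if q A ≠ 0 then (1 : ℝ) else 0) = 1 := by
      intro A
      rw [hc A, if_pos h1]
    rw [Finset.sum_congr rfl fun A _ => h3 A, Finset.sum_const, Finset.card_univ,
      Fintype.card_finset, Fintype.card_fin, nsmul_eq_mul, mul_one]
    push_cast
    rw [← mul_pow]
    norm_num
  rw [h2]
  exact pow_le_one₀ (by norm_num) (by norm_num)

private theorem rm_nonneg {n : ℕ} (q : Finset (Fin n) → ZMod 2) :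
    0 ≤ mn (fun A => if q A ≠ 0 then (1 : ℝ) else 0) := by
  unfold mn
  refine mul_nonneg (by positivity) (Finset.sum_nonneg fun A _ => ?_)
  split_ifs <;> norm_num

theorem rm (h1 : S_PolB) : S_RM := by
  intro n d W
  induction W using Finset.induction_on generalizing d with
  | empty =>
    intro q hq hq0
    refine rm_const d q hq0 ((h1 n d ∅ q).2.2.2 hq (fun v hv => ?_))
    exact absurd hv (Finset.notMem_empty v)
  | insert v W hv ih =>
    intro q hq hq0
    by_cases hd : d = 0
    · refine rm_const d q hq0 ((h1 n d (insert v W) q).2.2.2 hq (fun w _ => ?_))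
      exact ((h1 n d (insert v W) q).1 hq w).2.2.2 hd
    · have hd1 : 1 ≤ d := Nat.one_le_iff_ne_zero.mpr hd
      obtain ⟨h2, h3, h4, -⟩ := (h1 n d (insert v W) q).1 hq v
      rw [Finset.erase_insert hv] at h2 h3 h4
      have h5 := h4 hd1
      have hhalf : (1 / 2 : ℝ) ^ d = (1 / 2 : ℝ) ^ (d - 1) / 2 := by
        obtain ⟨e, rfl⟩ := Nat.exists_eq_add_of_le hd1
        rw [Nat.add_sub_cancel_left, add_comm, pow_succ]
        ring
      have hq' : ∀ A, q A = q (A.erase v) ∨ q A = q (insert v A) := by
        intro A
        by_cases hA : v ∈ A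
        · exact Or.inr (by rw [Finset.insert_eq_of_mem hA])
        · exact Or.inl (by rw [Finset.erase_eq_of_notMem hA])
      rw [rm_mn v q]
      by_cases h6 : (fun A : Finset (Fin n) => q (A.erase v)) = 0
      · have h7 : ∀ A : Finset (Fin n), q (A.erase v) = 0 := fun A => congrFun h6 A
        have h8 : dv v q = fun A => q (insert v A) := by
          funext A
          unfold dv
          rw [h7 A, sub_zero]
        have h9 : (fun A : Finset (Fin n) => q (insert v A)) ≠ 0 := by
          intro h
          apply hq0
          funext A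
          rcases hq' A with h10 | h10
          · rw [h10, h7 A]; rfl
          · rw [h10]; exact congrFun h A
        rw [h8] at h5
        have h11 := ih (d - 1) _ h5 h9
        have h12 := rm_nonneg (fun A : Finset (Fin n) => q (A.erase v))
        rw [hhalf]
        linarith
      · by_cases h7 : (fun A : Finset (Fin n) => q (insert v A)) = 0
        · have h8 : ∀ A : Finset (Fin n), q (insert v A) = 0 := fun A => congrFun h7 A
          have h9 : dv v q = fun A => q (A.erase v) := by
            funext A
            unfold dv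
            rw [h8 A, zero_sub]
            exact ZModModule.neg_eq_self _
          rw [h9] at h5
          have h11 := ih (d - 1) _ h5 h6
          have h12 := rm_nonneg (fun A : Finset (Fin n) => q (insert v A))
          rw [hhalf]
          linarith
        · have h11 := ih d _ h2 h6
          have h12 := ih d _ h3 h7
          linarith

end Pool.Agent.MP3145b1.F
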