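import Pool.Agent.Lib.MP_3145b1_co.F.Spec

/-! # Restriction of a term -/

set_option autoImplicit false

namespace Pool.Agent.MP3145b1.F

open Finset

theorem res : S_Res := by
  intro n M a A v ha
  constructor
  · by_cases hv : v ∈ a
    · rw [if_pos hv, tm, if_neg]
      intro h
      rw [← h] at hv
      simp at hv
    · rw [if_neg hv, tm, tm]
      have h1 : A.erase v ∩ M = A ∩ M.erase v := by
        ext i
        simp only [mem_inter, mem_erase]
        tauto
      rw [h1]
  · by_cases hv : v ∈ M ∧ v ∉ a
    · rw [if_pos hv, tm, if_neg]
      intro h
      apply hv.2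
      rw [← h]
      exact mem_inter.mpr ⟨mem_insert_self _ _, hv.1⟩
    · rw [if_neg hv, tm, tm]
      have h1 : insert v A ∩ M = a ↔ A ∩ M.erase v = a.erase v := by
        constructor
        · intro h
          ext i
          have h2 : i ∈ insert v A ∩ M ↔ i ∈ a := by rw [h]
          simp only [mem_inter, mem_erase, mem_insert] at h2 ⊢
          tauto
        · intro h
          ext i
          have h2 : i ∈ A ∩ M.erase v ↔ i ∈ a.erase v := by rw [h]
          simp only [mem_inter, mem_erase, mem_insert] at h2 ⊢
          by_cases hi : i = v
          · subst hi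
            constructor
            · rintro ⟨-, h3⟩
              by_contra h4
              exact hv ⟨h3, h4⟩
            · intro h3
              exact ⟨Or.inl rfl, ha h3⟩
          · tauto
      by_cases h2 : insert v A ∩ M = a
      · rw [if_pos h2, if_pos (h1.mp h2)]
      · rw [if_neg h2, if_neg (fun h => h2 (h1.mpr h))]

end Pool.Agent.MP3145b1.F
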