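import Pool.Agent.Lib.MP_3145b1_co.F.Spec

/-!
# MP_3145b1_co, part F: the class `PA` is closed under restrictions (`S_ResA`)
-/

set_option autoImplicit false

namespace Pool.Agent.MP3145b1.F

open Finset

variable {n : ℕ}

private theorem resA_rd {k : ℕ} {J J' : Finset ℕ} {M M' : ℕ → Finset (Fin n)} (h : Rd k J M)
    (hJ : J' ⊆ J) (hM : ∀ j ∈ J', M' j ⊆ M j) : Rd k J' M' := fun w =>
  (card_le_card fun j hj => by
    rw [mem_filter] at hj ⊢
    exact ⟨hJ hj.1, hM j hj.1 hj.2⟩).trans (h w)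

/-- The factors with vanishing term can be dropped. -/
private theorem resA_prod (J : Finset ℕ) (p : ℕ → Prop) [DecidablePred p] (t s : ℕ → ℝ)
    (h : ∀ j ∈ J, t j = if p j then 0 else s j) :
    ∏ j ∈ J, (1 - 2 * t j) = ∏ j ∈ J.filter (fun j => ¬ p j), (1 - 2 * s j) := by
  rw [prod_filter]
  refine prod_congr rfl fun j hj => ?_
  rw [h j hj]
  by_cases hp : p j
  · rw [if_pos hp, if_neg (not_not.2 hp), mul_zero, sub_zero]
  · rw [if_neg hp, if_pos hp]

/-- The class is closed under restrictions. -/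
theorem resA (h1 : S_Res) (h2 : S_PolB) : S_ResA := by
  classical
  intro n k d W f v hf
  obtain ⟨q, J, M, a, hq, hR, hJ, rfl⟩ := hf
  have hP := ((h2 n d W q).1 hq v)
  refine ⟨⟨fun A => q (A.erase v), J.filter fun j => ¬ v ∈ a j, fun j => (M j).erase v, a, hP.1,
    resA_rd hR (filter_subset _ _) fun j _ => erase_subset _ _, fun j hj => ?_, ?_⟩,
    ⟨fun A => q (insert v A), J.filter fun j => ¬ (v ∈ M j ∧ v ∉ a j), fun j => (M j).erase v,
      fun j => (a j).erase v, hP.2.1, resA_rd hR (filter_subset _ _) fun j _ => erase_subset _ _,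
      fun j hj => ?_, ?_⟩⟩
  · rw [mem_filter] at hj
    exact ⟨subset_erase.2 ⟨(hJ j hj.1).1, hj.2⟩, erase_subset_erase v (hJ j hj.1).2⟩
  · funext A
    unfold r0 xf
    rw [resA_prod J (fun j => v ∈ a j) _ (fun j => tm ((M j).erase v) (a j) A)
      fun j hj => (h1 n (M j) (a j) A v (hJ j hj).1).1]
  · rw [mem_filter] at hj
    exact ⟨erase_subset_erase v (hJ j hj.1).1, erase_subset_erase v (hJ j hj.1).2⟩
  · funext A
    unfold r1 xf
    rw [resA_prod J (fun j => v ∈ M j ∧ v ∉ a j) _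
      (fun j => tm ((M j).erase v) ((a j).erase v) A)
      fun j hj => (h1 n (M j) (a j) A v (hJ j hj).1).2]

end Pool.Agent.MP3145b1.F
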