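import Pool.Agent.Lib.MP_3145b1_co.F.Spec

/-!
# MP_3145b1_co, scalar inequality (`S_Sc`)
-/

set_option autoImplicit false

namespace Pool.Agent.MP3145b1.F

open Finset

private theorem scAux_log {N x : ℝ} (hN : 0 < N) (hx : 0 ≤ x) :
    x * Real.log x ≤ x * Real.log N + x ^ 2 / N - x := by
  rcases hx.eq_or_lt with h | h
  · rw [← h]
    simp
  · have h1 : Real.log (x / N) ≤ x / N - 1 := Real.log_le_sub_one_of_pos (div_pos h hN)
    rw [Real.log_div h.ne' hN.ne'] at h1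
    have h2 := mul_le_mul_of_nonneg_left h1 hx
    have h3 : x * (x / N - 1) = x ^ 2 / N - x := by ring
    rw [h3, mul_sub] at h2
    linarith

theorem sc : S_Sc := by
  intro s d
  by_cases hd : d = 0
  · subst hd
    simp [Real.negMulLog]
  by_cases hs : s = 0
  · subst hs
    simp only [Real.negMulLog]
    have : 0 ≤ d ^ 2 := sq_nonneg d
    simp
    linarith
  have hs2 : 0 < s ^ 2 := by positivity
  have hd2 : 0 < d ^ 2 := by positivity
  have hN : 0 < s ^ 2 + d ^ 2 := by positivity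
  have h1 := scAux_log hN (sq_nonneg (s + d))
  have h2 := scAux_log hN (sq_nonneg (s - d))
  have h3 : ((s + d) ^ 2) ^ 2 / (s ^ 2 + d ^ 2) + ((s - d) ^ 2) ^ 2 / (s ^ 2 + d ^ 2) -
      2 * (s ^ 2 + d ^ 2) ≤ 8 * d ^ 2 := by
    rw [← add_div, sub_le_iff_le_add, div_le_iff₀ hN]
    nlinarith [sq_nonneg (d ^ 2)]
  have h4 : Real.log (1 + d ^ 2 / s ^ 2) ≤ d ^ 2 / s ^ 2 := by
    have := Real.log_le_sub_one_of_pos (x := 1 + d ^ 2 / s ^ 2) (by positivity)
    linarith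
  have h5 : Real.log (1 + d ^ 2 / s ^ 2) = Real.log (s ^ 2 + d ^ 2) - Real.log (s ^ 2) := by
    rw [← Real.log_div hN.ne' hs2.ne']
    congr 1
    field_simp
  have h6 : Real.log (1 + s ^ 2 / d ^ 2) = Real.log (s ^ 2 + d ^ 2) - Real.log (d ^ 2) := by
    rw [← Real.log_div hN.ne' hd2.ne']
    congr 1
    field_simp
    ring
  have h7 : s ^ 2 * (Real.log (s ^ 2 + d ^ 2) - Real.log (s ^ 2)) ≤ d ^ 2 := by
    rw [← h5]
    calc s ^ 2 * Real.log (1 + d ^ 2 / s ^ 2) ≤ s ^ 2 * (d ^ 2 / s ^ 2) :=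
          mul_le_mul_of_nonneg_left h4 hs2.le
      _ = d ^ 2 := by field_simp
  rw [h6]
  simp only [Real.negMulLog]
  have h8 : (s + d) ^ 2 * Real.log (s ^ 2 + d ^ 2) + (s - d) ^ 2 * Real.log (s ^ 2 + d ^ 2) =
      2 * (s ^ 2 + d ^ 2) * Real.log (s ^ 2 + d ^ 2) := by ring
  have h9 : (s + d) ^ 2 + (s - d) ^ 2 = 2 * (s ^ 2 + d ^ 2) := by ring
  nlinarith [h1, h2, h3, h7, h8, h9]

end Pool.Agent.MP3145b1.F
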