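import Pool.Agent.Lib.MP_3145b1_co.F.Spec

/-!
# MP_3145b1_co, a short term of a DNF
-/

set_option autoImplicit false

namespace Pool.Agent.MP3145b1.F

open Finset

variable {n : ℕ}

private theorem shortB_le {f g : Finset (Fin n) → ℝ} (h : ∀ A, f A ≤ g A) : mn f ≤ mn g :=
  mul_le_mul_of_nonneg_left (sum_le_sum fun A _ => h A) (by positivity)

private theorem shortB_add (f g : Finset (Fin n) → ℝ) :
    mn (fun A => f A + g A) = mn f + mn g := by
  unfold mn
  rw [sum_add_distrib, mul_add]

private theorem shortB_smul (c : ℝ) (f : Finset (Fin n) → ℝ) :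
    mn (fun A => c * f A) = c * mn f := by
  unfold mn
  rw [← mul_sum]
  ring

private theorem shortB_nn {f : Finset (Fin n) → ℝ} (h : ∀ A, 0 ≤ f A) : 0 ≤ mn f :=
  mul_nonneg (by positivity) (sum_nonneg fun A _ => h A)

private theorem shortB_one : mn (fun _ : Finset (Fin n) => (1 : ℝ)) = 1 := by
  unfold mn
  rw [sum_const, card_univ, Fintype.card_finset, Fintype.card_fin, nsmul_eq_mul, mul_one]
  push_cast
  rw [← mul_pow]
  norm_num

private theorem shortB_abs (f : Finset (Fin n) → ℝ) : |mn f| ≤ mn fun A => |f A| := by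
  unfold mn
  rw [abs_mul, abs_of_nonneg (by positivity : (0 : ℝ) ≤ (1 / 2 : ℝ) ^ n)]
  exact mul_le_mul_of_nonneg_left (abs_sum_le_sum_abs _ _) (by positivity)

private theorem shortB_zf (J : Finset ℕ) (M a : ℕ → Finset (Fin n)) (A : Finset (Fin n)) :
    zf J M a A = 0 ∨ zf J M a A = 1 := by
  unfold zf
  induction J using Finset.induction_on with
  | empty => exact Or.inr prod_empty
  | insert j J hj ih =>
    rw [prod_insert hj]
    have h : 1 - tm (M j) (a j) A = 0 ∨ 1 - tm (M j) (a j) A = 1 := by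
      unfold tm
      split_ifs
      · exact Or.inl (by norm_num)
      · exact Or.inr (by norm_num)
    rcases h with h | h
    · rw [h, zero_mul]
      exact Or.inl rfl
    · rw [h, one_mul]
      exact ih

/-- The mean over the points with given coordinates in `W`. -/
private theorem shortB_fix (h1 : S_Ind) (W c : Finset (Fin n)) (hc : c ⊆ W)
    (h : Finset (Fin n) → ℝ) (hh : ∀ A, 0 ≤ h A) :
    mn (fun A => h ((A \ W) ∪ c)) ≤ 2 ^ W.card * mn h := by
  have e1 := h1 n W c (fun A => h ((A \ W) ∪ c)) (fun A => by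
    show h (((A \ W) \ W) ∪ c) = h ((A \ W) ∪ c)
    rw [Finset.sdiff_idem]) hc
  have e2 : mn (fun A => tm W c A * h ((A \ W) ∪ c)) ≤ mn h := by
    refine shortB_le fun A => ?_
    unfold tm
    split_ifs with hA
    · rw [one_mul, ← hA, sdiff_union_inter]
    · rw [zero_mul]
      exact hh A
  rw [e1] at e2
  have e3 : (2 : ℝ) ^ W.card * (1 / 2 : ℝ) ^ W.card = 1 := by
    rw [← mul_pow]
    norm_num
  have e4 : mn (fun A => h ((A \ W) ∪ c)) =
      2 ^ W.card * ((1 / 2 : ℝ) ^ W.card * mn fun A => h ((A \ W) ∪ c)) := by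
    rw [← mul_assoc, e3, one_mul]
  rw [e4]
  exact mul_le_mul_of_nonneg_left e2 (by positivity)

private theorem shortB_walk (h1 : S_Ind) (Z : Finset (Fin n) → ℝ) (M : Finset (Fin n)) :
    ∀ a : Finset (Fin n), a ⊆ M → mn Z ≤ mn (fun A => Z ((A \ M) ∪ a)) +
      ∑ v ∈ M, 2 ^ M.card * mn (fun A => |Z (A.erase v) - Z (insert v A)|) := by
  induction M using Finset.induction_on with
  | empty =>
    intro a ha
    rw [subset_empty.1 ha, sum_empty, add_zero]
    exact shortB_le fun A => by rw [sdiff_empty, union_empty]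
  | insert v M hv ih =>
    intro a ha
    have ha' : a.erase v ⊆ M := by
      intro i hi
      rw [mem_erase] at hi
      exact (mem_insert.1 (ha hi.2)).resolve_left hi.1
    have e1 := ih (a.erase v) ha'
    have e2 : mn (fun A => Z ((A \ M) ∪ a.erase v)) ≤ mn (fun A => Z ((A \ insert v M) ∪ a)) +
        mn (fun A => |Z (((A \ M) ∪ a.erase v).erase v) - Z (insert v ((A \ M) ∪ a.erase v))|) := by
      rw [← shortB_add]
      refine shortB_le fun A => ?_
      generalize hB : (A \ M) ∪ a.erase v = B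
      have hB' : (A \ insert v M) ∪ a = if v ∈ a then insert v B else B.erase v := by
        rw [← hB]
        split_ifs with hva
        · ext i
          by_cases hi : i = v
          · subst hi
            simp [hva]
          · simp only [mem_union, mem_sdiff, mem_insert, mem_erase, hi, false_or, ne_eq,
              not_false_eq_true, true_and]
        · ext i
          by_cases hi : i = v
          · subst hi
            simp [hva]
          · simp only [mem_union, mem_sdiff, mem_insert, mem_erase, hi, false_or, ne_eq,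
              not_false_eq_true, true_and]
      rw [hB']
      have a1 := le_abs_self (Z (B.erase v) - Z (insert v B))
      have a2 := neg_abs_le (Z (B.erase v) - Z (insert v B))
      have a3 := abs_nonneg (Z (B.erase v) - Z (insert v B))
      by_cases hvB : v ∈ B
      · have a4 : insert v B = B := insert_eq_of_mem hvB
        rw [a4] at a1 a2 a3 ⊢
        split_ifs <;> linarith
      · have a4 : B.erase v = B := erase_eq_of_notMem hvB
        rw [a4] at a1 a2 a3 ⊢
        split_ifs <;> linarith
    have e3 := shortB_fix h1 M (a.erase v) ha'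
      (fun A => |Z (A.erase v) - Z (insert v A)|) fun A => abs_nonneg _
    have e4 : ∀ u : Fin n, (2 : ℝ) ^ M.card * mn (fun A => |Z (A.erase u) - Z (insert u A)|) ≤
        2 ^ (insert v M).card * mn (fun A => |Z (A.erase u) - Z (insert u A)|) := fun u =>
      mul_le_mul_of_nonneg_right (pow_le_pow_right₀ (by norm_num)
        (card_le_card (subset_insert v M))) (shortB_nn fun A => abs_nonneg _)
    rw [sum_insert hv]
    have e5 := sum_le_sum fun u (_ : u ∈ M) => e4 u
    have e6 := e4 v
    linarith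

private theorem shortB_df (Z : Finset (Fin n) → ℝ) (v : Fin n) (A : Finset (Fin n)) :
    df v (fun A => 2 * Z A - 1) A = Z (A.erase v) - Z (insert v A) := by
  unfold df
  ring

private theorem shortB_av (Z : Finset (Fin n) → ℝ) (v : Fin n) (A : Finset (Fin n)) :
    av v (fun A => 2 * Z A - 1) A = Z (A.erase v) + Z (insert v A) - 1 := by
  unfold av
  ring

private theorem shortB_sq {Z : Finset (Fin n) → ℝ} (hZ : ∀ A, Z A = 0 ∨ Z A = 1)
    (A B : Finset (Fin n)) : |Z A - Z B| = (Z A - Z B) ^ 2 := by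
  rcases hZ A with h | h <;> rcases hZ B with h' | h' <;> rw [h, h'] <;> norm_num

private theorem shortB_half (Z : Finset (Fin n) → ℝ) (v : Fin n) :
    mn (fun A => Z (A.erase v) + Z (insert v A)) = 2 * mn Z := by
  have e1 : ∀ A : Finset (Fin n), Z (A.erase v) + Z (insert v A) =
      Z A + Z (symmDiff A {v}) := by
    intro A
    by_cases hv : v ∈ A
    · have h1 : insert v A = A := insert_eq_of_mem hv
      have h2 : symmDiff A {v} = A.erase v := by
        ext i
        by_cases hi : i = v
        · subst hi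
          simp [mem_symmDiff, hv]
        · simp [mem_symmDiff, hi]
      rw [h1, h2, add_comm]
    · have h1 : A.erase v = A := erase_eq_of_notMem hv
      have h2 : symmDiff A {v} = insert v A := by
        ext i
        by_cases hi : i = v
        · subst hi
          simp [mem_symmDiff, hv]
        · simp [mem_symmDiff, hi]
      rw [h1, h2]
  have e2 : (∑ A : Finset (Fin n), Z (symmDiff A {v})) = ∑ A : Finset (Fin n), Z A :=
    Equiv.sum_comp (Function.Involutive.toPerm (fun A : Finset (Fin n) => symmDiff A {v})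
      fun A => symmDiff_symmDiff_cancel_right _ _) Z
  unfold mn
  rw [sum_congr rfl fun A _ => e1 A, sum_add_distrib, e2]
  ring

private theorem shortB_empty (f : Finset (Fin n) → ℝ) : fc f ∅ = mn f := by
  unfold fc mn
  congr 1
  refine sum_congr rfl fun A _ => ?_
  rw [empty_inter, card_empty, pow_zero, mul_one]

private theorem shortB_fc1 (S : Finset (Fin n)) (hS : S ≠ ∅) :
    fc (fun _ : Finset (Fin n) => (1 : ℝ)) S = 0 := by
  have h1 := par n fun _ : Finset (Fin n) => (1 : ℝ)
  have h2 : (1 / 2 : ℝ) ^ n * ∑ _A : Finset (Fin n), (1 : ℝ) ^ 2 = 1 := by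
    have := shortB_one (n := n)
    unfold mn at this
    simp only [one_pow]
    exact this
  rw [h2, ← add_sum_erase univ _ (mem_univ (∅ : Finset (Fin n))), shortB_empty, shortB_one] at h1
  have h3 : ∑ T ∈ univ.erase (∅ : Finset (Fin n)), fc (fun _ : Finset (Fin n) => (1 : ℝ)) T ^ 2 =
      0 := by linarith
  have h4 := (sum_eq_zero_iff_of_nonneg fun T _ => sq_nonneg _).1 h3 S
    (mem_erase.2 ⟨hS, mem_univ _⟩)
  exact pow_eq_zero_iff (two_ne_zero) |>.1 h4

private theorem shortB_fc (Z : Finset (Fin n) → ℝ) (v : Fin n) (S : Finset (Fin n))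
    (hS : S ≠ ∅) : fc (av v (fun A => 2 * Z A - 1)) S =
      fc (fun A => Z (A.erase v) + Z (insert v A)) S := by
  have h1 : fc (av v (fun A => 2 * Z A - 1)) S =
      fc (fun A => Z (A.erase v) + Z (insert v A)) S -
        fc (fun _ : Finset (Fin n) => (1 : ℝ)) S := by
    unfold fc
    rw [← mul_sub, ← sum_sub_distrib]
    congr 1
    refine sum_congr rfl fun A _ => ?_
    rw [shortB_av]
    ring
  rw [h1, shortB_fc1 S hS, sub_zero]

private theorem shortB_cost {Z : Finset (Fin n) → ℝ} (hZ : ∀ A, Z A = 0 ∨ Z A = 1) (v : Fin n) :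
    ∑ S : Finset (Fin n), |fc (av v (fun A => 2 * Z A - 1)) S *
        fc (df v (fun A => 2 * Z A - 1)) S| ≤
      mn (fun A => df v (fun A => 2 * Z A - 1) A ^ 2) +
        2 * Real.sqrt (mn Z * mn (fun A => df v (fun A => 2 * Z A - 1) A ^ 2)) := by
  have hZ0 : ∀ A, 0 ≤ Z A := fun A => by rcases hZ A with h | h <;> rw [h] <;> norm_num
  have hZ1 : ∀ A, Z A ≤ 1 := fun A => by rcases hZ A with h | h <;> rw [h] <;> norm_num
  have hb : ∀ A, |df v (fun A => 2 * Z A - 1) A| = df v (fun A => 2 * Z A - 1) A ^ 2 := fun A => by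
    rw [shortB_df]
    exact shortB_sq hZ _ _
  have h1 : |fc (av v (fun A => 2 * Z A - 1)) ∅ * fc (df v (fun A => 2 * Z A - 1)) ∅| ≤
      mn (fun A => df v (fun A => 2 * Z A - 1) A ^ 2) := by
    rw [abs_mul, shortB_empty, shortB_empty]
    have e1 : |mn (av v (fun A => 2 * Z A - 1))| ≤ 1 := by
      refine (shortB_abs _).trans ((shortB_le (g := fun _ => 1) fun A => ?_).trans
        shortB_one.le)
      rw [shortB_av, abs_le]
      have := hZ0 (A.erase v)
      have := hZ0 (insert v A)
      have := hZ1 (A.erase v)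
      have := hZ1 (insert v A)
      constructor <;> linarith
    have e2 : |mn (df v (fun A => 2 * Z A - 1))| ≤
        mn (fun A => df v (fun A => 2 * Z A - 1) A ^ 2) :=
      (shortB_abs _).trans (shortB_le fun A => (hb A).le)
    calc _ ≤ 1 * |mn (df v (fun A => 2 * Z A - 1))| :=
          mul_le_mul_of_nonneg_right e1 (abs_nonneg _)
      _ ≤ _ := by rw [one_mul]; exact e2
  have h2 : ∑ S ∈ univ.erase (∅ : Finset (Fin n)), |fc (av v (fun A => 2 * Z A - 1)) S *
        fc (df v (fun A => 2 * Z A - 1)) S| ≤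
      ∑ S : Finset (Fin n), |fc (fun A => Z (A.erase v) + Z (insert v A)) S| *
        |fc (df v (fun A => 2 * Z A - 1)) S| := by
    refine (sum_le_sum fun S hS => ?_).trans (sum_le_sum_of_subset_of_nonneg (erase_subset _ _)
      fun S _ _ => mul_nonneg (abs_nonneg _) (abs_nonneg _))
    rw [abs_mul, shortB_fc Z v S (ne_of_mem_erase hS)]
  have h3 := Real.sum_mul_le_sqrt_mul_sqrt (univ : Finset (Finset (Fin n)))
    (fun S => |fc (fun A => Z (A.erase v) + Z (insert v A)) S|)
    (fun S => |fc (df v (fun A => 2 * Z A - 1)) S|)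
  simp only [sq_abs] at h3
  rw [par, par] at h3
  have h4 : (1 / 2 : ℝ) ^ n * ∑ A : Finset (Fin n), (Z (A.erase v) + Z (insert v A)) ^ 2 ≤
      2 ^ 2 * mn Z := by
    have e1 : mn (fun A => (Z (A.erase v) + Z (insert v A)) ^ 2) ≤
        mn (fun A => 2 * (Z (A.erase v) + Z (insert v A))) := by
      refine shortB_le fun A => ?_
      rcases hZ (A.erase v) with h | h <;> rcases hZ (insert v A) with h' | h' <;>
        rw [h, h'] <;> norm_num
    rw [shortB_smul, shortB_half] at e1
    calc _ ≤ 2 * (2 * mn Z) := e1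
      _ = 2 ^ 2 * mn Z := by ring
  have h5 : √((1 / 2 : ℝ) ^ n * ∑ A : Finset (Fin n), (Z (A.erase v) + Z (insert v A)) ^ 2) *
      √((1 / 2 : ℝ) ^ n * ∑ A : Finset (Fin n), df v (fun A => 2 * Z A - 1) A ^ 2) ≤
      2 * √(mn Z * mn (fun A => df v (fun A => 2 * Z A - 1) A ^ 2)) := by
    have hZn : 0 ≤ mn Z := shortB_nn hZ0
    calc _ ≤ √(2 ^ 2 * mn Z) *
          √((1 / 2 : ℝ) ^ n * ∑ A : Finset (Fin n), df v (fun A => 2 * Z A - 1) A ^ 2) :=
          mul_le_mul_of_nonneg_right (Real.sqrt_le_sqrt h4) (Real.sqrt_nonneg _)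
      _ = _ := by
        rw [Real.sqrt_mul (by positivity), Real.sqrt_sq (by norm_num), Real.sqrt_mul hZn, mul_assoc]
        rfl
  rw [← add_sum_erase univ _ (mem_univ (∅ : Finset (Fin n)))]
  exact add_le_add h1 (h2.trans (h3.trans h5))

theorem shortB (h1 : S_Ind) : S_ShortB := by
  intro n J M a
  refine ⟨fun j₀ hj₀ ha hM => ?_, fun v => shortB_cost (shortB_zf J M a) v⟩
  have e1 := shortB_walk h1 (zf J M a) (M j₀) (a j₀) ha
  have e2 : mn (fun A => zf J M a ((A \ M j₀) ∪ a j₀)) = 0 := by
    unfold mn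
    rw [sum_eq_zero fun A _ => ?_, mul_zero]
    unfold zf
    refine prod_eq_zero hj₀ ?_
    have h2 : ((A \ M j₀) ∪ a j₀) ∩ M j₀ = a j₀ := by
      rw [union_inter_distrib_right, sdiff_inter_self, empty_union, inter_eq_left.2 ha]
    unfold tm
    rw [if_pos h2, sub_self]
  rw [e2, zero_add] at e1
  have hc : (0 : ℝ) < (M j₀).card := by
    exact_mod_cast hM.card_pos
  have e3 : ∑ _v ∈ M j₀, mn (zf J M a) / (M j₀).card ≤
      ∑ v ∈ M j₀, 2 ^ (M j₀).card *
        mn (fun A => |zf J M a (A.erase v) - zf J M a (insert v A)|) := by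
    rw [sum_const, nsmul_eq_mul, mul_div_cancel₀ _ hc.ne']
    exact e1
  obtain ⟨v, hv, hle⟩ := exists_le_of_sum_le hM e3
  refine ⟨v, hv, ?_⟩
  rw [div_le_iff₀ hc] at hle
  have e4 : (fun A => |zf J M a (A.erase v) - zf J M a (insert v A)|) =
      fun A => df v (fun A => 2 * zf J M a A - 1) A ^ 2 := by
    funext A
    rw [shortB_df]
    exact shortB_sq (shortB_zf J M a) _ _
  rw [e4] at hle
  linarith

end Pool.Agent.MP3145b1.F
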