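import Pool.Agent.Lib.MP_3145b1_co.F.Spec

/-!
# MP_3145b1_co, F: one step of the recursion (`S_Step`)
-/

set_option autoImplicit false

namespace Pool.Agent.MP3145b1.F

open Finset

private theorem step_L {n : ℕ} (v : Fin n) (g : Finset (Fin n) → ℝ) :
    ∑ A : Finset (Fin n), (g (A.erase v) + g (insert v A)) = 2 * ∑ A : Finset (Fin n), g A := by
  have h1 : ∀ A : Finset (Fin n), g (A.erase v) + g (insert v A) = g A + g (symmDiff A {v}) := by
    intro A
    by_cases hv : v ∈ A
    · have h2 : symmDiff A {v} = A.erase v := by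
        ext x
        simp only [Finset.mem_symmDiff, Finset.mem_singleton, Finset.mem_erase]
        constructor
        · rintro (⟨h3, h4⟩ | ⟨h3, h4⟩)
          · exact ⟨h4, h3⟩
          · exact absurd (h3 ▸ hv) h4
        · rintro ⟨h3, h4⟩
          exact Or.inl ⟨h4, h3⟩
      rw [h2, Finset.insert_eq_of_mem hv, add_comm]
    · have h2 : symmDiff A {v} = insert v A := by
        ext x
        simp only [Finset.mem_symmDiff, Finset.mem_singleton, Finset.mem_insert]
        constructor
        · rintro (⟨h3, h4⟩ | ⟨h3, h4⟩)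
          · exact Or.inr h3
          · exact Or.inl h3
        · rintro (h3 | h3)
          · exact Or.inr ⟨h3, fun h4 => hv (h3 ▸ h4)⟩
          · exact Or.inl ⟨h3, fun h4 => hv (h4 ▸ h3)⟩
      rw [h2, Finset.erase_eq_of_notMem hv]
  have h3 : ∑ A : Finset (Fin n), g (symmDiff A {v}) = ∑ A : Finset (Fin n), g A :=
    Equiv.sum_comp (symmDiff_left_involutive ({v} : Finset (Fin n))).toPerm g
  rw [Finset.sum_congr rfl fun A _ => h1 A, Finset.sum_add_distrib, h3]
  ring

private theorem step_ie {n : ℕ} (v : Fin n) (A : Finset (Fin n)) :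
    insert v (A.erase v) = insert v A := by
  ext x
  simp only [Finset.mem_insert, Finset.mem_erase]
  constructor
  · rintro (h | h)
    · exact Or.inl h
    · exact Or.inr h.2
  · rintro (h | h)
    · exact Or.inl h
    · by_cases h2 : x = v
      · exact Or.inl h2
      · exact Or.inr ⟨h2, h⟩

private theorem step_M {n : ℕ} (v : Fin n) (F G : Finset (Fin n) → ℝ)
    (h0 : ∀ S, v ∈ S → G S = 0) (h1 : ∀ S, v ∉ S → F S + F (insert v S) = G S) :
    ∑ S : Finset (Fin n), F S = ∑ S : Finset (Fin n), G S := by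
  have h2 : ∀ S : Finset (Fin n), F (S.erase v) + F (insert v S) = G (S.erase v) + G (insert v S) := by
    intro S
    rw [h0 (insert v S) (Finset.mem_insert_self _ _), add_zero, ← h1 (S.erase v) (by simp),
      step_ie]
  have h3 := step_L v F
  have h4 := step_L v G
  rw [Finset.sum_congr rfl fun S _ => h2 S] at h3
  linarith

private theorem step_r0 {n : ℕ} (v : Fin n) (f : Finset (Fin n) → ℝ) (S : Finset (Fin n)) :
    fc (r0 v f) S = fc (av v f) S + fc (df v f) S := by
  unfold fc r0 av df
  rw [← mul_add, ← Finset.sum_add_distrib]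
  congr 1
  refine Finset.sum_congr rfl fun A _ => ?_
  ring

private theorem step_r1 {n : ℕ} (v : Fin n) (f : Finset (Fin n) → ℝ) (S : Finset (Fin n)) :
    fc (r1 v f) S = fc (av v f) S - fc (df v f) S := by
  unfold fc r1 av df
  rw [← mul_sub, ← Finset.sum_sub_distrib]
  congr 1
  refine Finset.sum_congr rfl fun A _ => ?_
  ring

private theorem step_erase {n : ℕ} (v : Fin n) (S A : Finset (Fin n)) (hv : v ∉ S) :
    S ∩ A.erase v = S ∩ A := by
  ext x
  simp only [Finset.mem_inter, Finset.mem_erase]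
  exact ⟨fun h => ⟨h.1, h.2.2⟩, fun h => ⟨h.1, fun h2 => hv (h2 ▸ h.1), h.2⟩⟩

private theorem step_insert {n : ℕ} (v : Fin n) (S A : Finset (Fin n)) (hv : v ∉ S) :
    S ∩ insert v A = S ∩ A := by
  rw [Finset.inter_insert_of_notMem hv]

private theorem step_ins_er {n : ℕ} (v : Fin n) (S A : Finset (Fin n)) (hv : v ∉ S) :
    (insert v S) ∩ A.erase v = S ∩ A := by
  ext x
  simp only [Finset.mem_inter, Finset.mem_erase, Finset.mem_insert]
  constructor
  · rintro ⟨h1 | h1, h2, h3⟩
    · exact absurd h1 h2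
    · exact ⟨h1, h3⟩
  · rintro ⟨h1, h2⟩
    exact ⟨Or.inr h1, fun h3 => hv (h3 ▸ h1), h2⟩

private theorem step_ins_ins {n : ℕ} (v : Fin n) (S A : Finset (Fin n)) (hv : v ∉ S) :
    ((insert v S) ∩ insert v A).card = (S ∩ A).card + 1 := by
  have h1 : (insert v S) ∩ insert v A = insert v (S ∩ A) := by
    rw [Finset.insert_inter_distrib]
  rw [h1, Finset.card_insert_of_notMem (fun h => hv (Finset.mem_inter.mp h).1)]

private theorem step_av {n : ℕ} (v : Fin n) (f : Finset (Fin n) → ℝ) (S : Finset (Fin n))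
    (hv : v ∉ S) : fc (av v f) S = fc f S := by
  unfold fc av
  congr 1
  have h1 := step_L v (fun A => f A * (-1 : ℝ) ^ (S ∩ A).card)
  have h2 : ∀ A : Finset (Fin n), (f (A.erase v) + f (insert v A)) / 2 * (-1 : ℝ) ^ (S ∩ A).card =
      (1 / 2 : ℝ) * (f (A.erase v) * (-1 : ℝ) ^ (S ∩ A.erase v).card +
        f (insert v A) * (-1 : ℝ) ^ (S ∩ insert v A).card) := by
    intro A
    rw [step_erase v S A hv, step_insert v S A hv]
    ring
  rw [Finset.sum_congr rfl fun A _ => h2 A, ← Finset.mul_sum, h1]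
  ring

private theorem step_df {n : ℕ} (v : Fin n) (f : Finset (Fin n) → ℝ) (S : Finset (Fin n))
    (hv : v ∉ S) : fc (df v f) S = fc f (insert v S) := by
  unfold fc df
  congr 1
  have h1 := step_L v (fun A => f A * (-1 : ℝ) ^ ((insert v S) ∩ A).card)
  have h2 : ∀ A : Finset (Fin n), (f (A.erase v) - f (insert v A)) / 2 * (-1 : ℝ) ^ (S ∩ A).card =
      (1 / 2 : ℝ) * (f (A.erase v) * (-1 : ℝ) ^ ((insert v S) ∩ A.erase v).card +
        f (insert v A) * (-1 : ℝ) ^ ((insert v S) ∩ insert v A).card) := by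
    intro A
    rw [step_ins_er v S A hv, step_ins_ins v S A hv, pow_succ]
    ring
  rw [Finset.sum_congr rfl fun A _ => h2 A, ← Finset.mul_sum, h1]
  ring

private theorem step_zero {n : ℕ} (v : Fin n) (u : Finset (Fin n) → ℝ) (S : Finset (Fin n))
    (hu : ∀ A, u (A.erase v) = u (insert v A)) (hv : v ∈ S) : fc u S = 0 := by
  unfold fc
  have h1 := step_L v (fun A => u A * (-1 : ℝ) ^ (S ∩ A).card)
  have hS : S = insert v (S.erase v) := (Finset.insert_erase hv).symm
  have h2 : ∀ A : Finset (Fin n), u (A.erase v) * (-1 : ℝ) ^ (S ∩ A.erase v).card +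
        u (insert v A) * (-1 : ℝ) ^ (S ∩ insert v A).card = 0 := by
    intro A
    rw [hS, step_ins_er v (S.erase v) A (by simp), step_ins_ins v (S.erase v) A (by simp),
      hu A, pow_succ]
    ring
  rw [Finset.sum_congr rfl fun A _ => h2 A, Finset.sum_const_zero] at h1
  have h3 : ∑ A : Finset (Fin n), u A * (-1 : ℝ) ^ (S ∩ A).card = 0 := by linarith
  rw [h3, mul_zero]

theorem step (h1 : S_Sc) : S_Step := by
  intro n v f
  have ha0 : ∀ S, v ∈ S → fc (av v f) S = 0 := by
    intro S hS
    refine step_zero v _ S (fun A => ?_) hS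
    simp [av, step_ie]
  have hd0 : ∀ S, v ∈ S → fc (df v f) S = 0 := by
    intro S hS
    refine step_zero v _ S (fun A => ?_) hS
    simp [df, step_ie]
  constructor
  · have h2 : He f = ∑ S : Finset (Fin n), (Real.negMulLog (fc (av v f) S ^ 2) +
        Real.negMulLog (fc (df v f) S ^ 2)) := by
      unfold He
      refine step_M v _ _ (fun S hS => ?_) (fun S hS => ?_)
      · rw [ha0 S hS, hd0 S hS]
        simp
      · rw [step_av v f S hS, step_df v f S hS]
    have h3 : (He (r0 v f) + He (r1 v f)) / 2 + 5 * ∑ S : Finset (Fin n), fc (df v f) S ^ 2 +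
        Cv v f = ∑ S : Finset (Fin n), ((Real.negMulLog ((fc (av v f) S + fc (df v f) S) ^ 2) +
          Real.negMulLog ((fc (av v f) S - fc (df v f) S) ^ 2)) / 2 + 5 * fc (df v f) S ^ 2 +
            fc (df v f) S ^ 2 * Real.log (1 + fc (av v f) S ^ 2 / fc (df v f) S ^ 2)) := by
      unfold He Cv
      rw [Finset.sum_add_distrib, Finset.sum_add_distrib, ← Finset.mul_sum, ← Finset.sum_div,
        Finset.sum_add_distrib]
      simp only [step_r0, step_r1]
    rw [h2, h3]
    exact Finset.sum_le_sum fun S _ => h1 _ _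
  · have h2 : tinf f = ∑ S : Finset (Fin n), ((S.card : ℝ) * fc (av v f) S ^ 2 +
        ((S.card : ℝ) + 1) * fc (df v f) S ^ 2) := by
      unfold tinf
      refine step_M v _ _ (fun S hS => ?_) (fun S hS => ?_)
      · rw [ha0 S hS, hd0 S hS]
        ring
      · rw [step_av v f S hS, step_df v f S hS, Finset.card_insert_of_notMem hS]
        push_cast
        ring
    rw [h2]
    unfold tinf
    rw [← Finset.sum_add_distrib, Finset.sum_div, ← Finset.sum_add_distrib]
    refine Finset.sum_congr rfl fun S _ => ?_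
    rw [step_r0, step_r1]
    ring

end Pool.Agent.MP3145b1.F
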