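import Pool.Agent.Lib.MP_3145b1_co.F.Spec

/-! # Double counting -/

set_option autoImplicit false

namespace Pool.Agent.MP3145b1.F

open Finset

private theorem un_gen {n k : ℕ} {J G : Finset ℕ} {M : ℕ → Finset (Fin n)} (hR : Rd k J M)
    (hG : G ⊆ J) (S : ℕ → Finset (Fin n)) (Z : Finset (Fin n)) (hS : ∀ j ∈ G, S j ⊆ M j)
    (hZ : ∀ j ∈ G, S j ⊆ Z) : ∑ j ∈ G, (S j).card ≤ k * Z.card := by
  have h1 : ∑ j ∈ G, (S j).card = ∑ v ∈ Z, (G.filter fun j => v ∈ S j).card := by
    have h2 : ∑ j ∈ G, (S j).card = ∑ j ∈ G, ∑ v ∈ Z, if v ∈ S j then 1 else 0 := by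
      refine sum_congr rfl fun j hj => ?_
      rw [← card_filter]
      congr 1
      ext v
      rw [mem_filter]
      exact ⟨fun h => ⟨hZ j hj h, h⟩, fun h => h.2⟩
    rw [h2, sum_comm]
    refine sum_congr rfl fun v _ => ?_
    rw [card_filter]
  rw [h1]
  calc ∑ v ∈ Z, (G.filter fun j => v ∈ S j).card ≤ ∑ _v ∈ Z, k := by
        refine sum_le_sum fun v _ => le_trans (card_le_card ?_) (hR v)
        intro j hj
        rw [mem_filter] at hj ⊢
        exact ⟨hG hj.1, hS j hj.1 hj.2⟩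
    _ = k * Z.card := by rw [sum_const, smul_eq_mul, mul_comm]

theorem un : S_Un := by
  intro n k J G M U hR hG
  refine ⟨un_gen hR hG (fun j => M j \ U) ((G.biUnion M) \ U) (fun j _ => sdiff_subset) ?_,
    un_gen hR hG (fun j => M j ∩ U) U (fun j _ => inter_subset_left)
      (fun j _ => inter_subset_right)⟩
  intro j hj
  exact sdiff_subset_sdiff (subset_biUnion_of_mem M hj) (Subset.refl U)

end Pool.Agent.MP3145b1.F
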