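import Pool.Agent.Lib.MP_3145b1_co.F.SpecE
import Pool.Agent.Lib.MP_3145b1_co.EFin

/-!
# MP_3145b1_co, F: transfer to functions on `Fin n → Bool`
-/

set_option autoImplicit false

namespace Pool.Agent.MP3145b1.F

open Finset

variable {n : ℕ}

/-- `x` satisfies the term (AND of literals) with the set of variables `M` and the required
values `c`. -/
def Sat (M : Finset (Fin n)) (c x : Fin n → Bool) : Prop := ∀ i ∈ M, x i = c i

open Classical in
/-- `f` is, up to the sign, the OR of the terms `(M j, c j)` (`-1` stands for true). -/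
def IsOr {m : ℕ} (M : Fin m → Finset (Fin n)) (c : Fin m → Fin n → Bool)
    (f : (Fin n → Bool) → ℝ) : Prop :=
  ∃ s : ℝ, (s = 1 ∨ s = -1) ∧ ∀ x, f x = if ∃ j, Sat (M j) (c j) x then -s else s

open Classical in
/-- `f` is the XOR of the terms `(M j, c j)` and of a polynomial over `F_2` of degree at most `d`,
given by the family `Q` of its monomials (`-1` stands for true). -/
def IsXor (d : ℕ) {m : ℕ} (M : Fin m → Finset (Fin n)) (c : Fin m → Fin n → Bool)
    (f : (Fin n → Bool) → ℝ) : Prop :=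
  ∃ Q : Finset (Finset (Fin n)), (∀ N ∈ Q, N.card ≤ d) ∧
    ∀ x, f x = (∏ N ∈ Q, if ∀ i ∈ N, x i = true then (-1 : ℝ) else 1) *
      ∏ j, if Sat (M j) (c j) x then (-1 : ℝ) else 1

/-- The origin. -/
def org : Fin n → Bool := fun _ => false

theorem fin_entropy (f : (Fin n → Bool) → ℝ) :
    specEntropy f = He (fun A => f (cubeEquiv org A)) / Real.log 2 := by
  unfold specEntropy He
  rw [Finset.sum_div]
  apply Finset.sum_congr rfl
  intro S _
  rw [coeff_sq org]
  unfold Real.logb Real.negMulLog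
  rw [one_div, Real.log_inv]
  ring

theorem fin_large (f : (Fin n → Bool) → ℝ) (hf : ∀ x, f x = 1 ∨ f x = -1) (E : ℝ)
    (h : specEntropy f ≤ E) : ∃ S : Finset (Fin n), Real.exp (-(Real.log 2 / 2 * E)) ≤ |coeff f S| := by
  have hl : 0 < Real.log 2 := Real.log_pos (by norm_num)
  by_contra hcon
  push Not at hcon
  set B : ℝ := Real.exp (-(Real.log 2 / 2 * E)) with hB
  have hBp : 0 < B := Real.exp_pos _
  have hlB : Real.logb 2 (1 / B ^ 2) = E := by
    unfold Real.logb
    rw [Real.log_div one_ne_zero (by positivity), Real.log_one, Real.log_pow, hB, Real.log_exp]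
    push_cast
    field_simp
    ring
  have h2 : Real.logb 2 (1 / B ^ 2) < specEntropy f := by
    have e1 : Real.logb 2 (1 / B ^ 2) = ∑ S : Finset (Fin n), coeff f S ^ 2 *
        Real.logb 2 (1 / B ^ 2) := by
      rw [← Finset.sum_mul, coeff_parseval par f hf, one_mul]
    rw [e1]
    unfold specEntropy
    have hkey : ∀ S : Finset (Fin n), coeff f S ≠ 0 →
        Real.logb 2 (1 / B ^ 2) < Real.logb 2 (1 / coeff f S ^ 2) := by
      intro S hS
      have h3 : 0 < coeff f S ^ 2 := by positivity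
      have h4 : coeff f S ^ 2 < B ^ 2 := by
        rw [← sq_abs (coeff f S)]
        exact pow_lt_pow_left₀ (hcon S) (abs_nonneg _) two_ne_zero
      apply Real.logb_lt_logb (by norm_num) (by positivity)
      exact one_div_lt_one_div_of_lt h3 h4
    have hex : ∃ S : Finset (Fin n), coeff f S ≠ 0 := by
      by_contra hno
      push Not at hno
      have := coeff_parseval par f hf
      simp [hno] at this
    apply Finset.sum_lt_sum
    · intro S _
      by_cases hS : coeff f S = 0
      · rw [hS]; simp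
      · exact mul_le_mul_of_nonneg_left (hkey S hS).le (sq_nonneg _)
    · obtain ⟨S, hS⟩ := hex
      exact ⟨S, Finset.mem_univ _, mul_lt_mul_of_pos_left (hkey S hS) (by positivity)⟩
  linarith

theorem fin_sat (M : Finset (Fin n)) (c : Fin n → Bool) (A : Finset (Fin n)) :
    Sat M c (cubeEquiv org A) ↔ A ∩ M = M.filter (fun i => c i = true) := by
  unfold Sat
  constructor
  · intro h
    ext i
    simp only [Finset.mem_inter, Finset.mem_filter]
    constructor
    · rintro ⟨h1, h2⟩
      refine ⟨h2, ?_⟩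
      rw [← h i h2]
      simp [cubeEquiv, org, h1]
    · rintro ⟨h1, h2⟩
      refine ⟨?_, h1⟩
      have h3 := h i h1
      rw [h2] at h3
      simpa [cubeEquiv, org] using h3
  · intro h i hi
    have h1 : i ∈ A ∩ M ↔ i ∈ M.filter (fun i => c i = true) := by rw [h]
    simp only [Finset.mem_inter, Finset.mem_filter, hi, and_true, true_and] at h1
    simp only [cubeEquiv, org, Equiv.coe_fn_mk, Bool.xor_false]
    cases hc : c i
    · rw [hc] at h1
      simpa using h1
    · rw [hc] at h1
      simpa using h1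

/-- The sets of variables, indexed by natural numbers. -/
def fM {m : ℕ} (M : Fin m → Finset (Fin n)) (j : ℕ) : Finset (Fin n) :=
  if h : j < m then M ⟨j, h⟩ else ∅

/-- The values. -/
def fA {m : ℕ} (M : Fin m → Finset (Fin n)) (c : Fin m → Fin n → Bool) (j : ℕ) :
    Finset (Fin n) :=
  if h : j < m then (M ⟨j, h⟩).filter (fun i => c ⟨j, h⟩ i = true) else ∅

theorem fM_fin {m : ℕ} (M : Fin m → Finset (Fin n)) (j : Fin m) : fM M j = M j := by
  unfold fM
  rw [dif_pos j.2]

theorem fA_fin {m : ℕ} (M : Fin m → Finset (Fin n)) (c : Fin m → Fin n → Bool) (j : Fin m) :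
    fA M c j = (M j).filter (fun i => c j i = true) := by
  unfold fA
  rw [dif_pos j.2]

theorem fA_sub {m : ℕ} (M : Fin m → Finset (Fin n)) (c : Fin m → Fin n → Bool) (j : ℕ) :
    fA M c j ⊆ fM M j := by
  unfold fA fM
  split_ifs with h
  · exact Finset.filter_subset _ _
  · exact Finset.Subset.refl _

open Classical in
theorem fin_tm {m : ℕ} (M : Fin m → Finset (Fin n)) (c : Fin m → Fin n → Bool) (j : Fin m)
    (A : Finset (Fin n)) :
    tm (fM M j) (fA M c j) A = if Sat (M j) (c j) (cubeEquiv org A) then 1 else 0 := by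
  unfold tm
  rw [fM_fin, fA_fin]
  by_cases h : A ∩ M j = (M j).filter (fun i => c j i = true)
  · rw [if_pos h, if_pos ((fin_sat _ _ _).mpr h)]
  · rw [if_neg h, if_neg (fun h' => h ((fin_sat _ _ _).mp h'))]

theorem fin_rd {m k : ℕ} (M : Fin m → Finset (Fin n))
    (h : ∀ i, (univ.filter fun j => i ∈ M j).card ≤ k) : Rd k (Finset.range m) (fM M) := by
  intro v
  refine le_trans ?_ (h v)
  have h1 : (Finset.range m).filter (fun j => v ∈ fM M j) =
      (univ.filter fun j : Fin m => v ∈ M j).map Fin.valEmbedding := by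
    ext j
    simp only [Finset.mem_filter, Finset.mem_range, Finset.mem_map, Finset.mem_univ, true_and,
      Fin.valEmbedding_apply]
    constructor
    · rintro ⟨h1, h2⟩
      refine ⟨⟨j, h1⟩, ?_, rfl⟩
      unfold fM at h2
      rw [dif_pos h1] at h2
      exact h2
    · rintro ⟨i, h1, h2⟩
      rw [← h2]
      exact ⟨i.2, by rw [fM_fin]; exact h1⟩
  rw [h1, Finset.card_map]

theorem fc_smul (s : ℝ) (g : Finset (Fin n) → ℝ) (S : Finset (Fin n)) :
    fc (fun A => s * g A) S = s * fc g S := by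
  unfold fc
  rw [mul_left_comm]
  congr 1
  rw [Finset.mul_sum]
  exact Finset.sum_congr rfl fun A _ => by ring

theorem fin_or {n m k : ℕ} (M : Fin m → Finset (Fin n)) (c : Fin m → Fin n → Bool)
    (f : (Fin n → Bool) → ℝ) (hM : ∀ i, (univ.filter fun j => i ∈ M j).card ≤ k)
    (hf : IsOr M c f) (C : ℝ)
    (h : ∀ g : Finset (Fin n) → ℝ, PB k univ g → He g ≤ C * tinf g) :
      He (fun A => f (cubeEquiv org A)) ≤ C * tinf (fun A => f (cubeEquiv org A)) := by
  classical
  obtain ⟨s, hs, hf⟩ := hf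
  have hs2 : s ^ 2 = 1 := by rcases hs with h1 | h1 <;> rw [h1] <;> norm_num
  have h1 : PB k univ (fun A => s * f (cubeEquiv org A)) := by
    refine ⟨Finset.range m, fM M, fA M c, fin_rd M hM,
      fun j _ => ⟨fA_sub M c j, Finset.subset_univ _⟩, ?_⟩
    funext A
    rw [hf]
    unfold zf
    rw [Finset.prod_range (fun j => 1 - tm (fM M j) (fA M c j) A)]
    simp only [fin_tm]
    by_cases hex : ∃ j, Sat (M j) (c j) (cubeEquiv org A)
    · rw [if_pos hex]
      obtain ⟨j, hj⟩ := hex
      rw [Finset.prod_eq_zero (Finset.mem_univ j) (by rw [if_pos hj, sub_self])]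
      linear_combination -hs2
    · rw [if_neg hex]
      push Not at hex
      rw [Finset.prod_eq_one (fun j _ => by rw [if_neg (hex j), sub_zero])]
      linear_combination hs2
  have h2 := h _ h1
  have h3 : ∀ S : Finset (Fin n), fc (fun A => s * f (cubeEquiv org A)) S ^ 2 =
      fc (fun A => f (cubeEquiv org A)) S ^ 2 := by
    intro S
    rw [fc_smul, mul_pow, hs2, one_mul]
  unfold He tinf at h2 ⊢
  simp only [h3] at h2
  exact h2

theorem fin_q (Q : Finset (Finset (Fin n))) (A : Finset (Fin n)) :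
    (if (∑ N ∈ Q, if N ⊆ A then (1 : ZMod 2) else 0) = 0 then (1 : ℝ) else -1) =
      ∏ N ∈ Q, if ∀ i ∈ N, cubeEquiv org A i = true then (-1 : ℝ) else 1 := by
  classical
  induction Q using Finset.induction_on with
  | empty => simp
  | insert N Q hN ih =>
    rw [Finset.prod_insert hN, ← ih, Finset.sum_insert hN]
    have h1 : (∀ i ∈ N, cubeEquiv org A i = true) ↔ N ⊆ A := by
      rw [Finset.subset_iff]
      simp [cubeEquiv, org]
    simp only [h1]
    generalize (∑ N ∈ Q, if N ⊆ A then (1 : ZMod 2) else 0) = y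
    by_cases h2 : N ⊆ A
    · rw [if_pos h2, if_pos h2]
      have h3 : y = 0 ∨ y = 1 := by
        revert y
        decide
      rcases h3 with h3 | h3
      · rw [h3]
        simp
      · rw [h3, show (1 : ZMod 2) + 1 = 0 by decide]
        simp
    · rw [if_neg h2, if_neg h2, zero_add, one_mul]

theorem fin_xor {n m k d : ℕ} (M : Fin m → Finset (Fin n)) (c : Fin m → Fin n → Bool)
    (f : (Fin n → Bool) → ℝ) (hM : ∀ i, (univ.filter fun j => i ∈ M j).card ≤ k)
    (hf : IsXor d M c f) : PA k d univ (fun A => f (cubeEquiv org A)) := by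
  classical
  obtain ⟨Q, hQ, hf⟩ := hf
  refine ⟨∑ N ∈ Q, fun A => if N ⊆ A then (1 : ZMod 2) else 0, Finset.range m, fM M, fA M c,
    ?_, fin_rd M hM, fun j _ => ⟨fA_sub M c j, Finset.subset_univ _⟩, ?_⟩
  · apply Submodule.sum_mem
    intro N hN
    exact Submodule.subset_span ⟨N, Finset.subset_univ _, hQ N hN, rfl⟩
  · funext A
    rw [hf]
    unfold xf
    rw [Finset.prod_range (fun j => 1 - 2 * tm (fM M j) (fA M c j) A), Finset.sum_apply, fin_q]
    congr 1
    apply Finset.prod_congr rfl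
    intro j _
    rw [fin_tm]
    split_ifs <;> norm_num

theorem IsOr.bool {m : ℕ} {M : Fin m → Finset (Fin n)} {c : Fin m → Fin n → Bool}
    {f : (Fin n → Bool) → ℝ} (h : IsOr M c f) (x : Fin n → Bool) : f x = 1 ∨ f x = -1 := by
  classical
  obtain ⟨s, hs, hf⟩ := h
  rw [hf x]
  rcases hs with h1 | h1 <;> rw [h1] <;> split_ifs <;> simp

theorem fin_pm {ι : Type} (I : Finset ι) (g : ι → ℝ) (hg : ∀ i ∈ I, g i = 1 ∨ g i = -1) :
    ∏ i ∈ I, g i = 1 ∨ ∏ i ∈ I, g i = -1 := by
  classical
  induction I using Finset.induction_on with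
  | empty => simp
  | insert i I hi ih =>
    rw [Finset.prod_insert hi]
    have h1 := ih (fun j hj => hg j (Finset.mem_insert_of_mem hj))
    have h2 := hg i (Finset.mem_insert_self i I)
    rcases h1 with h1 | h1 <;> rcases h2 with h2 | h2 <;> rw [h1, h2] <;> norm_num

theorem IsXor.bool {d m : ℕ} {M : Fin m → Finset (Fin n)} {c : Fin m → Fin n → Bool}
    {f : (Fin n → Bool) → ℝ} (h : IsXor d M c f) (x : Fin n → Bool) : f x = 1 ∨ f x = -1 := by
  classical
  obtain ⟨Q, hQ, hf⟩ := h
  rw [hf x]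
  have h1 := fin_pm Q (fun N => if ∀ i ∈ N, x i = true then (-1 : ℝ) else 1)
    (fun N _ => by split_ifs <;> simp)
  have h2 := fin_pm univ (fun j => if Sat (M j) (c j) x then (-1 : ℝ) else 1)
    (fun j _ => by split_ifs <;> simp)
  rcases h1 with h1 | h1 <;> rcases h2 with h2 | h2 <;> rw [h1, h2] <;> norm_num

/-- The final theorem, from the two main statements. -/
theorem fin_main (hA : S_MainAe) (hB : S_MainBe) : ∃ C : ℝ, 0 < C ∧ ∀ (n m k d : ℕ)
    (M : Fin m → Finset (Fin n)) (c : Fin m → Fin n → Bool) (f : (Fin n → Bool) → ℝ),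
    (∀ i, (univ.filter fun j => i ∈ M j).card ≤ k) → (IsOr M c f ∨ IsXor d M c f) →
      specEntropy f ≤ C * (k ^ 2 + d + 1) * influence f ∧
        ∃ S : Finset (Fin n), Real.exp (-C * (k ^ 2 + d + 1) * influence f) ≤ |coeff f S| := by
  obtain ⟨C1, hC1, h1⟩ := hB
  obtain ⟨C2, hC2, h2⟩ := hA
  have hl : 0 < Real.log 2 := Real.log_pos (by norm_num)
  refine ⟨(C1 + C2) / Real.log 2, by positivity, ?_⟩
  intro n m k d M c f hM hf
  have hI : 0 ≤ influence f := influence_nonneg f
  have hbool : ∀ x, f x = 1 ∨ f x = -1 := by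
    intro x
    rcases hf with hf | hf
    · exact hf.bool x
    · exact hf.bool x
  have hd : (0 : ℝ) ≤ d := Nat.cast_nonneg d
  have hk : (0 : ℝ) ≤ (k : ℝ) ^ 2 := by positivity
  have h3 : He (fun A => f (cubeEquiv org A)) ≤ (C1 + C2) * (k ^ 2 + d + 1) * influence f := by
    have hI' := hI
    rw [influence_eq org] at hI' ⊢
    rcases hf with hf | hf
    · refine (fin_or M c f hM hf (C1 * (k ^ 2 + 1)) (h1 k n univ)).trans ?_
      apply mul_le_mul_of_nonneg_right _ hI'
      nlinarith [mul_nonneg hC1.le hd, mul_nonneg hC2.le hd, mul_nonneg hC2.le hk]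
    · refine (h2 k d n univ _ (fin_xor M c f hM hf)).trans ?_
      apply mul_le_mul_of_nonneg_right _ hI'
      nlinarith [mul_nonneg hC1.le hd, mul_nonneg hC1.le hk]
  have h4 : specEntropy f ≤ (C1 + C2) / Real.log 2 * (k ^ 2 + d + 1) * influence f := by
    rw [fin_entropy]
    have h5 : (C1 + C2) / Real.log 2 * (k ^ 2 + d + 1) * influence f =
        ((C1 + C2) * (k ^ 2 + d + 1) * influence f) / Real.log 2 := by ring
    rw [h5]
    exact (div_le_div_iff_of_pos_right hl).mpr h3
  refine ⟨h4, ?_⟩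
  obtain ⟨S, hS⟩ := fin_large f hbool _ h4
  refine ⟨S, le_trans ?_ hS⟩
  apply Real.exp_le_exp.mpr
  have h5 : Real.log 2 / 2 ≤ 1 := by
    have := Real.log_two_lt_d9
    linarith
  have h6 : 0 ≤ (C1 + C2) / Real.log 2 * (k ^ 2 + d + 1) * influence f := by positivity
  nlinarith [mul_le_mul_of_nonneg_right h5 h6]

end Pool.Agent.MP3145b1.F
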