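import Pool.Agent.Lib.MP_3145b1_co.F.Spec

/-!
# MP_3145b1_co, F: decomposition by the first satisfied term
-/

set_option autoImplicit false

namespace Pool.Agent.MP3145b1.F

open Finset

variable {n : ℕ}

/-- The part of `b` on the points for which `j` is the first index with `A ∩ U j = c j`. -/
private noncomputable def bt (J : Finset ℕ) (U c : ℕ → Finset (Fin n))
    (b : Finset (Fin n) → ℝ) (j : ℕ) (A : Finset (Fin n)) : ℝ :=
  open Classical in if A ∩ U j = c j ∧ ∀ i ∈ J, i < j → A ∩ U i ≠ c i then b A else 0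

private theorem bt_ne (J : Finset ℕ) (U c : ℕ → Finset (Fin n)) (b : Finset (Fin n) → ℝ) (j : ℕ)
    (A : Finset (Fin n)) (h : bt J U c b j A ≠ 0) : A ∩ U j = c j := by
  classical
  by_contra hc
  apply h
  unfold bt
  rw [if_neg fun h1 => hc h1.1]

private theorem bt_sum (J : Finset ℕ) (U c : ℕ → Finset (Fin n)) (b : Finset (Fin n) → ℝ)
    (hb : ∀ A, b A ≠ 0 → ∃ j ∈ J, A ∩ U j = c j) (A : Finset (Fin n)) :
    b A = ∑ j ∈ J, bt J U c b j A := by
  classical
  by_cases h0 : b A = 0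
  · rw [h0]
    symm
    refine sum_eq_zero fun j _ => ?_
    unfold bt
    split_ifs
    · exact h0
    · rfl
  · obtain ⟨j1, hj1, hj1'⟩ := hb A h0
    have hne : (J.filter fun j => A ∩ U j = c j).Nonempty := ⟨j1, mem_filter.2 ⟨hj1, hj1'⟩⟩
    obtain ⟨hm1, hm2⟩ := mem_filter.1 (min'_mem _ hne)
    rw [sum_eq_single_of_mem _ hm1]
    · unfold bt
      rw [if_pos]
      refine ⟨hm2, fun i hi hlt he => ?_⟩
      exact absurd (min'_le _ _ (mem_filter.2 ⟨hi, he⟩)) (not_le.2 hlt)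
    · intro j hj hjne
      unfold bt
      rw [if_neg]
      rintro ⟨h1, h2⟩
      have h3 : (J.filter fun j => A ∩ U j = c j).min' hne ≤ j :=
        min'_le _ _ (mem_filter.2 ⟨hj, h1⟩)
      exact h2 _ hm1 (lt_of_le_of_ne h3 (Ne.symm hjne)) hm2

private theorem fc_bt (J : Finset ℕ) (U c : ℕ → Finset (Fin n)) (b : Finset (Fin n) → ℝ)
    (hb : ∀ A, b A ≠ 0 → ∃ j ∈ J, A ∩ U j = c j) (S : Finset (Fin n)) :
    fc b S = ∑ j ∈ J, fc (bt J U c b j) S := by
  unfold fc
  rw [← mul_sum, sum_comm]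
  congr 1
  refine sum_congr rfl fun A _ => ?_
  rw [← sum_mul, ← bt_sum J U c b hb A]

private theorem mn_mono (f g : Finset (Fin n) → ℝ) (h : ∀ A, f A ≤ g A) : mn f ≤ mn g := by
  unfold mn
  exact mul_le_mul_of_nonneg_left (sum_le_sum fun A _ => h A) (by positivity)

private theorem LU_nonneg (U : Finset (Fin n)) (g : Finset (Fin n) → ℝ) : 0 ≤ LU U g :=
  sum_nonneg fun _ _ => Real.sqrt_nonneg _

private theorem bt_sq (J : Finset ℕ) (U c : ℕ → Finset (Fin n)) (b : Finset (Fin n) → ℝ) (j : ℕ)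
    (A : Finset (Fin n)) : bt J U c b j A ^ 2 ≤ tm (U j) (c j) A * b A ^ 2 := by
  classical
  unfold bt tm
  by_cases h : A ∩ U j = c j
  · rw [if_pos h, one_mul]
    split_ifs
    · exact le_rfl
    · rw [zero_pow two_ne_zero]
      exact sq_nonneg _
  · rw [if_neg h, if_neg (fun h1 => h h1.1), zero_pow two_ne_zero, zero_mul]

theorem first (h1 : S_Cos) : S_First := by
  intro n J U c B g b hb hB
  have e1 : ∀ S : Finset (Fin n), |fc g S * fc b S| ≤
      ∑ j ∈ J, |fc g S * fc (bt J U c b j) S| := by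
    intro S
    rw [fc_bt J U c b hb S, mul_sum]
    exact abs_sum_le_sum_abs _ _
  calc ∑ S : Finset (Fin n), |fc g S * fc b S|
      ≤ ∑ S : Finset (Fin n), ∑ j ∈ J, |fc g S * fc (bt J U c b j) S| :=
        sum_le_sum fun S _ => e1 S
    _ = ∑ j ∈ J, ∑ S : Finset (Fin n), |fc g S * fc (bt J U c b j) S| := sum_comm
    _ ≤ ∑ j ∈ J, LU (U j) g * Real.sqrt ((1 / 2 : ℝ) ^ (U j).card * B j) := by
        refine sum_le_sum fun j hj => ?_
        refine (h1 n (U j) (c j) g (bt J U c b j) (bt_ne J U c b j)).trans ?_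
        refine mul_le_mul_of_nonneg_left (Real.sqrt_le_sqrt ?_) (LU_nonneg _ _)
        refine mul_le_mul_of_nonneg_left ?_ (by positivity)
        exact (mn_mono _ _ (bt_sq J U c b j)).trans (hB j hj)

end Pool.Agent.MP3145b1.F
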