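import Pool.Agent.Lib.MP_3145b1_co.F.Spec

/-! # An inequality for the logarithm -/

set_option autoImplicit false

namespace Pool.Agent.MP3145b1.F

open Finset

private theorem lx_log (x : ℝ) (hx : 0 ≤ x) : Real.log (1 + x ^ 2) ≤ x := by
  rw [Real.log_le_iff_le_exp (by positivity)]
  have h := Real.sum_le_exp_of_nonneg hx 4
  simp only [Finset.sum_range_succ, Finset.sum_range_zero, Nat.factorial, pow_zero] at h
  norm_num at h
  nlinarith [mul_nonneg hx (sq_nonneg (x - 3 / 2))]

theorem lx : S_Lx := by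
  intro s d
  rcases eq_or_ne d 0 with rfl | hd
  · simp
  · have h1 := lx_log |s / d| (abs_nonneg _)
    rw [sq_abs, div_pow] at h1
    calc d ^ 2 * Real.log (1 + s ^ 2 / d ^ 2) ≤ d ^ 2 * |s / d| :=
          mul_le_mul_of_nonneg_left h1 (sq_nonneg d)
      _ = |s * d| := by
          rw [abs_div, ← sq_abs d, abs_mul]
          have h2 : |d| ≠ 0 := abs_ne_zero.mpr hd
          field_simp

end Pool.Agent.MP3145b1.F
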