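import Pool.Agent.Lib.MP_3145b1_co.F.Spec

/-!
# MP_3145b1_co: restrictions of `zf` (`S_ResB`)
-/

set_option autoImplicit false

namespace Pool.Agent.MP3145b1.F

open Finset

private theorem resB_rd {n k : ℕ} {J : Finset ℕ} {M : ℕ → Finset (Fin n)} (h : Rd k J M)
    (p : ℕ → Prop) [DecidablePred p] (v : Fin n) :
    Rd k (J.filter p) (fun j => (M j).erase v) := by
  intro u
  refine (Finset.card_le_card fun j hj => ?_).trans (h u)
  rw [Finset.mem_filter, Finset.mem_filter] at hj
  rw [Finset.mem_filter]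
  exact ⟨hj.1.1, Finset.mem_of_mem_erase hj.2⟩

theorem resB (h1 : S_Res) : S_ResB := by
  classical
  intro n k w W J M a v hRd hJ
  refine ⟨⟨J.filter (fun j => v ∉ a j), fun j => (M j).erase v, a,
    resB_rd hRd _ v, ?_, ?_⟩, ⟨J.filter (fun j => v ∈ M j → v ∈ a j), fun j => (M j).erase v,
    fun j => (a j).erase v, resB_rd hRd _ v, ?_, ?_⟩⟩
  · intro j hj
    rw [Finset.mem_filter] at hj
    obtain ⟨h2, h3, h4⟩ := hJ j hj.1
    exact ⟨Finset.subset_erase.2 ⟨h2, hj.2⟩, Finset.erase_subset_erase v h3,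
      (Nat.sub_le_sub_right h4 1).trans Finset.pred_card_le_card_erase⟩
  · intro A
    unfold zf
    rw [Finset.prod_filter]
    refine Finset.prod_congr rfl fun j hj => ?_
    rw [(h1 n (M j) (a j) A v (hJ j hj).1).1]
    by_cases hv : v ∈ a j
    · rw [if_pos hv, if_neg (not_not.2 hv), sub_zero]
    · rw [if_neg hv, if_pos hv]
  · intro j hj
    rw [Finset.mem_filter] at hj
    obtain ⟨h2, h3, h4⟩ := hJ j hj.1
    exact ⟨Finset.erase_subset_erase v h2, Finset.erase_subset_erase v h3,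
      (Nat.sub_le_sub_right h4 1).trans Finset.pred_card_le_card_erase⟩
  · intro A
    unfold zf
    rw [Finset.prod_filter]
    refine Finset.prod_congr rfl fun j hj => ?_
    rw [(h1 n (M j) (a j) A v (hJ j hj).1).2]
    by_cases hv : v ∈ M j ∧ v ∉ a j
    · rw [if_pos hv, if_neg (fun h => hv.2 (h hv.1)), sub_zero]
    · rw [if_neg hv, if_pos (fun h => by_contra fun h' => hv ⟨h, h'⟩)]

end Pool.Agent.MP3145b1.F
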