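import Pool.Agent.Lib.MP_3145b1_co.Spec
import Pool.Agent.Lib.MP_3145b1_co.Par

/-!
# MP_3145b1_co, Fourier entropy-influence for bounded-read depth-two formulas: module statements

Points of the cube are finite sets `A : Finset (Fin n)` (the coordinates equal to one). Entropy is
in nats. For a variable `v`, `r0 v f`, `r1 v f` are the restrictions of `f`, `av v f`, `df v f`
their half sum and half difference (functions on the whole cube which do not depend on `v`).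

Every module statement is a `Prop` (`def S_X : Prop`); the module proves
`theorem x : ... -> S_X` (the used statements are hypotheses).
-/

set_option autoImplicit false

namespace Pool.Agent.MP3145b1.F

open Finset

variable {n : ℕ}

/-! ### Definitions -/

/-- Mean over the cube. -/
noncomputable def mn (f : Finset (Fin n) → ℝ) : ℝ := (1 / 2 : ℝ) ^ n * ∑ A : Finset (Fin n), f A

/-- Spectral entropy (nats). -/
noncomputable def He (f : Finset (Fin n) → ℝ) : ℝ :=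
  ∑ S : Finset (Fin n), Real.negMulLog (fc f S ^ 2)

/-- Restriction `x_v = 0`. -/
def r0 (v : Fin n) (f : Finset (Fin n) → ℝ) (A : Finset (Fin n)) : ℝ := f (A.erase v)

/-- Restriction `x_v = 1`. -/
def r1 (v : Fin n) (f : Finset (Fin n) → ℝ) (A : Finset (Fin n)) : ℝ := f (insert v A)

/-- Half sum of the restrictions. -/
noncomputable def av (v : Fin n) (f : Finset (Fin n) → ℝ) (A : Finset (Fin n)) : ℝ :=
  (f (A.erase v) + f (insert v A)) / 2

/-- Half difference of the restrictions. -/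
noncomputable def df (v : Fin n) (f : Finset (Fin n) → ℝ) (A : Finset (Fin n)) : ℝ :=
  (f (A.erase v) - f (insert v A)) / 2

/-- The cost of the variable `v`. -/
noncomputable def Cv (v : Fin n) (f : Finset (Fin n) → ℝ) : ℝ :=
  ∑ S : Finset (Fin n),
    fc (df v f) S ^ 2 * Real.log (1 + fc (av v f) S ^ 2 / fc (df v f) S ^ 2)

/-- Indicator of the term with set of variables `M`, the variables in `a` have to be one, the
variables in `M \ a` zero. -/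
noncomputable def tm (M a A : Finset (Fin n)) : ℝ := if A ∩ M = a then 1 else 0

/-- Every variable occurs in at most `k` terms. -/
def Rd (k : ℕ) (J : Finset ℕ) (M : ℕ → Finset (Fin n)) : Prop :=
  ∀ v, (J.filter fun j => v ∈ M j).card ≤ k

/-- Mixed norm of the Fourier transform. -/
noncomputable def LU (U : Finset (Fin n)) (g : Finset (Fin n) → ℝ) : ℝ :=
  ∑ s ∈ U.powerset, Real.sqrt (∑ R ∈ (Uᶜ).powerset, fc g (s ∪ R) ^ 2)

/-- Functions to `F_2` given by polynomials of degree at most `d` in the variables `W`. -/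
def Pol (W : Finset (Fin n)) (d : ℕ) : Submodule (ZMod 2) (Finset (Fin n) → ZMod 2) :=
  Submodule.span (ZMod 2) {g | ∃ M : Finset (Fin n), M ⊆ W ∧ M.card ≤ d ∧
    g = fun A => if M ⊆ A then 1 else 0}

/-- The derivative of `q` in direction `v`. -/
def dv (v : Fin n) (q : Finset (Fin n) → ZMod 2) (A : Finset (Fin n)) : ZMod 2 :=
  q (insert v A) - q (A.erase v)

/-- `(-1)^(q + sum of the terms)`. -/
noncomputable def xf (q : Finset (Fin n) → ZMod 2) (J : Finset ℕ) (M a : ℕ → Finset (Fin n))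
    (A : Finset (Fin n)) : ℝ :=
  (if q A = 0 then 1 else -1) * ∏ j ∈ J, (1 - 2 * tm (M j) (a j) A)

/-- The sum over `F_2` of `dv v q` and of the terms which contain `v` and have width at most `s`,
without the literal of `v`. -/
def gs (q : Finset (Fin n) → ZMod 2) (J : Finset ℕ) (M a : ℕ → Finset (Fin n)) (v : Fin n) (s : ℕ)
    (A : Finset (Fin n)) : ZMod 2 :=
  dv v q A + ∑ j ∈ J.filter (fun j => v ∈ M j ∧ (M j).card ≤ s),
    if A ∩ (M j).erase v = (a j).erase v then 1 else 0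

/-- The class of the XORs of terms: read at most `k`, a polynomial of degree at most `d`. -/
def PA (k d : ℕ) (W : Finset (Fin n)) (f : Finset (Fin n) → ℝ) : Prop :=
  ∃ (q : Finset (Fin n) → ZMod 2) (J : Finset ℕ) (M a : ℕ → Finset (Fin n)),
    q ∈ Pol W d ∧ Rd k J M ∧ (∀ j ∈ J, a j ⊆ M j ∧ M j ⊆ W) ∧ f = xf q J M a

/-- Indicator of: no term is satisfied. -/
noncomputable def zf (J : Finset ℕ) (M a : ℕ → Finset (Fin n)) (A : Finset (Fin n)) : ℝ :=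
  ∏ j ∈ J, (1 - tm (M j) (a j) A)

/-- The class of the negated DNFs of read at most `k`, with values `1` and `-1`. -/
def PB (k : ℕ) (W : Finset (Fin n)) (f : Finset (Fin n) → ℝ) : Prop :=
  ∃ (J : Finset ℕ) (M a : ℕ → Finset (Fin n)),
    Rd k J M ∧ (∀ j ∈ J, a j ⊆ M j ∧ M j ⊆ W) ∧ f = fun A => 2 * zf J M a A - 1

/-! ### One step and descent -/

/-- (Sc, 70 lines) Scalar inequality. Proof. `d = 0` or `s = 0`: immediate (`negMulLog 0 = 0`; for
`d = 0` both sides agree, for `s = 0` the right side is `negMulLog (d^2) + 5 d^2`). Otherwise let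
`N = s^2 + d^2`, `u = (s+d)^2`, `w = (s-d)^2`, `u + w = 2 N`, `(u - w) / 2 = 2 s d`, and
`|2 s d| ≤ N`. With `r = 2 s d / N ∈ [-1, 1]`, `u = N (1 + r)`, `w = N (1 - r)`:
`(u log u + w log w) / 2 - N log N = (N/2) ((1+r) log (1+r) + (1-r) log (1-r)) ≤ N r^2`
since `log (1 ± r) ≤ ± r` (`Real.log_le_sub_one_of_pos`; if `1 ± r = 0` the term is `0`), and
`N r^2 = 4 s^2 d^2 / N ≤ 4 d^2`. Moreover `negMulLog (s^2) + negMulLog (d^2) + N log N =
s^2 log (1 + d^2/s^2) + d^2 log (1 + s^2/d^2)` and the first summand is `≤ d^2`. -/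
def S_Sc : Prop := ∀ s d : ℝ,
  Real.negMulLog (s ^ 2) + Real.negMulLog (d ^ 2) ≤
    (Real.negMulLog ((s + d) ^ 2) + Real.negMulLog ((s - d) ^ 2)) / 2 + 5 * d ^ 2 +
      d ^ 2 * Real.log (1 + s ^ 2 / d ^ 2)

/-- (Lx, 25 lines) `log (1 + x^2) ≤ x` for `x = |s/d| ≥ 0` (`exp x ≥ 1 + x + x^2/2 + x^3/6 ≥ 1 + x^2`,
`Real.sum_le_exp_of_nonneg` or `Real.quadratic_le_exp_of_nonneg` with a case distinction). -/
def S_Lx : Prop := ∀ s d : ℝ, d ^ 2 * Real.log (1 + s ^ 2 / d ^ 2) ≤ |s * d|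

/-- (Step, 120 lines, uses S_Sc, S_Par is available) One step of the recursion. Proof. For `v ∉ S`:
`fc (av v f) S = fc f S`, `fc (df v f) S = fc f (insert v S)`; for `v ∈ S` both are `0`; for all `S`
`fc (r0 v f) S = fc (av v f) S + fc (df v f) S`, `fc (r1 v f) S = fc (av v f) S - fc (df v f) S`
(split the sum over `A` into `v ∈ A` and `v ∉ A`). So
`He f = ∑_S (negMulLog (fc (av v f) S ^ 2) + negMulLog (fc (df v f) S ^ 2))` and S_Sc applies to
every summand. The second formula: `|insert v S| = |S| + 1`,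
`x^2 + y^2 = ((x+y)^2 + (x-y)^2)/2`. -/
def S_Step : Prop := ∀ (n : ℕ) (v : Fin n) (f : Finset (Fin n) → ℝ),
  (He f ≤ (He (r0 v f) + He (r1 v f)) / 2 + 5 * ∑ S : Finset (Fin n), fc (df v f) S ^ 2 + Cv v f) ∧
  tinf f = (tinf (r0 v f) + tinf (r1 v f)) / 2 + ∑ S : Finset (Fin n), fc (df v f) S ^ 2

/-- (Desc, 60 lines, uses S_Step) Descent. Induction on `W.card`. If `f` is constant `c = ± 1`, then
`He f = 0` (`fc f ∅ = c`, the other coefficients are `0`) and `tinf f ≥ 0`. -/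
def S_Desc : Prop := ∀ (n : ℕ) (C : ℝ)
  (P : Finset (Fin n) → (Finset (Fin n) → ℝ) → Prop), 0 ≤ C →
  (∀ W f, P W f → (∃ c : ℝ, (c = 1 ∨ c = -1) ∧ ∀ A, f A = c) ∨
    ∃ v ∈ W, P (W.erase v) (r0 v f) ∧ P (W.erase v) (r1 v f) ∧
      Cv v f ≤ C * ∑ S : Finset (Fin n), fc (df v f) S ^ 2) →
  ∀ W f, P W f → He f ≤ (5 + C) * tinf f

/-! ### The mixed norm -/

/-- (Ind, 50 lines) Independence. Proof: the map `A ↦ (A ∩ W, A \ W)` splits the sum. -/
def S_Ind : Prop := ∀ (n : ℕ) (W c : Finset (Fin n)) (u : Finset (Fin n) → ℝ),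
  (∀ A, u (A \ W) = u A) → c ⊆ W →
    mn (fun A => tm W c A * u A) = (1 / 2 : ℝ) ^ W.card * mn u

/-- (LSum, 50 lines) Triangle inequality for `LU` (Minkowski for every `s`, `fc` is linear; for
example by induction on the index set from the case of two functions, `Real.sqrt` of a sum of
squares is the norm of `EuclideanSpace`, or use `Finset.inner_mul_le_norm_mul_norm` /
`Real.inner_le_nnorm_mul_nnorm`, `Real.Lp_add_le`). -/
def S_LSum : Prop := ∀ (n : ℕ) (ι : Type) (I : Finset ι) (U : Finset (Fin n)) (c : ι → ℝ)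
  (g : ι → Finset (Fin n) → ℝ),
  LU U (fun A => ∑ i ∈ I, c i * g i A) ≤ ∑ i ∈ I, |c i| * LU U (g i)

/-- (LTerm, 110 lines, S_Par is available) Proof. For `s ⊆ U`, `R ⊆ Uᶜ` and `g A = tm M a A * u A`
the coefficient `fc g (s ∪ R)` is `(1/2)^n` times
`(∑_{B ⊆ U, B ∩ M = a ∩ U} (-1)^|s ∩ B|) * ∑_{A' ⊆ Uᶜ, A' ∩ M = a \ U} u A' (-1)^|R ∩ A'|`
(write `A = B ∪ A'`; if `a` is not a subset of `M`, then `g = 0`). The first factor is `0` unless
`s ⊆ M`, and its absolute value is `2^|U \ M|` otherwise. For `g' A = tm (M \ U) (a \ U) A * u A`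
(`g'` does not depend on `U`) and `R ⊆ Uᶜ`: `fc g' R = (1/2)^n 2^|U| *` (second factor). So
`|fc g (s ∪ R)| ≤ (1/2)^|U ∩ M| |fc g' R|` if `s ⊆ U ∩ M` and `0` otherwise; by S_Par the square
root for `s` is at most `(1/2)^|U ∩ M| sqrt (mn (g'^2))`; sum over the `2^|U ∩ M|` sets `s`. -/
def S_LTerm : Prop := ∀ (n : ℕ) (U M a : Finset (Fin n)) (u : Finset (Fin n) → ℝ),
  (∀ A, u (A \ U) = u A) →
    LU U (fun A => tm M a A * u A) ≤ Real.sqrt (mn (fun A => tm (M \ U) (a \ U) A * u A ^ 2))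

/-- (Cos, 80 lines, S_Par is available) Proof. `β` lives on `A ∩ U = c`, so
`|fc β (s ∪ R)| = |fc β R|` for `s ⊆ U`, `R ⊆ Uᶜ` (`(-1)^|(s ∪ R) ∩ A| = (-1)^|s ∩ c| (-1)^|R ∩ A|`).
Cauchy-Schwarz for every `s`; `∑_{R ⊆ Uᶜ} fc β R ^ 2 = (1/2)^|U| ∑_S fc β S ^ 2 =
(1/2)^|U| mn (β^2)`. -/
def S_Cos : Prop := ∀ (n : ℕ) (U c : Finset (Fin n)) (g β : Finset (Fin n) → ℝ),
  (∀ A, β A ≠ 0 → A ∩ U = c) →
    ∑ S : Finset (Fin n), |fc g S * fc β S| ≤
      LU U g * Real.sqrt ((1 / 2 : ℝ) ^ U.card * mn (fun A => β A ^ 2))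

/-- (First, 70 lines, uses S_Cos) Proof. For `j ∈ J` let `β j A = b A` if `j` is the least element
of `J` with `A ∩ U j = c j`, and `0` otherwise. Then `b = ∑_{j ∈ J} β j`, `fc b S = ∑ fc (β j) S`,
S_Cos for every `β j`, and `mn (β j ^ 2) ≤ B j`. -/
def S_First : Prop := ∀ (n : ℕ) (J : Finset ℕ) (U c : ℕ → Finset (Fin n)) (B : ℕ → ℝ)
  (g b : Finset (Fin n) → ℝ), (∀ A, b A ≠ 0 → ∃ j ∈ J, A ∩ U j = c j) →
  (∀ j ∈ J, mn (fun A => tm (U j) (c j) A * b A ^ 2) ≤ B j) →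
    ∑ S : Finset (Fin n), |fc g S * fc b S| ≤
      ∑ j ∈ J, LU (U j) g * Real.sqrt ((1 / 2 : ℝ) ^ (U j).card * B j)

/-- (Nm, 50 lines) Proof. If `2 j ≥ m`, the left side is at most `3` and the right side is at least
`exp 5`. If `2 j < m`: left side `≤ exp (2 (1/2)^((m-j)/(4k))) ≤ exp (2 (1/2)^(m/(8k)))`, and
`2 (1/2)^(m/(8k)) ≤ 10 k / m ≤ 10 k j / m` because with `y = m/(8k)` this says
`y (1/2)^y ≤ 5/8`; `y 2^(-y) = y exp (- y log 2)` and `y log 2 ≤ exp (y log 2 - 1)` gives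
`y 2^(-y) ≤ 1 / (e log 2) ≤ 0.54`. -/
def S_Nm : Prop := ∀ k m j : ℕ, 1 ≤ k → 1 ≤ j → j ≤ m →
  1 + 2 * (1 / 2 : ℝ) ^ (((m - j : ℕ) : ℝ) / (4 * k)) ≤ Real.exp (10 * k * j / m)

/-- (Un, 30 lines) Double counting: every `v` in the union lies in at most `k` of the sets. -/
def S_Un : Prop := ∀ (n k : ℕ) (J G : Finset ℕ) (M : ℕ → Finset (Fin n)) (U : Finset (Fin n)),
  Rd k J M → G ⊆ J → (∑ j ∈ G, ((M j) \ U).card ≤ k * ((G.biUnion M) \ U).card) ∧
    ∑ j ∈ G, ((M j) ∩ U).card ≤ k * U.card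

/-- (Prod, 130 lines, uses S_LSum, S_LTerm, S_Nm, S_Un) The main bound for the norm. Proof. Expand
`∏_{j ∈ J} (1 - c t_j) = ∑_{G ⊆ J} (-c)^|G| ∏_{j ∈ G} t_j` (`Finset.prod_add` or
`Finset.prod_one_add`/`prod_sub`). The product of the `t_j`, `j ∈ G`, is `0` or equal to
`tm (G.biUnion M) (G.biUnion a)`. By S_LTerm and the hypothesis on `u` its norm (times `u`) is at
most `K (1/2)^(|union \ U|/4) ≤ K ∏_{j ∈ G} (1/2)^(|M_j \ U|/(4k))` (S_Un). So the norm is at most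
`K ∏_{j ∈ J} (1 + c (1/2)^(|M_j \ U|/(4k)))`, and S_Nm with `m = |M_j|`, its `j` equal to
`|M_j ∩ U| ≥ 1`, and `∑_j |M_j ∩ U| / |M_j| ≤ k |U| / w` (S_Un) give the claim. For `k = 0` the
set `J` is empty (every `M_j` meets `U`), and the norm of `u = tm ∅ ∅ * u` is at most `K`. -/
def S_Prod : Prop := ∀ (n k w : ℕ) (J : Finset ℕ) (M a : ℕ → Finset (Fin n)) (U : Finset (Fin n))
  (u : Finset (Fin n) → ℝ) (K c : ℝ), 1 ≤ w → 0 ≤ K → 0 ≤ c → c ≤ 2 → Rd k J M →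
  (∀ j ∈ J, w ≤ (M j).card) → (∀ j ∈ J, a j ⊆ M j) → (∀ j ∈ J, ¬ Disjoint (M j) U) →
  (∀ A, u (A \ U) = u A) →
  (∀ M' a' : Finset (Fin n), mn (fun A => tm (M' \ U) (a' \ U) A * u A ^ 2) ≤
    K ^ 2 * (1 / 2 : ℝ) ^ (((M' \ U).card : ℝ) / 2)) →
    LU U (fun A => (∏ j ∈ J, (1 - c * tm (M j) (a j) A)) * u A) ≤
      K * Real.exp (10 * k ^ 2 * U.card / w)

/-! ### XOR of terms -/

/-- (Res, 30 lines) Restriction of a term. -/
def S_Res : Prop := ∀ (n : ℕ) (M a A : Finset (Fin n)) (v : Fin n), a ⊆ M →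
  (tm M a (A.erase v) = if v ∈ a then 0 else tm (M.erase v) a A) ∧
  (tm M a (insert v A) = if v ∈ M ∧ v ∉ a then 0 else tm (M.erase v) (a.erase v) A)

/-- (PolB, 120 lines) Basic facts on `Pol`. (1) `Submodule.span_induction`: the monomial of `M` at
`A.erase v` is `0` (if `v ∈ M`) or the same monomial, at `insert v A` it is the monomial of
`M.erase v`; (2) the derivative of the monomial of `M` is `0` or the monomial of `M.erase v`, of
degree at most `d - 1`; (3) the term of `(M, a)` is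
`∏_{i ∈ a} x_i ∏_{i ∈ M \ a} (1 + x_i) = ∑_{T ⊆ M \ a} x^(a ∪ T)`, i.e. for `a ⊆ A` the number of
`T ⊆ (M \ a) ∩ A` is odd iff `(M \ a) ∩ A = ∅`; (4) `Submodule.span_mono`; (5) walk from `A` to `∅`
inside `W`: elements of `Pol W d` satisfy `q A = q (A ∩ W)`, and `dv v q = 0` gives
`q (insert v B) = q B` for `v ∉ B`. -/
def S_PolB : Prop := ∀ (n d : ℕ) (W : Finset (Fin n)) (q : Finset (Fin n) → ZMod 2),
  (q ∈ Pol W d → ∀ v, (fun A => q (A.erase v)) ∈ Pol (W.erase v) d ∧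
    (fun A => q (insert v A)) ∈ Pol (W.erase v) d ∧ (1 ≤ d → dv v q ∈ Pol (W.erase v) (d - 1)) ∧
    (d = 0 → dv v q = 0)) ∧
  (∀ M a : Finset (Fin n), a ⊆ M → M ⊆ W → M.card ≤ d →
    (fun A => if A ∩ M = a then 1 else 0) ∈ Pol W d) ∧
  (∀ (d' : ℕ) (W' : Finset (Fin n)), d ≤ d' → W ⊆ W' → Pol W d ≤ Pol W' d') ∧
  (q ∈ Pol W d → (∀ v ∈ W, dv v q = 0) → ∀ A, q A = q ∅)

/-- (RM, 100 lines, uses S_PolB) Minimum distance of the Reed-Muller code. Proof by induction on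
`W`, for all `d`, `q`. `W = ∅` or `d = 0`: `q` is constant, `q = 1`. `W ∋ v`: let
`q₀ A = q (A.erase v)`, `q₁ A = q (insert v A)`, both in `Pol (W.erase v) d`; the number of `A` with
`q A ≠ 0` is half the sum of the numbers for `q₀` and `q₁` (these do not depend on `v`). If both are
nonzero, use induction; if one is zero, the other one is `dv v q` (up to the sign), nonzero, in
`Pol (W.erase v) (d - 1)`, `d ≥ 1`, and `(1/2) 2^n (1/2)^(d-1) = 2^n (1/2)^d`. -/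
def S_RM : Prop := ∀ (n d : ℕ) (W : Finset (Fin n)) (q : Finset (Fin n) → ZMod 2),
  q ∈ Pol W d → q ≠ 0 →
    (1 / 2 : ℝ) ^ d ≤ mn (fun A => if q A ≠ 0 then (1 : ℝ) else 0)

/-- (ResA, 80 lines, uses S_Res, S_PolB) The class is closed under restrictions. Proof. `x_v = 0`:
`q₀ A = q (A.erase v)`, `J₀ = J.filter (v ∉ a j)`, `M₀ j = (M j).erase v`, `a₀ = a`;
`x_v = 1`: `q₁ A = q (insert v A)`, `J₁ = J.filter (v ∈ M j → v ∈ a j)`, `a₁ j = (a j).erase v`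
(factors with `tm = 0` are `1`: `Finset.prod_filter`). Every `C` is allowed in the widths. -/
def S_ResA : Prop := ∀ (n k d : ℕ) (W : Finset (Fin n)) (f : Finset (Fin n) → ℝ) (v : Fin n),
  PA k d W f → PA k d (W.erase v) (r0 v f) ∧ PA k d (W.erase v) (r1 v f)

/-- (MinA, 150 lines, uses S_PolB) Minimal representation. Proof. Take a representation with
`∑_{j ∈ J} (|M j| + 1)` minimal (`Nat.find` or well-founded induction on this number). If
`|M j| ≤ d` for some `j ∈ J`, put `q' = q + t_j` (S_PolB (3)), `J' = J.erase j`: the factor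
`1 - 2 t_j` is `-1` exactly if `t_j = 1`, so `xf q' J' M a = xf q J M a`; contradiction. If
`G = {j ∈ J : v ∈ M j, |M j| ≤ s}` is nonempty and `gs q J M a v s = 0`, then the function
`F A = q A + ∑_{j ∈ G} t_j A` satisfies `F (insert v A) = F (A.erase v)`, because
`t_j (insert v A) + t_j (A.erase v) = [A ∩ (M j).erase v = (a j).erase v]` for `v ∈ M j`; hence
`F A = F (A.erase v)`, i.e. `F A = q (A.erase v) + ∑_{j ∈ G, v ∉ a j} [A ∩ (M j).erase v = a j]`. So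
`q' A = q (A.erase v)`, `J' = (J \ G) ∪ {j ∈ G : v ∉ a j}`, `M' j = (M j).erase v` for `j ∈ G`
represent the same function (compare the signs: `xf` is `1` or `-1` according to the parity of
`q + ∑ t_j`), the read does not increase and the number is smaller; contradiction. -/
def S_MinA : Prop := ∀ (n k d : ℕ) (W : Finset (Fin n)) (f : Finset (Fin n) → ℝ), PA k d W f →
  ∃ (q : Finset (Fin n) → ZMod 2) (J : Finset ℕ) (M a : ℕ → Finset (Fin n)),
    q ∈ Pol W d ∧ Rd k J M ∧ (∀ j ∈ J, a j ⊆ M j ∧ M j ⊆ W) ∧ f = xf q J M a ∧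
    (∀ j ∈ J, d < (M j).card) ∧
    ∀ (v : Fin n) (s : ℕ), (∃ j ∈ J, v ∈ M j ∧ (M j).card ≤ s) → gs q J M a v s ≠ 0

/-- (InfA, 150 lines, uses S_PolB, S_RM) Lower bound for the influence. Proof. Consider the `k + 1`
intervals `(w + r k, w + (r+1) k]`, `r = 0..k`; at most `k` sets `M j`, `j ∈ J`, contain `v`, so there is
`r ≤ k` such that no `M j ∋ v` has its size in the interval; `s = w + r k ≤ w + k^2`. Then
`g = gs q J M a v s` is nonzero (if some `M j ∋ v`, `j ∈ J`, has size `≤ s`, by the hypothesis;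
otherwise `g = dv v q ≠ 0`; note that the second alternative gives `|M j| ≤ w ≤ s`), `s ≥ 1` and
`g ∈ Pol univ (s - 1)`. By S_RM `mn [g ≠ 0] ≥ (1/2)^(s-1)`. The `M j ∋ v` with size `> s` have size
`≥ s + k + 1`, there are at most `k` of them, `mn [A ∩ (M j).erase v = (a j).erase v] =
(1/2)^(|M j| - 1) ≤ (1/2)^(s+k)`, together at most `k (1/2)^(s+k) ≤ (1/2)^s`. If `g A ≠ 0` and none
of these holds at `A`, then `xf (insert v A) ≠ xf (A.erase v)` (the exponent changes by `g A = 1`), so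
`df v f A ^ 2 = 1`. So the mean is at least `(1/2)^(s-1) - (1/2)^s = (1/2)^s`. -/
def S_InfA : Prop := ∀ (n k d w : ℕ) (W : Finset (Fin n)) (q : Finset (Fin n) → ZMod 2)
  (J : Finset ℕ) (M a : ℕ → Finset (Fin n)) (v : Fin n),
  q ∈ Pol W d → Rd k J M → (∀ j ∈ J, a j ⊆ M j) → d ≤ w →
  (∀ s : ℕ, (∃ j ∈ J, v ∈ M j ∧ (M j).card ≤ s) → gs q J M a v s ≠ 0) →
  (dv v q ≠ 0 ∨ ∃ j ∈ J, v ∈ M j ∧ (M j).card ≤ w) →
    (1 / 2 : ℝ) ^ (w + k ^ 2) ≤ mn (fun A => df v (xf q J M a) A ^ 2)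

/-- (CostA, 150 lines, uses S_First, S_Prod, S_LSum, S_Res, S_Ind) Upper bound for the cost. Here
`f A = c ∏_{j ∈ J} (1 - 2 t_j)`. Proof. `df v f A ≠ 0` implies that `t_j (A.erase v)` or
`t_j (insert v A)` is `1` for some `j ∈ J` with `v ∈ M j` (otherwise both products agree), i.e.
`A ∩ U j = c j` with `U j = (M j).erase v`, `c j = (a j).erase v`. S_First with `B j = (1/2)^|U j|`
(`|df| ≤ 1`, S_Ind with `u = 1`) gives the bound `∑_{j ∈ J, v ∈ M j} LU (U j) (av v f) (1/2)^|U j|`.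
`av v f = (r0 v f + r1 v f)/2`, and `r0 v f`, `r1 v f` are `c` times a product `∏ (1 - 2 t)` over
restricted families (S_Res, as in S_ResA), of widths `≥ w - 1 ≥ 1`; with `U = U j` write this as the
product over the terms which meet `U`, times `u`, the product over the other ones, `u A ^ 2 = 1`,
`u (A \ U) = u A`; S_Prod with `K = 1`, factor `2`, gives
`LU U (r0 v f) ≤ exp (10 k^2 |U| / (w-1))` (`mn (tm ..) ≤ (1/2)^|M' \ U| ≤ (1/2)^(|M' \ U| / 2)`).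
Finally `(1/2)^u exp (10 k^2 u / (w-1)) ≤ (1/2)^(w-1) exp (10 k^2)` for `u ≥ w - 1 ≥ 15 k^2`
(`15 log 2 ≥ 10`), and there are at most `k` indices. -/
def S_CostA : Prop := ∀ (n k w : ℕ) (J : Finset ℕ) (M a : ℕ → Finset (Fin n)) (v : Fin n) (c : ℝ),
  1 ≤ k → 15 * k ^ 2 + 1 ≤ w → Rd k J M → (∀ j ∈ J, a j ⊆ M j) → (∀ j ∈ J, w ≤ (M j).card) →
  |c| ≤ 1 → ∀ f : Finset (Fin n) → ℝ, (∀ A, f A = c * ∏ j ∈ J, (1 - 2 * tm (M j) (a j) A)) →
    ∑ S : Finset (Fin n), |fc (av v f) S * fc (df v f) S| ≤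
      k * Real.exp (10 * k ^ 2) * (1 / 2 : ℝ) ^ (w - 1)

/-- (MainA, assembly, helper33; uses S_Desc, S_Lx, S_PolB, S_ResA, S_MinA, S_InfA, S_CostA). -/
def S_MainA : Prop := ∀ k d : ℕ, ∃ C : ℝ, 0 < C ∧ ∀ (n : ℕ) (W : Finset (Fin n))
  (f : Finset (Fin n) → ℝ), PA k d W f → He f ≤ C * tinf f

/-! ### DNFs -/

/-- (LP, 130 lines, uses S_Ind, S_Un) Local lemma. (3): drop the terms which meet `W` (all factors
are in `[0, 1]`), the other ones do not depend on `W` (if `c` is not a subset of `W`, the left side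
is `0`). (1) and (2) by induction on `J.card`: for (2) add the elements of `J \ G` one at a time,
`mn (zf (insert j G)) = mn (zf G) - mn (tm (M j) (a j) * zf G) ≥ (1 - (3/5)^|M j|) mn (zf G) ≥
(1 - (3/5)^m) mn (zf G)` by (1) for `G` (smaller than `J`). (1) for `J`: (3), and (2) for
`G = J.filter (Disjoint (M j) W)` (if `G = J`, then (3) is enough), with `|J \ G| ≤ k |W|` (S_Un:
every set meets `W`) gives `mn (zf G) ≤ (1 - (3/5)^m)^(-k|W|) mn (zf J) ≤ (6/5)^|W| mn (zf J)`,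
since `(1 - (3/5)^m)^k ≥ 1 - k (3/5)^m ≥ 5/6` (Bernoulli). -/
def S_LP : Prop := ∀ (n k m : ℕ) (J : Finset ℕ) (M a : ℕ → Finset (Fin n)),
  6 * k * (3 / 5 : ℝ) ^ m ≤ 1 → Rd k J M → (∀ j ∈ J, m ≤ (M j).card) →
  (∀ W c : Finset (Fin n), mn (fun A => tm W c A * zf J M a A) ≤
    (3 / 5 : ℝ) ^ W.card * mn (zf J M a)) ∧
  (∀ G ⊆ J, (1 - (3 / 5 : ℝ) ^ m) ^ (J \ G).card * mn (zf G M a) ≤ mn (zf J M a)) ∧
  ∀ W c : Finset (Fin n), mn (fun A => tm W c A * zf J M a A) ≤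
    (1 / 2 : ℝ) ^ W.card * mn (zf (J.filter fun j => Disjoint (M j) W) M a)

/-- (ResB, 60 lines, uses S_Res) As S_ResA; in addition the restrictions of `zf` are again of this
form with widths at least `w - 1`. -/
def S_ResB : Prop := ∀ (n k w : ℕ) (W : Finset (Fin n)) (J : Finset ℕ)
  (M a : ℕ → Finset (Fin n)) (v : Fin n),
  Rd k J M → (∀ j ∈ J, a j ⊆ M j ∧ M j ⊆ W ∧ w ≤ (M j).card) →
  (∃ (J' : Finset ℕ) (M' a' : ℕ → Finset (Fin n)), Rd k J' M' ∧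
    (∀ j ∈ J', a' j ⊆ M' j ∧ M' j ⊆ W.erase v ∧ w - 1 ≤ (M' j).card) ∧
    ∀ A, zf J M a (A.erase v) = zf J' M' a' A) ∧
  (∃ (J' : Finset ℕ) (M' a' : ℕ → Finset (Fin n)), Rd k J' M' ∧
    (∀ j ∈ J', a' j ⊆ M' j ∧ M' j ⊆ W.erase v ∧ w - 1 ≤ (M' j).card) ∧
    ∀ A, zf J M a (insert v A) = zf J' M' a' A)

/-- (MinB, 90 lines) Minimal representation: `∑_{j ∈ J} (|M j| + 1)` minimal. If for some `j ∈ J`,
`v ∈ M j` there is no witness `z`, then `zf J M a A = 0` for all `A` with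
`A ∩ (M j).erase v = (a j).erase v`, so replacing `M j`, `a j` by `(M j).erase v`, `(a j).erase v`
does not change `zf` (`zf` is the product over `J.erase j` times `1 - t_j`; if the new term holds at
`A`, then `zf J M a A = 0`, otherwise `t_j A = 0` too, because `A ∩ M j = a j` implies
`A ∩ (M j).erase v = (a j).erase v`). -/
def S_MinB : Prop := ∀ (n k : ℕ) (W : Finset (Fin n)) (f : Finset (Fin n) → ℝ), PB k W f →
  ∃ (J : Finset ℕ) (M a : ℕ → Finset (Fin n)), Rd k J M ∧ (∀ j ∈ J, a j ⊆ M j ∧ M j ⊆ W) ∧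
    (f = fun A => 2 * zf J M a A - 1) ∧
    ∀ j ∈ J, ∀ v ∈ M j, ∃ z : Finset (Fin n), z ∩ (M j).erase v = (a j).erase v ∧
      zf J M a z = 1

/-- (InfB, 180 lines, uses S_LP, S_Ind, S_Un) Lower bound for the influence, all terms wide. Proof.
Let `M₀ = M j₀`, `|M₀| = w`, `z` the witness. `t_{j₀} z = 0` because `zf z = 1`, so `z` differs from
`a j₀` on `M₀` exactly at `v`. Let `N = {j ∈ J : z ∩ (M j ∩ M₀) = a j ∩ M₀, 2 |M j \ M₀| ≤ w}`. For
`j ∈ N`: `|M j ∩ M₀| ≥ |M j| - w/2 ≥ w/2`, so by S_Un (`U = M₀`) `|N| ≤ 2 k` (`w ≥ 1`). As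
`t_j z = 0`, there is `v_j ∈ M j` where `z` and `a j` differ, and `v_j ∉ M₀`. Let
`K = M₀ ∪ {v_j : j ∈ N}`, `|K| ≤ w + 2 k`, `ρ = z ∩ K`. For `A ∩ K = ρ`: a term with `t_j A = 1`
agrees with `z` on `K ∩ M j`, so `j ∉ N` and `|M j \ M₀| > w/2`, `|M j \ K| ≥ w/2 - 2 k =: m`
(natural number division). Let `F` be the set of these `j` (agreement on `K ∩ M j`); for
`A ∩ K = ρ`: `zf J M a A = zf F M' a' A`, `M' j = M j \ K`, `a' j = a j \ K` (does not depend on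
`K`). By S_Ind and S_LP (2) for the family `F, M', a'` and `G = {j ∈ F : M j ∩ K = ∅}`:
`mn (tm K ρ * zf J M a) = (1/2)^|K| mn (zf F M' a') ≥ (1/2)^|K| (1 - (3/5)^m)^(k |K|) mn (zf G M a)`
and `mn (zf G M a) ≥ mn (zf J M a)` (`G ⊆ J`, on `G` nothing changes). The factor
`(1 - (3/5)^m)^(k (w + 2k))` is at least `1/2` for `w ≥ w₀ (k)`. Finally
`df v f A ^ 2 = 1` for `f = 2 zf - 1` if `A ∩ K = ρ`, `zf J M a A = 1`: flipping `v` in `A` satisfies
`t_{j₀}`. -/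
def S_InfB : Prop := ∀ k : ℕ, ∃ (w₀ : ℕ) (c : ℝ), 0 < c ∧ ∀ (n w : ℕ) (J : Finset ℕ)
  (M a : ℕ → Finset (Fin n)) (j₀ : ℕ) (v : Fin n) (z : Finset (Fin n)), w₀ ≤ w → Rd k J M →
  (∀ j ∈ J, a j ⊆ M j ∧ w ≤ (M j).card) → j₀ ∈ J → (M j₀).card = w → v ∈ M j₀ →
  z ∩ (M j₀).erase v = (a j₀).erase v → zf J M a z = 1 →
    c * (1 / 2 : ℝ) ^ w * mn (zf J M a) ≤
      mn (fun A => df v (fun A => 2 * zf J M a A - 1) A ^ 2)

/-- (NormB, 100 lines, uses S_LP, S_Prod) Norm of `zf`. Proof. `zf J = (∏_{near} (1 - t_j)) * u`,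
near = the terms which meet `U`, `u = zf far`, `u^2 = u`. For `M', a'`, `T = M' \ U`, by S_LP (3) and
(2) for the family `far`: `mn (tm T .. * u) ≤ (1/2)^|T| (1 - (3/5)^m)^(-k|T|) mn u ≤
(1/2)^|T| (6/5)^|T| mn u ≤ (1/2)^(|T|/2) mn u` (`6/5 ≤ sqrt 2`; the terms of `far` which meet `T`
are at most `k |T|`, S_Un). S_Prod with `K = sqrt (mn u)`, factor `1`. Finally
`mn u ≤ (1 - (3/5)^w)^(-k|U|) mn (zf J) ≤ exp (4 k |U| (3/5)^w) mn (zf J) ≤
exp (4 k^2 |U| / w) mn (zf J)` (`1 - y ≥ exp (-2 y)` for `y ≤ 1/2`, `w (3/5)^w ≤ 1`). So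
`LU ≤ sqrt (mn (zf J)) * exp (2 k^2 |U|/w + 10 k^2 |U|/w)`. -/
def S_NormB : Prop := ∀ (n k w : ℕ) (J : Finset ℕ) (M a : ℕ → Finset (Fin n))
  (U : Finset (Fin n)), 1 ≤ k → 1 ≤ w → 6 * k * (3 / 5 : ℝ) ^ w ≤ 1 → Rd k J M →
  (∀ j ∈ J, a j ⊆ M j ∧ w ≤ (M j).card) →
    LU U (zf J M a) ≤ Real.sqrt (mn (zf J M a)) * Real.exp (12 * k ^ 2 * U.card / w)

/-- (CostB, 150 lines, uses S_First, S_NormB, S_LP, S_ResB, S_LSum, S_Lx, S_Un) Upper bound for the
cost, `f = 2 zf - 1`, all terms wide. Proof. With `Z₀ A = zf (A.erase v)`, `Z₁ A = zf (insert v A)`,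
`p = mn (zf)`: `b = df v f = Z₀ - Z₁`, `av v f = g - 1`, `g = Z₀ + Z₁`, `mn Z₀ + mn Z₁ = 2 p`.
`|fc (av v f) ∅| ≤ 1`, `|fc b ∅| ≤ mn |b| = mn (b^2)`, and `fc (av v f) S = fc g S` for `S ≠ ∅`. So the
sum is at most `mn (b^2) + ∑_S |fc g S * fc b S|`. `b A ≠ 0` implies `A ∩ U j = c j` for some `j ∈ J`
with `v ∈ M j`, `U j = (M j).erase v`, `c j = (a j).erase v`. As `b^2 ≤ Z₀ + Z₁`, S_LP (3), (2) for
the two restricted families (S_ResB, widths `≥ w - 1`) give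
`mn (tm (U j) (c j) * b^2) ≤ (1/2)^u 2 p exp (4 k^2 u/(w-1)) =: B j`, `u = |U j|`. S_NormB:
`LU U g ≤ 2 sqrt (2 p) exp (12 k^2 u / (w-1))`. By S_First the sum is at most
`∑_j 2 sqrt (2p) exp (12 k^2 u/(w-1)) (1/2)^u sqrt (2p) exp (2 k^2 u/(w-1)) ≤
k * 4 p * (1/2)^(w-1) exp (14 k^2)` if `w - 1 ≥ 21 k^2` (`21 log 2 ≥ 14`), `u ≥ w - 1`. -/
def S_CostB : Prop := ∀ k : ℕ, ∃ (w₀ : ℕ) (C : ℝ), 0 < C ∧ ∀ (n w : ℕ) (J : Finset ℕ)
  (M a : ℕ → Finset (Fin n)) (v : Fin n), w₀ ≤ w → Rd k J M →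
  (∀ j ∈ J, a j ⊆ M j ∧ w ≤ (M j).card) →
    ∑ S : Finset (Fin n), |fc (av v (fun A => 2 * zf J M a A - 1)) S *
        fc (df v (fun A => 2 * zf J M a A - 1)) S| ≤
      mn (fun A => df v (fun A => 2 * zf J M a A - 1) A ^ 2) +
        C * (1 / 2 : ℝ) ^ w * mn (zf J M a)

/-- (ShortB, 120 lines, uses S_Ind) A short term. (1) Proof: for a function `Z` with values `0`, `1`,
a set `M` and `a ⊆ M`: `mn Z ≤ mn (fun A => Z ((A \ M) ∪ a)) + ∑_{v ∈ M} 2^|M| mn |Z₀ - Z₁|`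
(`Z₀ A = Z (A.erase v)`, `Z₁ A = Z (insert v A)`), by induction on `M`: fix the value of one more
coordinate `v`; this changes `Z` only if `Z₀ ≠ Z₁` at the current point, and a mean over points with
`i` fixed coordinates is at most `2^i` times the mean over all points. For `Z = zf`, `M = M j₀`,
`a = a j₀` the first mean is `0`. So some `v ∈ M j₀` has `mn ((Z₀ - Z₁)^2) ≥ p / (|M| 2^|M|)`.
(2) Cauchy-Schwarz: `∑_S |fc g S fc b S| ≤ sqrt (mn (g^2)) sqrt (mn (b^2))`, `g = Z₀ + Z₁`,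
`g^2 ≤ 2 g`, `mn (g^2) ≤ 4 p`; the empty set as in S_CostB. -/
def S_ShortB : Prop := ∀ (n : ℕ) (J : Finset ℕ) (M a : ℕ → Finset (Fin n)),
  (∀ j₀ ∈ J, a j₀ ⊆ M j₀ → (M j₀).Nonempty → ∃ v ∈ M j₀, mn (zf J M a) ≤
    (M j₀).card * 2 ^ (M j₀).card * mn (fun A => df v (fun A => 2 * zf J M a A - 1) A ^ 2)) ∧
  ∀ v : Fin n, ∑ S : Finset (Fin n), |fc (av v (fun A => 2 * zf J M a A - 1)) S *
        fc (df v (fun A => 2 * zf J M a A - 1)) S| ≤
      mn (fun A => df v (fun A => 2 * zf J M a A - 1) A ^ 2) +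
        2 * Real.sqrt (mn (zf J M a) * mn (fun A => df v (fun A => 2 * zf J M a A - 1) A ^ 2))

/-- (MainB, assembly, helper33; uses S_Desc, S_Lx, S_ResB, S_MinB, S_InfB, S_CostB, S_ShortB). -/
def S_MainB : Prop := ∀ k : ℕ, ∃ C : ℝ, 0 < C ∧ ∀ (n : ℕ) (W : Finset (Fin n))
  (f : Finset (Fin n) → ℝ), PB k W f → He f ≤ C * tinf f

end Pool.Agent.MP3145b1.F
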