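import Pool.Agent.Lib.MP_3145b1_co.F.Spec

/-!
# MP_3145b1_co, F: statements with explicit dependence on the read

`Ent(f) ≤ C (k^2 + d + 1) I(f)` with an absolute constant `C`.
-/

set_option autoImplicit false

namespace Pool.Agent.MP3145b1.F

open Finset

/-- (Jn, 60 lines) Logarithmic form of the cost. Proof: for `D = 0` both sides are `0`. Otherwise
`log (1 + x^2) ≤ 2 log (1 + x)` with `x = |a/b|`, and Jensen (concavity of the logarithm) for the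
weights `b^2 / D`. -/
def S_Jn : Prop := ∀ (ι : Type) [Fintype ι] (a b : ι → ℝ),
  ∑ i, b i ^ 2 * Real.log (1 + a i ^ 2 / b i ^ 2) ≤
    2 * (∑ i, b i ^ 2) * Real.log (1 + (∑ i, |a i * b i|) / ∑ i, b i ^ 2)

/-- (InfBe) As `S_InfB`, with explicit dependence on `k`: the proof in the docstring of `S_InfB`
gives `c = (1/2)^(2k+1)`; for `w ≥ B k^2` (`B = 1000`, say) `m = w/2 - 2k ≥ w/4`, and
`k (w + 2k) ≤ w^2/100`, so all conditions hold (`(5/3)^m` grows faster than `m^2`). -/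
def S_InfBe : Prop := ∃ B : ℕ, ∀ (k n w : ℕ) (J : Finset ℕ)
  (M a : ℕ → Finset (Fin n)) (j₀ : ℕ) (v : Fin n) (z : Finset (Fin n)), 1 ≤ k → B * k ^ 2 ≤ w →
  Rd k J M → (∀ j ∈ J, a j ⊆ M j ∧ w ≤ (M j).card) → j₀ ∈ J → (M j₀).card = w → v ∈ M j₀ →
  z ∩ (M j₀).erase v = (a j₀).erase v → zf J M a z = 1 →
    (1 / 2 : ℝ) ^ (B * k ^ 2) * (1 / 2 : ℝ) ^ w * mn (zf J M a) ≤
      mn (fun A => df v (fun A => 2 * zf J M a A - 1) A ^ 2)

/-- (CostBe) As `S_CostB`, with explicit dependence on `k`: the conditions are `w - 1 ≥ 21 k^2` and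
`6 k (3/5)^(w-1) ≤ 1` (Bernoulli: `(5/3)^m ≥ 1 + 2m/3`), the constant is
`8 k exp (14 k^2) ≤ 2^(B k^2)` for `B = 100`, say. -/
def S_CostBe : Prop := ∃ B : ℕ, ∀ (k n w : ℕ) (J : Finset ℕ)
  (M a : ℕ → Finset (Fin n)) (v : Fin n), 1 ≤ k → B * k ^ 2 ≤ w → Rd k J M →
  (∀ j ∈ J, a j ⊆ M j ∧ w ≤ (M j).card) →
    ∑ S : Finset (Fin n), |fc (av v (fun A => 2 * zf J M a A - 1)) S *
        fc (df v (fun A => 2 * zf J M a A - 1)) S| ≤
      mn (fun A => df v (fun A => 2 * zf J M a A - 1) A ^ 2) +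
        2 ^ (B * k ^ 2) * (1 / 2 : ℝ) ^ w * mn (zf J M a)

/-- Explicit main statement, XOR. -/
def S_MainAe : Prop := ∃ C : ℝ, 0 < C ∧ ∀ (k d n : ℕ) (W : Finset (Fin n))
  (f : Finset (Fin n) → ℝ), PA k d W f → He f ≤ C * (k ^ 2 + d + 1) * tinf f

/-- Explicit main statement, DNF. -/
def S_MainBe : Prop := ∃ C : ℝ, 0 < C ∧ ∀ (k n : ℕ) (W : Finset (Fin n))
  (f : Finset (Fin n) → ℝ), PB k W f → He f ≤ C * (k ^ 2 + 1) * tinf f

end Pool.Agent.MP3145b1.F
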